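import Pool.Agent.H23S.Stm
set_option autoImplicit false

/-!
Project SM: assembly.
-/

open Polynomial

namespace Pool.Agent.H23S

namespace As

/-! ### Coverings -/

theorem cov_mono {X : Type} [TopologicalSpace X] {S : Set X} {N M : ℕ} (h : Cov S N)
    (hNM : N ≤ M) : Cov S M := by
  obtain ⟨T, h1, h2, h3⟩ := h
  exact ⟨T, h1.trans hNM, h2, h3⟩

theorem cov_union {X : Type} [TopologicalSpace X] {A B : Set X} {N M : ℕ} (hA : Cov A N)
    (hB : Cov B M) : Cov (A ∪ B) (N + M) := by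
  classical
  obtain ⟨T, h1, h2, h3⟩ := hA
  obtain ⟨T', h1', h2', h3'⟩ := hB
  refine ⟨T ∪ T', (Finset.card_union_le _ _).trans (Nat.add_le_add h1 h1'), ?_, ?_⟩
  · intro t ht
    rcases Finset.mem_union.1 ht with ht | ht
    · exact Or.inl (h2 t ht)
    · exact Or.inr (h2' t ht)
  · rintro z (hz | hz)
    · obtain ⟨t, ht, h⟩ := h3 z hz
      exact ⟨t, Finset.mem_union_left _ ht, connectedComponentIn_mono _ Set.subset_union_left h⟩
    · obtain ⟨t, ht, h⟩ := h3' z hz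
      exact ⟨t, Finset.mem_union_right _ ht, connectedComponentIn_mono _ Set.subset_union_right h⟩

theorem cov_circle (β : ℝ) (hβ : 0 < β) : Cov {z : ℂ | ‖z‖ ^ 2 = β} 1 := by
  classical
  have hs : 0 < √β := Real.sqrt_pos.2 hβ
  have heq : {z : ℂ | ‖z‖ ^ 2 = β} = Metric.sphere 0 (√β) := by
    ext z
    rw [Set.mem_setOf_eq, mem_sphere_zero_iff_norm]
    constructor
    · intro h
      rw [← h, Real.sqrt_sq (norm_nonneg _)]
    · intro h
      rw [h, Real.sq_sqrt hβ.le]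
  have hpre : IsPreconnected {z : ℂ | ‖z‖ ^ 2 = β} := by
    rw [heq]
    apply isPreconnected_sphere
    rw [Complex.rank_real_complex]
    exact_mod_cast Nat.one_lt_two
  have hmem : ((√β : ℝ) : ℂ) ∈ {z : ℂ | ‖z‖ ^ 2 = β} := by
    rw [Set.mem_setOf_eq, Complex.norm_real, Real.norm_of_nonneg hs.le, Real.sq_sqrt hβ.le]
  refine ⟨{((√β : ℝ) : ℂ)}, by simp, ?_, ?_⟩
  · intro t ht
    rw [Finset.mem_singleton] at ht
    rw [ht]; exact hmem
  · intro z hz
    refine ⟨_, Finset.mem_singleton_self _, ?_⟩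
    exact hpre.subset_connectedComponentIn hmem subset_rfl hz

/-! ### Points at an entry radius -/

theorem pt_eq {g : ℝ[X]} {c : ℂ[X]} {m : ℕ} {z : ℂ} (hz : z ∈ Zs g c m)
    (hD : Dv g c m (‖z‖ ^ 2) = 0) :
    c.eval ((‖z‖ ^ 2 : ℝ) : ℂ) * z ^ m = ((-g.eval (‖z‖ ^ 2) : ℝ) : ℂ) := by
  set w := c.eval ((‖z‖ ^ 2 : ℝ) : ℂ) * z ^ m with hw
  have h1 : w.re = -g.eval (‖z‖ ^ 2) := by
    have : g.eval (‖z‖ ^ 2) + w.re = 0 := hz
    linarith
  have h2 : ‖w‖ ^ 2 = g.eval (‖z‖ ^ 2) ^ 2 := by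
    rw [hw, norm_mul, norm_pow, mul_pow]
    unfold Dv at hD
    have : (‖z‖ ^ m) ^ 2 = (‖z‖ ^ 2) ^ m := by ring
    rw [this]
    linarith
  have h3 : w.im = 0 := by
    have h4 : ‖w‖ ^ 2 = w.re ^ 2 + w.im ^ 2 := by
      rw [← Complex.normSq_eq_norm_sq, Complex.normSq_apply]; ring
    have h5 : w.im ^ 2 = 0 := by
      rw [h2, h1] at h4
      linarith [h4]
    exact pow_eq_zero_iff (two_ne_zero) |>.1 h5
  apply Complex.ext
  · rw [h1, Complex.ofReal_re]
  · rw [h3, Complex.ofReal_im]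

theorem root_mem {g : ℝ[X]} {c : ℂ[X]} {m : ℕ} (hm : 1 ≤ m) {z : ℂ} (hz : z ∈ Zs g c m)
    (hD : Dv g c m (‖z‖ ^ 2) = 0) (hc : c.eval ((‖z‖ ^ 2 : ℝ) : ℂ) ≠ 0) :
    z ∈ nthRoots m (((-g.eval (‖z‖ ^ 2) : ℝ) : ℂ) / c.eval ((‖z‖ ^ 2 : ℝ) : ℂ)) := by
  rw [mem_nthRoots (by omega), eq_div_iff hc, mul_comm]
  exact pt_eq hz hD

open Classical in
/-- the points at the radius `ρ` -/
noncomputable def Pts (g : ℝ[X]) (c : ℂ[X]) (m : ℕ) (ρ : ℝ) : Finset ℂ :=
  (nthRoots m (((-g.eval ρ : ℝ) : ℂ) / c.eval (ρ : ℂ))).toFinset.filter (fun z => z ∈ Zs g c m)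

theorem card_Pts (g : ℝ[X]) (c : ℂ[X]) (m : ℕ) (ρ : ℝ) : (Pts g c m ρ).card ≤ m := by
  classical
  unfold Pts
  exact (Finset.card_filter_le _ _).trans ((Multiset.toFinset_card_le _).trans (card_nthRoots _ _))

theorem mem_Pts {g : ℝ[X]} {c : ℂ[X]} {m : ℕ} (hm : 1 ≤ m) {z : ℂ} (hz : z ∈ Zs g c m)
    (hD : Dv g c m (‖z‖ ^ 2) = 0) (hc : c.eval ((‖z‖ ^ 2 : ℝ) : ℂ) ≠ 0) :
    z ∈ Pts g c m (‖z‖ ^ 2) := by
  classical
  unfold Pts
  rw [Finset.mem_filter, Multiset.mem_toFinset]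
  exact ⟨root_mem hm hz hD hc, hz⟩

/-! ### The general bound -/

theorem ent_c_ne {g : ℝ[X]} {c : ℂ[X]} {m : ℕ}
    (hb : ∀ R : ℝ, 0 < R → g.eval R = 0 → c.eval (R : ℂ) ≠ 0) {ρ : ℝ} (hρ : ρ ∈ Ent g c m) :
    c.eval (ρ : ℂ) ≠ 0 := by
  intro h
  obtain ⟨h1, h2, -⟩ := hρ
  unfold Dv at h2
  rw [h, norm_zero] at h2
  have h3 : g.eval ρ = 0 := by
    have : g.eval ρ ^ 2 = 0 := by linarith [h2]
    exact pow_eq_zero_iff (two_ne_zero) |>.1 this
  exact hb ρ h1 h3 h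

theorem bnd_of_DP (hDP : S_DP) {g : ℝ[X]} {c : ℂ[X]} {m k : ℕ} (hk : 1 ≤ k) (h : Ok g c m k) :
    ∃ B : ℝ, ∀ R, B < R → 0 < Dv g c m R := by
  obtain ⟨D, hD, hdeg, hlead, -⟩ := hDP g c m k h
  have h1 : Filter.Tendsto (fun x => D.eval x) Filter.atTop Filter.atTop := by
    apply Polynomial.tendsto_atTop_of_leadingCoeff_nonneg
    · rw [Polynomial.degree_eq_natDegree (by
        intro h0
        rw [h0] at hlead
        simp at hlead), hdeg]
      exact_mod_cast (by omega : 0 < 2 * k)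
    · rw [Polynomial.leadingCoeff, hdeg]; exact hlead.le
  obtain ⟨B, hB⟩ := (h1.eventually_gt_atTop 0).exists_forall_of_atTop
  exact ⟨B, fun R hR => by rw [← hD]; exact hB R hR.le⟩

theorem core_nobad (hDP : S_DP) (hENT : S_DP → S_ENT) (hMIN : S_MIN) {g : ℝ[X]} {c : ℂ[X]} {m k : ℕ}
    (hk : 1 ≤ k) (h : Ok g c m k)
    (hb : ∀ R : ℝ, 0 < R → g.eval R = 0 → c.eval (R : ℂ) ≠ 0) : Cov (Zs g c m) (m * k) := by
  classical
  obtain ⟨hfin, hcard⟩ := hENT hDP g c m k h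
  let T : Finset ℂ := hfin.toFinset.biUnion (Pts g c m)
  refine ⟨T, ?_, ?_, ?_⟩
  · calc T.card ≤ ∑ ρ ∈ hfin.toFinset, (Pts g c m ρ).card := Finset.card_biUnion_le
      _ ≤ ∑ ρ ∈ hfin.toFinset, m := Finset.sum_le_sum fun ρ _ => card_Pts _ _ _ _
      _ = (Ent g c m).ncard * m := by
        rw [Finset.sum_const, smul_eq_mul, Set.ncard_eq_toFinset_card _ hfin]
      _ ≤ k * m := Nat.mul_le_mul_right _ hcard
      _ = m * k := mul_comm _ _
  · intro t ht
    obtain ⟨ρ, -, h2⟩ := Finset.mem_biUnion.1 ht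
    unfold Pts at h2
    exact (Finset.mem_filter.1 h2).2
  · intro z hz
    obtain ⟨z₀, h1, h2⟩ := hMIN g c m h.1 h.2.2.2.1 (bnd_of_DP hDP hk h) hb z hz
    have hz₀ : z₀ ∈ Zs g c m := connectedComponentIn_subset _ _ h1
    refine ⟨z₀, ?_, ?_⟩
    · apply Finset.mem_biUnion.2
      refine ⟨‖z₀‖ ^ 2, hfin.mem_toFinset.2 h2, ?_⟩
      exact mem_Pts h.1 hz₀ h2.2.1 (by exact_mod_cast ent_c_ne hb h2)
    · rw [← connectedComponentIn_eq h1]
      exact mem_connectedComponentIn hz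

theorem core1 (hDP : S_DP) (hENT : S_DP → S_ENT) (hMIN : S_MIN) :
    ∀ (k : ℕ) (g : ℝ[X]) (c : ℂ[X]) (m : ℕ), Ok g c m k → Cov (Zs g c m) (m * k) := by
  intro k
  induction k with
  | zero =>
    intro g c m h
    obtain ⟨h1, h2, h3, h4, h5⟩ := h
    have hc : c = 0 := by
      rcases h5 with h5 | h5
      · exact h5
      · omega
    have hg : g = C (g.coeff 0) := Polynomial.eq_C_of_natDegree_le_zero h2
    refine ⟨∅, by simp, by simp, ?_⟩
    intro z hz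
    exfalso
    have h6 : g.eval (‖z‖ ^ 2) + (c.eval ((‖z‖ ^ 2 : ℝ) : ℂ) * z ^ m).re = 0 := hz
    rw [hc, hg] at h6
    simp at h6
    exact h3 h6
  | succ k ih =>
    intro g c m h
    by_cases hb : ∀ R : ℝ, 0 < R → g.eval R = 0 → c.eval (R : ℂ) ≠ 0
    · exact core_nobad hDP hENT hMIN (by omega) h hb
    · push Not at hb
      obtain ⟨β, hβ, hgβ, hcβ⟩ := hb
      obtain ⟨h1, h2, h3, h4, h5⟩ := h
      obtain ⟨g₁, hg₁⟩ := Polynomial.dvd_iff_isRoot.2 hgβ
      obtain ⟨c₁, hc₁⟩ := Polynomial.dvd_iff_isRoot.2 hcβ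
      have hg0 : g ≠ 0 := by
        intro h0; rw [h0] at h3; simp at h3
      have hg₁0 : g₁ ≠ 0 := by
        intro h0; rw [h0, mul_zero] at hg₁; exact hg0 hg₁
      have hdeg : g.natDegree = g₁.natDegree + 1 := by
        rw [hg₁, Polynomial.natDegree_mul (Polynomial.X_sub_C_ne_zero _) hg₁0,
          Polynomial.natDegree_X_sub_C, add_comm]
      have hdegk : g.natDegree = k + 1 := le_antisymm h2 (Polynomial.le_natDegree_of_ne_zero h3)
      have hok : Ok g₁ c₁ m k := by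
        refine ⟨h1, by omega, ?_, ?_, ?_⟩
        · have : g₁.natDegree = k := by omega
          rw [← this]
          exact Polynomial.leadingCoeff_ne_zero.2 hg₁0
        · intro h0
          apply h4
          rw [hg₁, Polynomial.eval_mul, h0, mul_zero]
        · by_cases hc10 : c₁ = 0
          · exact Or.inl hc10
          · right
            have hc0 : c ≠ 0 := by
              rw [hc₁]; exact mul_ne_zero (Polynomial.X_sub_C_ne_zero _) hc10
            have hdc : c.natDegree = c₁.natDegree + 1 := by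
              rw [hc₁, Polynomial.natDegree_mul (Polynomial.X_sub_C_ne_zero _) hc10,
                Polynomial.natDegree_X_sub_C, add_comm]
            rcases h5 with h5 | h5
            · exact absurd h5 hc0
            · omega
      have hset : Zs g c m = {z : ℂ | ‖z‖ ^ 2 = β} ∪ Zs g₁ c₁ m := by
        ext z
        have key : g.eval (‖z‖ ^ 2) + (c.eval ((‖z‖ ^ 2 : ℝ) : ℂ) * z ^ m).re =
            (‖z‖ ^ 2 - β) * (g₁.eval (‖z‖ ^ 2) + (c₁.eval ((‖z‖ ^ 2 : ℝ) : ℂ) * z ^ m).re) := by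
          rw [hg₁, hc₁, Polynomial.eval_mul, Polynomial.eval_mul, Polynomial.eval_sub,
            Polynomial.eval_sub, Polynomial.eval_X, Polynomial.eval_C, Polynomial.eval_X,
            Polynomial.eval_C, ← Complex.ofReal_sub, mul_assoc, Complex.re_ofReal_mul]
          ring
        constructor
        · intro hz
          have hz' : g.eval (‖z‖ ^ 2) + (c.eval ((‖z‖ ^ 2 : ℝ) : ℂ) * z ^ m).re = 0 := hz
          rw [key] at hz'
          rcases mul_eq_zero.1 hz' with h | h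
          · left
            rw [Set.mem_setOf_eq]; linarith
          · right; exact h
        · rintro (hz | hz)
          · change g.eval (‖z‖ ^ 2) + (c.eval ((‖z‖ ^ 2 : ℝ) : ℂ) * z ^ m).re = 0
            rw [key, show ‖z‖ ^ 2 - β = 0 by rw [Set.mem_setOf_eq] at hz; linarith, zero_mul]
          · change g.eval (‖z‖ ^ 2) + (c.eval ((‖z‖ ^ 2 : ℝ) : ℂ) * z ^ m).re = 0
            rw [key, show g₁.eval (‖z‖ ^ 2) + (c₁.eval ((‖z‖ ^ 2 : ℝ) : ℂ) * z ^ m).re = 0 from hz,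
              mul_zero]
      rw [hset]
      refine cov_mono (cov_union (cov_circle β hβ) (ih g₁ c₁ m hok)) ?_
      have : m * (k + 1) = m * k + m := by ring
      omega

theorem zs_zero (g : ℝ[X]) (m : ℕ) : Zs g 0 m = Zs g 0 1 := by
  ext z
  simp [Zs]

end As

end Pool.Agent.H23S
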