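import Pool.Agent.H23S.Asm
set_option autoImplicit false

/-!
Project SM: assembly, part 2: the case m = 2k - 1.
-/

open Polynomial

namespace Pool.Agent.H23S

namespace As

theorem arith (k a b : ℕ) (hk : 2 ≤ k) (h : a + b + a ≤ k + 1) :
    (2 * k - 1) * a + b ≤ (2 * k - 1) * ((k + 1) / 2) + (k + 1) % 2 := by
  obtain ⟨j, rfl⟩ : ∃ j, k = j + 2 := ⟨k - 2, by omega⟩
  have e1 : 2 * (j + 2) - 1 = 2 * j + 1 + 2 := by omega
  rw [e1]
  have ha : a ≤ (j + 2 + 1) / 2 := by omega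
  have h1 : (2 * j + 1) * a ≤ (2 * j + 1) * ((j + 2 + 1) / 2) := Nat.mul_le_mul_left _ ha
  have h2 : (2 * j + 1 + 2) * a = (2 * j + 1) * a + 2 * a := by ring
  have h3 : (2 * j + 1 + 2) * ((j + 2 + 1) / 2) =
    (2 * j + 1) * ((j + 2 + 1) / 2) + 2 * ((j + 2 + 1) / 2) := by ring
  rw [h2, h3]
  omega

open Classical in
/-- one point of a finite set -/
noncomputable def one (s : Finset ℂ) : Finset ℂ := if h : s.Nonempty then {h.choose} else ∅

theorem card_one (s : Finset ℂ) : (one s).card ≤ 1 := by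
  unfold one
  split_ifs <;> simp

theorem one_subset (s : Finset ℂ) : one s ⊆ s := by
  unfold one
  split_ifs with h
  · intro x hx
    rw [Finset.mem_singleton] at hx
    rw [hx]; exact h.choose_spec
  · exact Finset.empty_subset _

theorem one_nonempty {s : Finset ℂ} (h : s.Nonempty) : (one s).Nonempty := by
  unfold one
  rw [dif_pos h]
  exact Finset.singleton_nonempty _

theorem mem_Pts_iff {g : ℝ[X]} {c : ℂ[X]} {m : ℕ} {ρ : ℝ} {z : ℂ} (h : z ∈ Pts g c m ρ) :
    z ∈ Zs g c m := by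
  classical
  unfold Pts at h
  exact (Finset.mem_filter.1 h).2

/-- the points of `Pts` have the right absolute value -/
theorem norm_of_mem_Pts {g : ℝ[X]} {c : ℂ[X]} {m : ℕ} (hm : 1 ≤ m) {ρ : ℝ} (hρ : 0 < ρ)
    (hD : Dv g c m ρ = 0) (hc : c.eval (ρ : ℂ) ≠ 0) {z : ℂ} (h : z ∈ Pts g c m ρ) :
    ‖z‖ ^ 2 = ρ := by
  classical
  unfold Pts at h
  rw [Finset.mem_filter, Multiset.mem_toFinset, mem_nthRoots (by omega)] at h
  have h1 := congrArg (fun w : ℂ => ‖w‖ ^ 2) h.1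
  simp only [norm_pow, norm_div, Complex.norm_real, Real.norm_eq_abs, abs_neg, div_pow,
    sq_abs] at h1
  have h2 : g.eval ρ ^ 2 = ρ ^ m * ‖c.eval (ρ : ℂ)‖ ^ 2 := by
    unfold Dv at hD; linarith
  have h3 : 0 < ‖c.eval (ρ : ℂ)‖ ^ 2 := by
    have := norm_pos_iff.2 hc
    positivity
  rw [h2, mul_div_assoc, div_self h3.ne', mul_one] at h1
  have h4 : (‖z‖ ^ 2) ^ m = ρ ^ m := by
    rw [← h1]; ring
  exact (pow_left_inj₀ (by positivity) hρ.le (by omega)).1 h4

theorem core2 (hDP : S_DP) (hMIN : S_MIN) (hCROSS : S_CROSS) (hCNT : S_CNT) {g : ℝ[X]} {c : ℂ}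
    {k : ℕ} (hk : 2 ≤ k) (hc : c ≠ 0) (h : Ok g (C c) (2 * k - 1) k) :
    Cov (Zs g (C c) (2 * k - 1)) ((2 * k - 1) * ((k + 1) / 2) + (k + 1) % 2) := by
  classical
  obtain ⟨hfin, hcard⟩ := hCNT g c k hc h
  set m := 2 * k - 1 with hm
  have hm1 : 1 ≤ m := by omega
  have hb : ∀ R : ℝ, 0 < R → g.eval R = 0 → (C c).eval (R : ℂ) ≠ 0 := by
    intro R _ _
    rw [eval_C]; exact hc
  let A : Finset ℝ := hfin.toFinset.filter (fun ρ => ¬ Crs g (C c) m ρ)
  let B : Finset ℝ := hfin.toFinset.filter (fun ρ => Crs g (C c) m ρ)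
  have hAB : A.card + B.card = (Ent g (C c) m).ncard := by
    rw [Set.ncard_eq_toFinset_card _ hfin, add_comm]
    exact Finset.card_filter_add_card_filter_not _
  have hA : A.card = {ρ | ρ ∈ Ent g (C c) m ∧ ¬ Crs g (C c) m ρ}.ncard := by
    rw [← Set.ncard_coe_finset]
    congr 1
    ext ρ
    simp [A]
  let T : Finset ℂ := A.biUnion (Pts g (C c) m) ∪ B.biUnion (fun ρ => one (Pts g (C c) m ρ))
  refine ⟨T, ?_, ?_, ?_⟩
  · have h1 : (A.biUnion (Pts g (C c) m)).card ≤ m * A.card := by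
      calc (A.biUnion (Pts g (C c) m)).card ≤ ∑ ρ ∈ A, (Pts g (C c) m ρ).card :=
            Finset.card_biUnion_le
        _ ≤ ∑ ρ ∈ A, m := Finset.sum_le_sum fun ρ _ => card_Pts _ _ _ _
        _ = m * A.card := by rw [Finset.sum_const, smul_eq_mul, mul_comm]
    have h2 : (B.biUnion (fun ρ => one (Pts g (C c) m ρ))).card ≤ B.card := by
      calc (B.biUnion (fun ρ => one (Pts g (C c) m ρ))).card
          ≤ ∑ ρ ∈ B, (one (Pts g (C c) m ρ)).card := Finset.card_biUnion_le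
        _ ≤ ∑ ρ ∈ B, 1 := Finset.sum_le_sum fun ρ _ => card_one _
        _ = B.card := by simp
    have h3 : T.card ≤ m * A.card + B.card := (Finset.card_union_le _ _).trans (by omega)
    refine h3.trans ?_
    rw [hm]
    apply arith k _ _ hk
    rw [hAB, hA]
    exact hcard
  · intro t ht
    rcases Finset.mem_union.1 ht with ht | ht
    · obtain ⟨ρ, -, h2⟩ := Finset.mem_biUnion.1 ht
      exact mem_Pts_iff h2
    · obtain ⟨ρ, -, h2⟩ := Finset.mem_biUnion.1 ht
      exact mem_Pts_iff (one_subset _ h2)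
  · intro z hz
    obtain ⟨z₀, h1, h2⟩ := hMIN g (C c) m hm1 h.2.2.2.1 (bnd_of_DP hDP (by omega) h) hb z hz
    have hz₀ : z₀ ∈ Zs g (C c) m := connectedComponentIn_subset _ _ h1
    have hcz : (C c).eval ((‖z₀‖ ^ 2 : ℝ) : ℂ) ≠ 0 := by rw [eval_C]; exact hc
    have hP : z₀ ∈ Pts g (C c) m (‖z₀‖ ^ 2) := mem_Pts hm1 hz₀ h2.2.1 hcz
    have hzz : z ∈ connectedComponentIn (Zs g (C c) m) z₀ := by
      rw [← connectedComponentIn_eq h1]
      exact mem_connectedComponentIn hz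
    by_cases hX : Crs g (C c) m (‖z₀‖ ^ 2)
    · obtain ⟨t, ht⟩ := one_nonempty ⟨z₀, hP⟩
      refine ⟨t, ?_, ?_⟩
      · apply Finset.mem_union_right
        apply Finset.mem_biUnion.2
        exact ⟨_, Finset.mem_filter.2 ⟨hfin.mem_toFinset.2 h2, hX⟩, ht⟩
      · have ht' := one_subset _ ht
        have h3 := hCROSS g c m (‖z₀‖ ^ 2) hm1 hc h2.1 h2.2.1 hX t (mem_Pts_iff ht') z₀ hz₀
          (norm_of_mem_Pts hm1 h2.1 h2.2.1 hcz ht') rfl
        rw [connectedComponentIn_eq h3]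
        exact hzz
    · refine ⟨z₀, ?_, hzz⟩
      apply Finset.mem_union_left
      apply Finset.mem_biUnion.2
      exact ⟨_, Finset.mem_filter.2 ⟨hfin.mem_toFinset.2 h2, hX⟩, hP⟩

/-! ### Rotations -/

/-- rotation by the angle `t` -/
noncomputable def rotA (t : ℝ) (v : Fin 3 → ℝ) : Fin 3 → ℝ :=
  ![Real.cos t * v 0 - Real.sin t * v 1, Real.sin t * v 0 + Real.cos t * v 1, v 2]

theorem rotA_add (s t : ℝ) (v : Fin 3 → ℝ) : rotA s (rotA t v) = rotA (s + t) v := by
  funext i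
  fin_cases i
  · simp [rotA, Real.cos_add, Real.sin_add]; ring
  · simp [rotA, Real.cos_add, Real.sin_add]; ring
  · simp [rotA]

theorem rot_iter (m : ℕ) (j : ℕ) (v : Fin 3 → ℝ) :
    (rot m)^[j] v = rotA (j * (2 * Real.pi / m)) v := by
  induction j with
  | zero =>
    funext i
    fin_cases i <;> simp [rotA]
  | succ j ih =>
    rw [Function.iterate_succ_apply', ih]
    have : rot m (rotA (j * (2 * Real.pi / m)) v) =
        rotA (2 * Real.pi / m) (rotA (j * (2 * Real.pi / m)) v) := rfl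
    rw [this, rotA_add]
    congr 1
    push_cast; ring

theorem rot_m (m : ℕ) (hm : m ≠ 0) (v : Fin 3 → ℝ) : (rot m)^[m] v = v := by
  rw [rot_iter]
  have hm' : (m : ℝ) ≠ 0 := Nat.cast_ne_zero.2 hm
  have : (m : ℝ) * (2 * Real.pi / m) = 2 * Real.pi := by field_simp
  rw [this]
  funext i
  fin_cases i <;> simp [rotA]

/-- the factor is `1` -/
theorem factor_one {F : MvPolynomial (Fin 3) ℝ} {m : ℕ} (hm : Odd m) {b : ℝ}
    (h : ∀ v, MvPolynomial.eval (rot m v) F = b * MvPolynomial.eval v F)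
    {v₀ : Fin 3 → ℝ} (hv₀ : MvPolynomial.eval v₀ F ≠ 0) : b = 1 := by
  have h1 : ∀ j v, MvPolynomial.eval ((rot m)^[j] v) F = b ^ j * MvPolynomial.eval v F := by
    intro j
    induction j with
    | zero => intro v; simp
    | succ j ih =>
      intro v
      rw [Function.iterate_succ_apply', h, ih]; ring
  have h2 := h1 m v₀
  rw [rot_m m (by rintro rfl; exact absurd hm (by decide))] at h2
  have h3 : b ^ m = 1 := by
    have : (b ^ m - 1) * MvPolynomial.eval v₀ F = 0 := by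
      rw [sub_mul, ← h2]; ring
    rcases mul_eq_zero.1 this with h | h
    · linarith
    · exact absurd h hv₀
  exact hm.strictMono_pow.injective (by simpa using h3)

end As

end Pool.Agent.H23S
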