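import Pool.Agent.H23S.Asm2
set_option autoImplicit false

/-!
Project SM: assembly, part 3: the main theorem from the pieces.
-/

open Polynomial

namespace Pool.Agent.H23S

namespace As

theorem eval_smul_hom {F : MvPolynomial (Fin 3) ℝ} {n : ℕ} (hF : F.IsHomogeneous n) (μ : ℝ)
    (v : Fin 3 → ℝ) : MvPolynomial.eval (μ • v) F = μ ^ n * MvPolynomial.eval v F := by
  rw [MvPolynomial.eval_eq, MvPolynomial.eval_eq, Finset.mul_sum]
  apply Finset.sum_congr rfl
  intro d hd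
  have h1 : d.degree = n := by
    have := hF (MvPolynomial.mem_support_iff.1 hd)
    rw [Finsupp.degree_eq_weight_one]
    exact this
  have h2 : ∏ i ∈ d.support, (μ • v) i ^ d i = μ ^ n * ∏ i ∈ d.support, v i ^ d i := by
    simp only [Pi.smul_apply, smul_eq_mul, mul_pow]
    rw [Finset.prod_mul_distrib, Finset.prod_pow_eq_pow_sum]
    congr 2
  rw [h2]; ring

theorem not_zero {F : MvPolynomial (Fin 3) ℝ} (hN : Nonsing F) :
    ∃ v, MvPolynomial.eval v F ≠ 0 := by
  by_contra hcon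
  have h0 : F = 0 := by
    apply MvPolynomial.funext
    intro v
    by_contra h
    exact hcon ⟨v, by simpa using h⟩
  have h1 : (fun _ => 1 : Fin 3 → ℂ) ≠ 0 := by
    intro h
    exact one_ne_zero (congrFun h 0)
  obtain ⟨i, hi⟩ := hN _ h1 (by rw [h0, map_zero])
  apply hi
  rw [h0, map_zero, map_zero]

/-- The main theorem for curves with a rotation symmetry. -/
theorem rot_main (hNF : S_NF) (hNS0 : S_NS0) (hNSI : S_NSI) (hRPC : S_RPC)
    (hDP : S_DP) (hENT : S_DP → S_ENT) (hMIN : S_MIN) (hCROSS : S_CROSS)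
    (hCNT : S_CNT) (k m : ℕ) (F' : MvPolynomial (Fin 3) ℝ) (hk : 3 ≤ k)
    (hF' : F'.IsHomogeneous (2 * k)) (hN' : Nonsing F') (hm : Odd m) (hkm : k < m)
    (hinv : ∀ v, MvPolynomial.eval (rot m v) F' = MvPolynomial.eval v F') :
    (m ≤ 2 * k → (comps (realPart F')).encard ≤ (m * k : ℕ)) ∧
    (m = 2 * k - 1 →
      (comps (realPart F')).encard ≤ ((2 * k - 1) * ((k + 1) / 2) + (k + 1) % 2 : ℕ)) ∧
    (2 * k < m → (comps (realPart F')).encard ≤ k) ∧
    (comps (realPart F')).encard < (((2 * k - 1) * (2 * k - 2) / 2 + 1 : ℕ) : ℕ∞) := by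
  obtain ⟨g, c, hg, hc, hz, h0, hinf⟩ := hNF k m F' hF' hm hkm hinv
  have hg0 : g.eval 0 ≠ 0 := by
    rw [← h0]
    exact hNS0 (2 * k) m F' hF' (by omega) (by omega) hinv hN'
  have hgk : g.coeff k ≠ 0 := by
    obtain ⟨x, y, hxy⟩ := hNSI (2 * k) F' hF' (by omega) hN'
    intro hgk
    apply hxy
    by_cases hr : x ^ 2 + y ^ 2 = 0
    · have hx : x = 0 := by nlinarith [sq_nonneg x, sq_nonneg y]
      have hy : y = 0 := by nlinarith [sq_nonneg x, sq_nonneg y]
      have : (![x, y, 0] : Fin 3 → ℝ) = (0 : ℝ) • (fun _ => 1) := by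
        funext i
        fin_cases i <;> simp [hx, hy]
      rw [this, eval_smul_hom hF', zero_pow (by omega), zero_mul]
    · have hrp : 0 < x ^ 2 + y ^ 2 := lt_of_le_of_ne (by positivity) (Ne.symm hr)
      have hs : 0 < √(x ^ 2 + y ^ 2) := Real.sqrt_pos.2 hrp
      have h1 : (![x, y, 0] : Fin 3 → ℝ) = √(x ^ 2 + y ^ 2) •
          ![x / √(x ^ 2 + y ^ 2), y / √(x ^ 2 + y ^ 2), 0] := by
        funext i
        fin_cases i
        · simp; field_simp
        · simp; field_simp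
        · simp
      rw [h1, eval_smul_hom hF', hinf, hgk, mul_zero]
      rw [div_pow, div_pow, Real.sq_sqrt hrp.le]
      field_simp
  have hok : Ok g c m k := ⟨by omega, hg, hgk, hg0, hc⟩
  have hset : {z : ℂ | MvPolynomial.eval ![z.re, z.im, 1] F' = 0} = Zs g c m := by
    ext z
    change MvPolynomial.eval ![z.re, z.im, 1] F' = 0 ↔ g.eval (‖z‖ ^ 2) +
      (c.eval ((‖z‖ ^ 2 : ℝ) : ℂ) * z ^ m).re = 0
    rw [hz]
  have key : ∀ N : ℕ, Cov (Zs g c m) N → (comps (realPart F')).encard ≤ N := by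
    intro N hN
    refine hRPC (2 * k) N F' hF' ?_ ?_
    · intro x y hxy
      rw [hinf x y hxy]; exact hgk
    · rw [hset]; exact hN
  have hc0 : c = 0 → (comps (realPart F')).encard ≤ k := by
    intro hc0
    apply key
    rw [hc0, zs_zero]
    have := core1 hDP hENT hMIN k g 0 1 ⟨le_refl _, hg, hgk, hg0, Or.inl rfl⟩
    rwa [one_mul] at this
  have h1 : (comps (realPart F')).encard ≤ (m * k : ℕ) := key _ (core1 hDP hENT hMIN k g c m hok)
  have h2 : m = 2 * k - 1 →
      (comps (realPart F')).encard ≤ ((2 * k - 1) * ((k + 1) / 2) + (k + 1) % 2 : ℕ) := by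
    intro hmk
    have hle : k ≤ (2 * k - 1) * ((k + 1) / 2) + (k + 1) % 2 := by
      have : 2 * k - 1 ≤ (2 * k - 1) * ((k + 1) / 2) := Nat.le_mul_of_pos_right _ (by omega)
      omega
    by_cases hcz : c = 0
    · exact (hc0 hcz).trans (by exact_mod_cast hle)
    · have hdc : c.natDegree = 0 := by
        rcases hc with hc | hc
        · exact absurd hc hcz
        · omega
      obtain ⟨c₀, hc₀⟩ : ∃ c₀, c = C c₀ := ⟨c.coeff 0, Polynomial.eq_C_of_natDegree_eq_zero hdc⟩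
      have hc₀0 : c₀ ≠ 0 := by
        intro h
        rw [h, C_0] at hc₀
        exact hcz hc₀
      apply key
      rw [hc₀] at hok ⊢
      rw [hmk] at hok ⊢
      exact core2 hDP hMIN hCROSS hCNT (by omega) hc₀0 hok
  have h3 : 2 * k < m → (comps (realPart F')).encard ≤ k := by
    intro hmk
    apply hc0
    rcases hc with hc | hc
    · exact hc
    · omega
  refine ⟨fun _ => h1, h2, h3, ?_⟩
  have hM : (2 * k - 1) * (2 * k - 2) / 2 + 1 = (2 * k - 1) * (k - 1) + 1 := by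
    obtain ⟨i, rfl⟩ : ∃ i, k = i + 1 := ⟨k - 1, by omega⟩
    have e1 : 2 * (i + 1) - 1 = 2 * i + 1 := by omega
    have e2 : 2 * (i + 1) - 2 = 2 * i := by omega
    have e3 : i + 1 - 1 = i := by omega
    rw [e1, e2, e3]
    have : (2 * i + 1) * (2 * i) = 2 * ((2 * i + 1) * i) := by ring
    rw [this, Nat.mul_div_cancel_left _ (by norm_num)]
  rw [hM]
  by_cases hA : m ≤ 2 * k - 3
  · refine lt_of_le_of_lt h1 ?_
    rw [Nat.cast_lt]
    obtain ⟨i, rfl⟩ : ∃ i, k = i + 3 := ⟨k - 3, by omega⟩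
    have h4 : m * (i + 3) ≤ (2 * i + 3) * (i + 3) := Nat.mul_le_mul_right _ (by omega)
    have e1 : 2 * (i + 3) - 1 = 2 * i + 5 := by omega
    have e2 : i + 3 - 1 = i + 2 := by omega
    rw [e1, e2]
    have : (2 * i + 3) * (i + 3) + 1 ≤ (2 * i + 5) * (i + 2) := by ring_nf; omega
    omega
  · by_cases hB : 2 * k < m
    · refine lt_of_le_of_lt (h3 hB) ?_
      rw [Nat.cast_lt]
      obtain ⟨i, rfl⟩ : ∃ i, k = i + 3 := ⟨k - 3, by omega⟩
      have e1 : 2 * (i + 3) - 1 = 2 * i + 5 := by omega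
      have e2 : i + 3 - 1 = i + 2 := by omega
      rw [e1, e2]
      nlinarith
    · have hC : m = 2 * k - 1 := by
        obtain ⟨l, hl⟩ := hm
        omega
      refine lt_of_le_of_lt (h2 hC) ?_
      rw [Nat.cast_lt]
      obtain ⟨i, rfl⟩ : ∃ i, k = i + 3 := ⟨k - 3, by omega⟩
      have e1 : 2 * (i + 3) - 1 = 2 * i + 5 := by omega
      have e2 : i + 3 - 1 = i + 2 := by omega
      rw [e1, e2]
      have e3 : (i + 3 + 1) / 2 ≤ i + 2 := by omega
      rcases Nat.eq_zero_or_pos i with rfl | hi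
      · norm_num
      · have e4 : (i + 3 + 1) / 2 ≤ i + 1 := by omega
        have e5 : (2 * i + 5) * ((i + 3 + 1) / 2) ≤ (2 * i + 5) * (i + 1) :=
          Nat.mul_le_mul_left _ e4
        have e6 : (2 * i + 5) * (i + 2) = (2 * i + 5) * (i + 1) + (2 * i + 5) := by ring
        omega

theorem main (hNF : S_NF) (hNS0 : S_NS0) (hNSI : S_NSI) (hRPC : S_RPC) (hLIN : S_LIN)
    (hTRA : S_TRA) (hDP : S_DP) (hENT : S_DP → S_ENT) (hMIN : S_MIN) (hCROSS : S_CROSS)
    (hCNT : S_CNT) : S_MAIN := by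
  intro k m F σ a hk hF hN hσ ha hm hkm hσm hσj
  obtain ⟨T, j, μ, hμ, hT⟩ := hLIN m σ hm (by omega) hσ hσm hσj
  obtain ⟨F', hF', hN', hev, hcomp⟩ := hTRA (2 * k) F T hF hN
  have hj : ∀ (i : ℕ) v, MvPolynomial.eval ((σ ^ i) v) F = a ^ i * MvPolynomial.eval v F := by
    intro i
    induction i with
    | zero => intro v; simp
    | succ i ih =>
      intro v
      rw [pow_succ', Module.End.mul_apply, ha, ih]; ring
  have hb : ∀ v, MvPolynomial.eval (rot m v) F' =
      (a ^ j / μ ^ (2 * k)) * MvPolynomial.eval v F' := by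
    intro v
    have h1 := hj j (T v)
    rw [hT, eval_smul_hom hF, ← hev, ← hev] at h1
    rw [div_mul_eq_mul_div, eq_div_iff (pow_ne_zero _ hμ), mul_comm]
    exact h1
  obtain ⟨v₀, hv₀⟩ := not_zero hN'
  have hb1 := factor_one hm hb hv₀
  have hinv : ∀ v, MvPolynomial.eval (rot m v) F' = MvPolynomial.eval v F' := by
    intro v
    rw [hb, hb1, one_mul]
  obtain ⟨h1, h2, h3, h4⟩ := rot_main hNF hNS0 hNSI hRPC hDP hENT hMIN hCROSS hCNT k m F' hk hF'
    hN' hm hkm hinv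
  exact ⟨fun h => hcomp.trans (h1 h), fun h => hcomp.trans (h2 h), fun h => hcomp.trans (h3 h),
    lt_of_le_of_lt hcomp h4⟩

end As

end Pool.Agent.H23S
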