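import Pool.Agent.H23S.Stm

/-! Piece CNT of project SM. -/

set_option autoImplicit false

open Polynomial

namespace Pool.Agent.H23S

namespace CntP

/-- The first time. -/
theorem first {f : ℝ → ℝ} {a b v : ℝ} (hab : a ≤ b) (hf : ContinuousOn f (Set.Icc a b))
    (ha : f a < v) (hb : v ≤ f b) :
    ∃ r, a < r ∧ r ≤ b ∧ f r = v ∧ ∀ R, a ≤ R → R < r → f R < v := by
  set S : Set ℝ := Set.Icc a b ∩ f ⁻¹' (Set.Ici v) with hS
  have hcl : IsClosed S := hf.preimage_isClosed_of_isClosed isClosed_Icc isClosed_Ici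
  have hne : S.Nonempty := ⟨b, ⟨hab, le_rfl⟩, hb⟩
  have hbd : BddBelow S := ⟨a, fun x hx => hx.1.1⟩
  have hmem := hcl.csInf_mem hne hbd
  set r := sInf S with hr
  have h1 : ∀ R, a ≤ R → R < r → f R < v := by
    intro R h1 h2
    by_contra h3
    push Not at h3
    have h4 : R ∈ S := ⟨⟨h1, h2.le.trans hmem.1.2⟩, h3⟩
    exact absurd (csInf_le hbd h4) (not_le.2 h2)
  have har : a < r := by
    rcases eq_or_lt_of_le hmem.1.1 with h | h
    · exfalso
      have := hmem.2
      rw [← h] at this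
      exact absurd this (not_le.2 ha)
    · exact h
  refine ⟨r, har, hmem.1.2, ?_, h1⟩
  refine le_antisymm ?_ hmem.2
  by_contra h2
  push Not at h2
  have h3 : ContinuousOn f (Set.Icc a r) := hf.mono (Set.Icc_subset_Icc le_rfl hmem.1.2)
  obtain ⟨R, h4, h5⟩ := intermediate_value_Ioo har.le h3 ⟨ha, h2⟩
  exact absurd h5 (h1 R h4.1.le h4.2).ne

/-- Counting sign changes. -/
theorem alt {L : ℝ[X]} (hL : L ≠ 0) (t : ℕ → ℝ) (N : ℕ) (ht : ∀ j < N, t j < t (j + 1)) :
    ((Finset.range N).filter (fun j => L.eval (t j) * L.eval (t (j + 1)) < 0)).card ≤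
      L.natDegree := by
  classical
  have hmono : ∀ j, ∀ i, i ≤ j → j ≤ N → t i ≤ t j := by
    intro j
    induction j with
    | zero => intro i hi _; rw [Nat.le_zero.1 hi]
    | succ j ih =>
      intro i hi hj
      rcases Nat.le_succ_iff.1 hi with h | h
      · exact (ih i h (by omega)).trans (ht j (by omega)).le
      · rw [h]
  have hroot : ∀ j ∈ (Finset.range N).filter (fun j => L.eval (t j) * L.eval (t (j + 1)) < 0),
      ∃ r, t j < r ∧ r < t (j + 1) ∧ L.eval r = 0 := by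
    intro j hj
    rw [Finset.mem_filter, Finset.mem_range] at hj
    have hc : ContinuousOn (fun x => L.eval x) (Set.Icc (t j) (t (j + 1))) :=
      L.continuous.continuousOn
    rcases mul_neg_iff.1 hj.2 with ⟨h1, h2⟩ | ⟨h1, h2⟩
    · obtain ⟨r, h3, h4⟩ := intermediate_value_Ioo' (ht j hj.1).le hc ⟨h2, h1⟩
      exact ⟨r, h3.1, h3.2, h4⟩
    · obtain ⟨r, h3, h4⟩ := intermediate_value_Ioo (ht j hj.1).le hc ⟨h1, h2⟩
      exact ⟨r, h3.1, h3.2, h4⟩
  choose! r h1 h2 h3 using hroot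
  refine le_trans (Finset.card_le_card_of_injOn (t := L.roots.toFinset) r ?_ ?_)
    (le_trans (Multiset.toFinset_card_le _) (card_roots' L))
  · intro j hj
    rw [Finset.mem_coe, Multiset.mem_toFinset, mem_roots hL]
    exact h3 j hj
  · have key : ∀ i ∈ (Finset.range N).filter (fun j => L.eval (t j) * L.eval (t (j + 1)) < 0),
        ∀ j ∈ (Finset.range N).filter (fun j => L.eval (t j) * L.eval (t (j + 1)) < 0),
        i < j → r i < r j := by
      intro i hi j hj hij
      have h4 : t (i + 1) ≤ t j := by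
        refine hmono j (i + 1) hij ?_
        have := (Finset.mem_range.1 (Finset.mem_filter.1 hj).1)
        omega
      exact ((h2 i hi).trans_le h4).trans (h1 j hj)
    intro i hi j hj hij
    rcases Nat.lt_trichotomy i j with h | h | h
    · exact absurd hij (key i hi j hj h).ne
    · exact h
    · exact absurd hij.symm (key j hj i hi h).ne

/-- `g(R) / R ^ (m / 2)` -/
noncomputable def Hf (g : ℝ[X]) (m : ℕ) (R : ℝ) : ℝ := g.eval R * R ^ (-(m : ℝ) / 2)

/-- `2 R g'(R) - m g(R)` -/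
noncomputable def Lp (g : ℝ[X]) (m : ℕ) : ℝ[X] := C 2 * (X * derivative g) - C (m : ℝ) * g

theorem Lp_eval (g : ℝ[X]) (m : ℕ) (R : ℝ) :
    (Lp g m).eval R = 2 * (R * (derivative g).eval R) - m * g.eval R := by
  simp [Lp]

theorem Lp_deg {g : ℝ[X]} {m k : ℕ} (hk : 1 ≤ k) (hg : g.natDegree ≤ k) :
    (Lp g m).natDegree ≤ k := by
  have h1 : (C (2 : ℝ) * (X * derivative g)).natDegree ≤ k := by
    refine (natDegree_C_mul_le _ _).trans ?_
    refine natDegree_mul_le.trans ?_
    have := natDegree_derivative_le g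
    rw [natDegree_X]
    omega
  have h2 : (C (m : ℝ) * g).natDegree ≤ k := (natDegree_C_mul_le _ _).trans hg
  exact (natDegree_sub_le _ _).trans (max_le h1 h2)

theorem Lp_ne {g : ℝ[X]} {m : ℕ} (hm : 1 ≤ m) (h0 : g.eval 0 ≠ 0) : Lp g m ≠ 0 := by
  intro h
  have h1 : (Lp g m).eval 0 = 0 := by rw [h, eval_zero]
  rw [Lp_eval] at h1
  have h2 : (m : ℝ) ≠ 0 := by exact_mod_cast (by omega : m ≠ 0)
  have h3 : (m : ℝ) * g.eval 0 = 0 := by linarith
  rcases mul_eq_zero.1 h3 with h4 | h4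
  · exact h2 h4
  · exact h0 h4

theorem Hf_sq (g : ℝ[X]) (m : ℕ) {R : ℝ} (hR : 0 < R) : Hf g m R ^ 2 * R ^ m = g.eval R ^ 2 := by
  have h1 : (R ^ (-(m : ℝ) / 2)) ^ 2 * R ^ m = 1 := by
    rw [← Real.rpow_natCast (R ^ (-(m : ℝ) / 2)) 2, ← Real.rpow_mul hR.le,
      ← Real.rpow_natCast R m, ← Real.rpow_add hR]
    rw [show -(m : ℝ) / 2 * ((2 : ℕ) : ℝ) + (m : ℝ) = 0 by push_cast; ring, Real.rpow_zero]
  rw [Hf, mul_pow, mul_assoc, h1, mul_one]

theorem Hf_deriv (g : ℝ[X]) (m : ℕ) {R : ℝ} (hR : 0 < R) :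
    HasDerivAt (Hf g m) (R ^ (-(m : ℝ) / 2 - 1) / 2 * (Lp g m).eval R) R := by
  have h1 := (g.hasDerivAt R).mul (Real.hasDerivAt_rpow_const (x := R) (p := -(m : ℝ) / 2)
    (Or.inl hR.ne'))
  have h2 : R ^ (-(m : ℝ) / 2) = R ^ (-(m : ℝ) / 2 - 1) * R := by
    rw [Real.rpow_sub_one hR.ne', div_mul_cancel₀ _ hR.ne']
  have h3 : R ^ (-(m : ℝ) / 2 - 1) / 2 * (Lp g m).eval R = (derivative g).eval R *
      R ^ (-(m : ℝ) / 2) + g.eval R * (-(m : ℝ) / 2 * R ^ (-(m : ℝ) / 2 - 1)) := by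
    rw [Lp_eval, h2]
    ring
  rw [h3]
  exact h1

theorem Hf_cont (g : ℝ[X]) (m : ℕ) {a b : ℝ} (ha : 0 < a) : ContinuousOn (Hf g m) (Set.Icc a b) :=
  fun x hx => (Hf_deriv g m (ha.trans_le hx.1)).continuousAt.continuousWithinAt

/-- The mean value theorem. -/
theorem mv (g : ℝ[X]) (m : ℕ) {a b : ℝ} (ha : 0 < a) (hab : a < b) :
    ∃ y w : ℝ, a < y ∧ y < b ∧ 0 < w ∧ Hf g m b - Hf g m a = w * (Lp g m).eval y := by
  obtain ⟨y, hy, h⟩ := exists_hasDerivAt_eq_slope (Hf g m) _ hab (Hf_cont g m ha)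
    (fun _ hx => Hf_deriv g m (ha.trans hx.1))
  have h1 : 0 < b - a := by linarith
  have h2 : 0 < y ^ (-(m : ℝ) / 2 - 1) := Real.rpow_pos_of_pos (ha.trans hy.1) _
  refine ⟨y, (b - a) * (y ^ (-(m : ℝ) / 2 - 1) / 2), hy.1, hy.2, by positivity, ?_⟩
  rw [mul_assoc, h, mul_div_cancel₀ _ h1.ne']

section

variable {g : ℝ[X]} {c : ℂ} {m : ℕ}

theorem Dv_eq {R : ℝ} (hR : 0 < R) :
    Dv g (C c) m R = R ^ m * (Hf g m R ^ 2 - ‖c‖ ^ 2) := by
  rw [Dv, ← Hf_sq g m hR, eval_C]
  ring

theorem Dv_pos {R : ℝ} (hR : 0 < R) : 0 < Dv g (C c) m R ↔ ‖c‖ < |Hf g m R| := by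
  rw [Dv_eq hR, mul_pos_iff_of_pos_left (pow_pos hR m), sub_pos, ← sq_abs (Hf g m R)]
  exact pow_lt_pow_iff_left₀ (norm_nonneg c) (abs_nonneg _) two_ne_zero

theorem Dv_zero {R : ℝ} (hR : 0 < R) : Dv g (C c) m R = 0 ↔ |Hf g m R| = ‖c‖ := by
  rw [Dv_eq hR, mul_eq_zero, or_iff_right (pow_pos hR m).ne', sub_eq_zero, ← sq_abs (Hf g m R)]
  exact pow_left_inj₀ (abs_nonneg _) (norm_nonneg c) two_ne_zero

/-- Near to an entry radius on the left `D` is positive. -/
theorem left_pos {D : ℝ[X]} (hD : ∀ R : ℝ, D.eval R = Dv g (C c) m R) (hD0 : D ≠ 0) {ρ a : ℝ}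
    (hρ : ρ ∈ Ent g (C c) m) (ha : a < ρ) :
    ∃ x, a < x ∧ x < ρ ∧ ∀ R, x ≤ R → R < ρ → 0 < Dv g (C c) m R := by
  classical
  -- a point to the right of `a` and of all roots on the left of `ρ`
  obtain ⟨x, hx1, hx2, hx3⟩ : ∃ x, a < x ∧ x < ρ ∧ ∀ R, x ≤ R → R < ρ → D.eval R ≠ 0 := by
    let S : Finset ℝ := insert a (D.roots.toFinset.filter (· < ρ))
    have hne : S.Nonempty := ⟨a, Finset.mem_insert_self _ _⟩
    have hlt : S.max' hne < ρ := by
      rw [Finset.max'_lt_iff]
      intro y hy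
      rcases Finset.mem_insert.1 hy with h | h
      · rw [h]; exact ha
      · exact (Finset.mem_filter.1 h).2
    refine ⟨(S.max' hne + ρ) / 2, ?_, by linarith, ?_⟩
    · have := S.le_max' a (Finset.mem_insert_self _ _)
      linarith
    · intro R h1 h2 h3
      have h4 : R ∈ S := Finset.mem_insert_of_mem (Finset.mem_filter.2
        ⟨Multiset.mem_toFinset.2 ((mem_roots hD0).2 h3), h2⟩)
      have := S.le_max' R h4
      linarith
  refine ⟨x, hx1, hx2, fun R h1 h2 => ?_⟩
  obtain ⟨R', h3, h4, h5⟩ := hρ.2.2 (ρ - x) (by linarith)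
  rw [← hD] at h5 ⊢
  by_contra h6
  push Not at h6
  have h7 : D.eval R < 0 := lt_of_le_of_ne h6 (hx3 R h1 h2)
  have hc : ∀ s : Set ℝ, ContinuousOn (fun x => D.eval x) s := fun s => D.continuous.continuousOn
  rcases le_total R R' with h | h
  · obtain ⟨y, hy, hy2⟩ := intermediate_value_Icc h (hc _) ⟨h7.le, h5.le⟩
    exact hx3 y (h1.trans hy.1) (lt_of_le_of_lt hy.2 h4) hy2
  · obtain ⟨y, hy, hy2⟩ := intermediate_value_Icc' h (hc _) ⟨h7.le, h5.le⟩
    exact hx3 y (by linarith [hy.1]) (lt_of_le_of_lt hy.2 h2) hy2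

/-- No sign change of `g` where `D ≥ 0`. -/
theorem same_sign (hc : c ≠ 0) {x ρ : ℝ} (hx : 0 < x) (hxρ : x ≤ ρ)
    (h : ∀ R, x ≤ R → R ≤ ρ → 0 ≤ Dv g (C c) m R) : 0 < Hf g m x * Hf g m ρ := by
  have hκ : 0 < ‖c‖ := norm_pos_iff.2 hc
  have hne : ∀ R, x ≤ R → R ≤ ρ → Hf g m R ≠ 0 := by
    intro R h1 h2 h3
    have h4 := h R h1 h2
    rw [Dv_eq (hx.trans_le h1), h3] at h4
    have h5 : 0 < R ^ m := pow_pos (hx.trans_le h1) m
    have h6 : 0 < ‖c‖ ^ 2 := by positivity
    nlinarith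
  by_contra h1
  push Not at h1
  have h2 : Hf g m x * Hf g m ρ < 0 :=
    lt_of_le_of_ne h1 (mul_ne_zero (hne x le_rfl hxρ) (hne ρ hxρ le_rfl))
  rcases mul_neg_iff.1 h2 with ⟨h3, h4⟩ | ⟨h3, h4⟩
  · obtain ⟨y, hy, hy2⟩ := intermediate_value_Icc' hxρ (Hf_cont g m hx) ⟨h4.le, h3.le⟩
    exact hne y hy.1 hy.2 hy2
  · obtain ⟨y, hy, hy2⟩ := intermediate_value_Icc hxρ (Hf_cont g m hx) ⟨h3.le, h4.le⟩
    exact hne y hy.1 hy.2 hy2

/-- A change of the sign gives a crossing. -/
theorem crossing (hc : c ≠ 0) {D : ℝ[X]} (hD : ∀ R : ℝ, D.eval R = Dv g (C c) m R) {ρ x σ : ℝ}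
    (hρ : ρ ∈ Ent g (C c) m) (hρx : ρ < x) (hσ : σ = 1 ∨ σ = -1)
    (hgap : ∀ r ∈ Ent g (C c) m, ρ < r → x < r) (h1 : σ * Hf g m ρ = -‖c‖)
    (h2 : ‖c‖ < σ * Hf g m x) : Crs g (C c) m ρ := by
  have hκ : 0 < ‖c‖ := norm_pos_iff.2 hc
  have hρ0 : 0 < ρ := hρ.1
  have hcont : ContinuousOn (fun R => σ * Hf g m R) (Set.Icc ρ x) :=
    continuousOn_const.mul (Hf_cont g m hρ0)
  obtain ⟨r, hr1, hr2, hr3, hr4⟩ := first (f := fun R => σ * Hf g m R) (v := ‖c‖) hρx.le hcont
    (by rw [h1]; linarith) h2.le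
  have hrx : r < x := by
    rcases eq_or_lt_of_le hr2 with h | h
    · rw [h] at hr3; linarith
    · exact h
  have habs : ∀ R, |σ * Hf g m R| = |Hf g m R| := by
    intro R
    rcases hσ with h | h <;> rw [h] <;> simp
  have hDr : Dv g (C c) m r = 0 := by
    rw [Dv_zero (hρ0.trans hr1), ← habs, hr3, abs_of_pos hκ]
  refine ⟨r, hr1, hDr, ?_, ?_⟩
  · intro R hR1 hR2
    by_contra hcon
    push Not at hcon
    have hRr : R < r := by
      rcases eq_or_lt_of_le hR2 with h | h
      · rw [h, hDr] at hcon; exact absurd hcon (lt_irrefl _)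
      · exact h
    -- the first zero of `D` after `R` is an entry radius
    have hc2 : ContinuousOn (fun y => -(D.eval y)) (Set.Icc R r) :=
      (D.continuous.neg).continuousOn
    obtain ⟨r3, h3, h4, h5, h6⟩ := first (f := fun y => -(D.eval y)) (v := 0) hRr.le hc2
      (by rw [hD]; linarith) (by rw [hD, hDr]; simp)
    have h7 : r3 ∈ Ent g (C c) m := by
      refine ⟨by linarith, by rw [← hD]; linarith, fun δ hδ => ?_⟩
      refine ⟨max R (r3 - δ / 2), ?_, ?_, ?_⟩
      · exact lt_of_lt_of_le (by linarith) (le_max_right _ _)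
      · exact max_lt h3 (by linarith)
      · have := h6 (max R (r3 - δ / 2)) (le_max_left _ _) (max_lt h3 (by linarith))
        rw [← hD]
        linarith
    have := hgap r3 h7 (by linarith)
    linarith
  · -- signs
    have hg : ∀ R, 0 < R → ∃ w : ℝ, 0 < w ∧ g.eval R = w * Hf g m R := by
      intro R hR
      refine ⟨(R ^ (-(m : ℝ) / 2))⁻¹, inv_pos.2 (Real.rpow_pos_of_pos hR _), ?_⟩
      rw [Hf, mul_comm, mul_assoc, mul_inv_cancel₀ (Real.rpow_pos_of_pos hR _).ne', mul_one]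
    obtain ⟨w1, hw1, e1⟩ := hg ρ hρ0
    obtain ⟨w2, hw2, e2⟩ := hg r (hρ0.trans hr1)
    have hσ2 : σ * σ = 1 := by rcases hσ with h | h <;> rw [h] <;> norm_num
    have e3 : g.eval ρ * g.eval r = w1 * w2 * ((σ * Hf g m ρ) * (σ * Hf g m r)) := by
      rw [e1, e2]
      calc _ = w1 * w2 * (1 * (Hf g m ρ * Hf g m r)) := by ring
        _ = _ := by rw [← hσ2]; ring
    rw [e3, h1, hr3]
    have : 0 < w1 * w2 * (‖c‖ * ‖c‖) := by positivity
    linarith

end

end CntP

open CntP

theorem t_CNT (hDP : S_DP) (hENT : S_ENT) : S_CNT := by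
  classical
  intro g c k hc hOk
  have hfin := (hENT g (C c) (2 * k - 1) k hOk).1
  refine ⟨hfin, ?_⟩
  obtain ⟨D, hD, hdeg, hlead, -⟩ := hDP g (C c) (2 * k - 1) k hOk
  obtain ⟨hm, hgk, hgc, hg0, -⟩ := hOk
  have hk : 1 ≤ k := by omega
  set m := 2 * k - 1 with hmdef
  have hD0 : D ≠ 0 := by
    rintro rfl
    simp at hlead
  have hκ : 0 < ‖c‖ := norm_pos_iff.2 hc
  -- enumeration of the entry radii
  set E : Finset ℝ := hfin.toFinset with hE
  have hEm : ∀ r, r ∈ E ↔ r ∈ Ent g (C c) m := fun r => by simp [hE]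
  have hcard : (Ent g (C c) m).ncard = E.card := Set.ncard_eq_toFinset_card _ hfin
  set e := E.card with he
  let emb := E.orderEmbOfFin rfl
  let ρ : ℕ → ℝ := fun i => if h : i < e then emb ⟨i, h⟩ else 0
  have hρ : ∀ i, (h : i < e) → ρ i = emb ⟨i, h⟩ := fun i h => dif_pos h
  have hρE : ∀ i < e, ρ i ∈ Ent g (C c) m := by
    intro i hi
    rw [hρ i hi, ← hEm]
    exact E.orderEmbOfFin_mem rfl _
  have hρm : ∀ i j, i < j → j < e → ρ i < ρ j := by
    intro i j hij hj
    rw [hρ i (by omega), hρ j hj]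
    exact emb.strictMono (by exact hij)
  have hρs : ∀ r ∈ Ent g (C c) m, ∃ i < e, ρ i = r := by
    intro r hr
    have h1 : r ∈ Set.range emb := by
      rw [E.range_orderEmbOfFin rfl]
      exact (hEm r).2 hr
    obtain ⟨i, rfl⟩ := h1
    exact ⟨i, i.2, hρ i i.2⟩
  have hρ0 : ∀ i < e, 0 < ρ i := fun i hi => (hρE i hi).1
  -- the case of no entry radii
  rcases Nat.eq_zero_or_pos e with he0 | hepos
  · have h1 : Ent g (C c) m = ∅ := by
      rw [← Set.ncard_eq_zero hfin, hcard, he0]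
    rw [h1]
    simp
  -- the point after the last entry radius
  obtain ⟨xe, hxe1, hxe2⟩ : ∃ xe, ρ (e - 1) < xe ∧ 0 < Dv g (C c) m xe := by
    have h1 : Filter.Tendsto (fun x => D.eval x) Filter.atTop Filter.atTop := by
      refine tendsto_atTop_of_leadingCoeff_nonneg D ?_ ?_
      · rw [← natDegree_pos_iff_degree_pos, hdeg]
        omega
      · rw [leadingCoeff, hdeg]
        exact hlead.le
    obtain ⟨x, hx1, hx2⟩ := ((h1.eventually_gt_atTop 0).and
      (Filter.eventually_gt_atTop (ρ (e - 1)))).exists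
    exact ⟨x, hx2, by rw [← hD]; exact hx1⟩
  -- the points `x i`
  have hex : ∀ i, ∃ x, (i < e → (if i = 0 then 0 else ρ (i - 1)) < x ∧ x < ρ i ∧
      ∀ R, x ≤ R → R < ρ i → 0 < Dv g (C c) m R) ∧ (e ≤ i → x = xe) := by
    intro i
    by_cases hi : i < e
    · have ha : (if i = 0 then 0 else ρ (i - 1)) < ρ i := by
        split_ifs with h0
        · exact hρ0 i hi
        · exact hρm (i - 1) i (by omega) hi
      obtain ⟨x, h1, h2, h3⟩ := left_pos hD hD0 (hρE i hi) ha
      exact ⟨x, fun _ => ⟨h1, h2, h3⟩, fun h => absurd h (by omega)⟩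
    · exact ⟨xe, fun h => absurd h hi, fun _ => rfl⟩
  choose x hx hxe using hex
  have hx0 : ∀ i ≤ e, 0 < x i := by
    intro i hi
    rcases eq_or_lt_of_le hi with h | h
    · rw [hxe i (by omega)]
      exact (hρ0 (e - 1) (by omega)).trans hxe1
    · have h1 := (hx i h).1
      split_ifs at h1 with h0
      · exact h1
      · exact (hρ0 (i - 1) (by omega)).trans h1
  have hxD : ∀ i ≤ e, 0 < Dv g (C c) m (x i) := by
    intro i hi
    rcases eq_or_lt_of_le hi with h | h
    · rw [hxe i (by omega)]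
      exact hxe2
    · exact (hx i h).2.2 (x i) le_rfl (hx i h).2.1
  have hxH : ∀ i ≤ e, ‖c‖ < |Hf g m (x i)| := fun i hi => (Dv_pos (hx0 i hi)).1 (hxD i hi)
  have hρx : ∀ i < e, ρ i < x (i + 1) := by
    intro i hi
    rcases Nat.lt_or_ge (i + 1) e with h | h
    · have h1 := (hx (i + 1) h).1
      rw [if_neg (by omega), Nat.add_sub_cancel] at h1
      exact h1
    · rw [hxe (i + 1) h]
      have : i = e - 1 := by omega
      rw [this]
      exact hxe1
  have hρH : ∀ i < e, |Hf g m (ρ i)| = ‖c‖ := fun i hi =>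
    (Dv_zero (hρ0 i hi)).1 (hρE i hi).2.1
  have hgap : ∀ i < e, ∀ r ∈ Ent g (C c) m, ρ i < r → x (i + 1) < r := by
    intro i hi r hr hir
    obtain ⟨j, hj, rfl⟩ := hρs r hr
    have hij : i < j := by
      by_contra hcon
      push Not at hcon
      rcases eq_or_lt_of_le hcon with h | h
      · rw [h] at hir; exact absurd hir (lt_irrefl _)
      · exact absurd (hρm j i h hi) (not_lt.2 hir.le)
    have h1 : x (i + 1) < ρ (i + 1) := (hx (i + 1) (by omega)).2.1
    rcases eq_or_lt_of_le (Nat.succ_le_of_lt hij) with h | h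
    · have h2 : i + 1 = j := h
      rw [← h2]; exact h1
    · exact h1.trans (hρm (i + 1) j h hj)
  -- signs
  let s : ℕ → ℝ := fun i => if 0 < Hf g m (x i) then 1 else -1
  have hs1 : ∀ i, s i = 1 ∨ s i = -1 := by
    intro i
    simp only [s]
    split_ifs
    · exact Or.inl rfl
    · exact Or.inr rfl
  have hsx : ∀ i, s i * Hf g m (x i) = |Hf g m (x i)| := by
    intro i
    simp only [s]
    split_ifs with h
    · rw [abs_of_pos h, one_mul]
    · rw [abs_of_nonpos (not_lt.1 h)]; ring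
  have hsρ : ∀ i < e, s i * Hf g m (ρ i) = ‖c‖ := by
    intro i hi
    have h1 : 0 < Hf g m (x i) * Hf g m (ρ i) := by
      refine same_sign hc (hx0 i hi.le) (hx i hi).2.1.le fun R h1 h2 => ?_
      rcases eq_or_lt_of_le h2 with h | h
      · rw [h]; exact (hρE i hi).2.1.ge
      · exact ((hx i hi).2.2 R h1 h).le
    rw [← hρH i hi]
    simp only [s]
    split_ifs with h
    · rw [abs_of_pos (pos_of_mul_pos_right h1 h.le |> fun h2 => by
        rcases mul_pos_iff.1 h1 with h3 | h3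
        · exact h3.2
        · exact absurd h3.1 (not_lt.2 h.le)), one_mul]
    · have h2 : Hf g m (ρ i) < 0 := by
        rcases mul_pos_iff.1 h1 with h3 | h3
        · exact absurd h3.1 h
        · exact h3.2
      rw [abs_of_neg h2]; ring
  -- the points of the mean value theorem
  have hξ : ∀ i, ∃ y, i < e → x i < y ∧ y < ρ i ∧ s i * (Lp g m).eval y < 0 := by
    intro i
    by_cases hi : i < e
    · obtain ⟨y, w, h1, h2, h3, h4⟩ := mv g m (hx0 i hi.le) (hx i hi).2.1
      refine ⟨y, fun _ => ⟨h1, h2, ?_⟩⟩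
      have h5 : s i * (Hf g m (ρ i) - Hf g m (x i)) < 0 := by
        rw [mul_sub, hsρ i hi, hsx]
        linarith [hxH i hi.le]
      rw [h4] at h5
      have h6 : s i * (w * (Lp g m).eval y) = w * (s i * (Lp g m).eval y) := by ring
      rw [h6] at h5
      by_contra h7
      push Not at h7
      exact absurd h5 (not_lt.2 (mul_nonneg h3.le h7))
    · exact ⟨0, fun h => absurd h hi⟩
  choose ξ hξ using hξ
  have hη : ∀ i, ∃ y, i < e → ρ i < y ∧ y < x (i + 1) ∧ 0 < s (i + 1) * (Lp g m).eval y := by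
    intro i
    by_cases hi : i < e
    · obtain ⟨y, w, h1, h2, h3, h4⟩ := mv g m (hρ0 i hi) (hρx i hi)
      refine ⟨y, fun _ => ⟨h1, h2, ?_⟩⟩
      have h5 : 0 < s (i + 1) * (Hf g m (x (i + 1)) - Hf g m (ρ i)) := by
        have h6 : s (i + 1) * Hf g m (ρ i) ≤ ‖c‖ := by
          rw [← hρH i hi]
          rcases hs1 (i + 1) with h | h <;> rw [h]
          · rw [one_mul]; exact le_abs_self _
          · rw [neg_one_mul]; exact neg_le_abs _
        rw [mul_sub, hsx]
        linarith [hxH (i + 1) (by omega)]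
      rw [h4] at h5
      have h6 : s (i + 1) * (w * (Lp g m).eval y) = w * (s (i + 1) * (Lp g m).eval y) := by ring
      rw [h6] at h5
      exact (mul_pos_iff_of_pos_left h3).1 h5
    · exact ⟨0, fun h => absurd h hi⟩
  choose η hη using hη
  -- the sequence of the points
  let t : ℕ → ℝ := fun j => if j % 2 = 0 then ξ (j / 2) else η (j / 2)
  have t0 : ∀ i, t (2 * i) = ξ i := by
    intro i
    simp only [t]
    rw [if_pos (by omega)]
    congr 1
    omega
  have t1 : ∀ i, t (2 * i + 1) = η i := by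
    intro i
    simp only [t]
    rw [if_neg (by omega)]
    congr 1
    omega
  have ht : ∀ j < 2 * e - 1, t j < t (j + 1) := by
    intro j hj
    rcases Nat.even_or_odd' j with ⟨i, h | h⟩
    · rw [h, t0, t1]
      exact (hξ i (by omega)).2.1.trans (hη i (by omega)).1
    · rw [h, t1, show 2 * i + 1 + 1 = 2 * (i + 1) by ring, t0]
      exact (hη i (by omega)).2.1.trans (hξ (i + 1) (by omega)).1
  have hcount := (alt (Lp_ne (m := m) hm hg0) t (2 * e - 1) ht).trans (Lp_deg hk hgk)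
  have hsq : ∀ i, s i * s i = 1 := by
    intro i
    rcases hs1 i with h | h <;> rw [h] <;> norm_num
  -- the lower bound
  have hlow : (e - 1) + ((Finset.range e).filter (fun i => s i = s (i + 1))).card ≤
      ((Finset.range (2 * e - 1)).filter (fun j => (Lp g m).eval (t j) *
        (Lp g m).eval (t (j + 1)) < 0)).card := by
    have h1 : ((Finset.range (e - 1)).image (fun i => 2 * i + 1)).card = e - 1 := by
      rw [Finset.card_image_of_injective _ (fun a b h => by simpa using h), Finset.card_range]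
    have h2 : (((Finset.range e).filter (fun i => s i = s (i + 1))).image (fun i => 2 * i)).card =
        ((Finset.range e).filter (fun i => s i = s (i + 1))).card :=
      Finset.card_image_of_injective _ (fun a b h => by simpa using h)
    have hdis : Disjoint ((Finset.range (e - 1)).image (fun i => 2 * i + 1))
        (((Finset.range e).filter (fun i => s i = s (i + 1))).image (fun i => 2 * i)) := by
      rw [Finset.disjoint_left]
      intro a ha hb
      obtain ⟨i, -, h3⟩ := Finset.mem_image.1 ha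
      obtain ⟨j, -, h4⟩ := Finset.mem_image.1 hb
      omega
    rw [← h1, ← h2, ← Finset.card_union_of_disjoint hdis]
    refine Finset.card_le_card ?_
    intro j hj
    rcases Finset.mem_union.1 hj with h | h
    · obtain ⟨i, hi, rfl⟩ := Finset.mem_image.1 h
      rw [Finset.mem_range] at hi
      refine Finset.mem_filter.2 ⟨Finset.mem_range.2 (by omega), ?_⟩
      rw [t1, show 2 * i + 1 + 1 = 2 * (i + 1) by ring, t0]
      have h3 := (hη i (by omega)).2.2
      have h4 := (hξ (i + 1) (by omega)).2.2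
      have h5 := mul_neg_of_pos_of_neg h3 h4
      have h6 : s (i + 1) * (Lp g m).eval (η i) * (s (i + 1) * (Lp g m).eval (ξ (i + 1))) =
          (s (i + 1) * s (i + 1)) * ((Lp g m).eval (η i) * (Lp g m).eval (ξ (i + 1))) := by ring
      rw [h6, hsq, one_mul] at h5
      exact h5
    · obtain ⟨i, hi, rfl⟩ := Finset.mem_image.1 h
      rw [Finset.mem_filter, Finset.mem_range] at hi
      refine Finset.mem_filter.2 ⟨Finset.mem_range.2 (by omega), ?_⟩
      rw [t0, t1]
      have h3 := (hη i hi.1).2.2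
      have h4 := (hξ i hi.1).2.2
      rw [← hi.2] at h3
      have h5 := mul_neg_of_neg_of_pos h4 h3
      have h6 : s i * (Lp g m).eval (ξ i) * (s i * (Lp g m).eval (η i)) =
          (s i * s i) * ((Lp g m).eval (ξ i) * (Lp g m).eval (η i)) := by ring
      rw [h6, hsq, one_mul] at h5
      exact h5
  -- entry radii without crossing
  have hnon : {r | r ∈ Ent g (C c) m ∧ ¬ Crs g (C c) m r}.ncard ≤
      ((Finset.range e).filter (fun i => s i = s (i + 1))).card := by
    have hsub : {r | r ∈ Ent g (C c) m ∧ ¬ Crs g (C c) m r} ⊆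
        (((Finset.range e).filter (fun i => s i = s (i + 1))).image ρ : Finset ℝ) := by
      rintro r ⟨hr, hn⟩
      obtain ⟨i, hi, rfl⟩ := hρs r hr
      rw [Finset.coe_image]
      refine ⟨i, ?_, rfl⟩
      rw [Finset.mem_coe, Finset.mem_filter, Finset.mem_range]
      refine ⟨hi, ?_⟩
      by_contra hne
      apply hn
      have hopp : s (i + 1) = - s i := by
        rcases hs1 i with h | h <;> rcases hs1 (i + 1) with h' | h'
        · exact absurd (h.trans h'.symm) hne
        · rw [h, h']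
        · rw [h, h']; norm_num
        · exact absurd (h.trans h'.symm) hne
      refine crossing hc hD (hρE i hi) (hρx i hi) (hs1 (i + 1)) (hgap i hi) ?_ ?_
      · rw [hopp, neg_mul, hsρ i hi]
      · rw [hsx]
        exact hxH (i + 1) (by omega)
    calc _ ≤ ((((Finset.range e).filter (fun i => s i = s (i + 1))).image ρ : Finset ℝ) :
          Set ℝ).ncard := Set.ncard_le_ncard hsub (Finset.finite_toSet _)
      _ = (((Finset.range e).filter (fun i => s i = s (i + 1))).image ρ).card :=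
          Set.ncard_coe_finset _
      _ ≤ _ := Finset.card_image_le
  rw [hcard]
  omega

end Pool.Agent.H23S
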