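import Pool.Agent.H23S.Stm

/-! Project SM (helper23), piece CROSS: at a crossing radius all the points of the curve are in the
same component. -/

set_option autoImplicit false

open Polynomial Set

namespace Pool.Agent.H23S

namespace Cross

variable {g : ℝ[X]} {c : ℂ} {m : ℕ}

theorem mem_Zs (g : ℝ[X]) (c : ℂ) (m : ℕ) (z : ℂ) :
    z ∈ Zs g (C c) m ↔ g.eval (‖z‖ ^ 2) + (c * z ^ m).re = 0 := by
  simp only [Zs, Set.mem_ofPred_eq, eval_C]

theorem Dv_eq (g : ℝ[X]) (c : ℂ) (m : ℕ) (R : ℝ) :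
    Dv g (C c) m R = g.eval R ^ 2 - R ^ m * ‖c‖ ^ 2 := by
  simp only [Dv, eval_C]

/-- the modulus of `c z ^ m` at the radius `√R` -/
noncomputable def K (c : ℂ) (m : ℕ) (R : ℝ) : ℝ := ‖c‖ * Real.sqrt R ^ m

theorem K_sq (c : ℂ) (m : ℕ) {R : ℝ} (hR : 0 ≤ R) : K c m R ^ 2 = R ^ m * ‖c‖ ^ 2 := by
  unfold K
  rw [mul_pow, ← pow_mul, mul_comm m 2, pow_mul, Real.sq_sqrt hR]
  ring

theorem K_pos (hc : c ≠ 0) (m : ℕ) {R : ℝ} (hR : 0 < R) : 0 < K c m R :=
  mul_pos (norm_pos_iff.2 hc) (pow_pos (Real.sqrt_pos.2 hR) _)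

theorem abs_g_le {R : ℝ} (hR : 0 ≤ R) (h : Dv g (C c) m R ≤ 0) : |g.eval R| ≤ K c m R := by
  rw [Dv_eq] at h
  refine abs_le_of_sq_le_sq ?_ (mul_nonneg (norm_nonneg _) (pow_nonneg (Real.sqrt_nonneg _) _))
  rw [K_sq c m hR]
  linarith

theorem abs_g_eq {R : ℝ} (hR : 0 ≤ R) (h : Dv g (C c) m R = 0) : |g.eval R| = K c m R := by
  rw [Dv_eq] at h
  have h1 : g.eval R ^ 2 = K c m R ^ 2 := by rw [K_sq c m hR]; linarith
  rw [← Real.sqrt_sq_eq_abs, h1, Real.sqrt_sq]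
  exact mul_nonneg (norm_nonneg _) (pow_nonneg (Real.sqrt_nonneg _) _)

/-- a point of the curve with `D = 0`: `c z ^ m` is real -/
theorem c_mul_pow {z : ℂ} (hz : z ∈ Zs g (C c) m) (h : Dv g (C c) m (‖z‖ ^ 2) = 0) :
    c * z ^ m = ((-g.eval (‖z‖ ^ 2) : ℝ) : ℂ) := by
  have h1 := (mem_Zs g c m z).1 hz
  have h2 : ‖c * z ^ m‖ ^ 2 = (c * z ^ m).re ^ 2 := by
    have h3 : (c * z ^ m).re = -g.eval (‖z‖ ^ 2) := by linarith
    rw [h3, neg_sq, norm_mul, norm_pow, mul_pow]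
    rw [Dv_eq] at h
    have : (‖z‖ ^ m) ^ 2 = (‖z‖ ^ 2) ^ m := by rw [← pow_mul, ← pow_mul, mul_comm]
    rw [this]
    linarith
  have h4 : (c * z ^ m).im = 0 := by
    have h5 := Complex.sq_norm (c * z ^ m)
    rw [Complex.normSq_apply, h2] at h5
    have : (c * z ^ m).im * (c * z ^ m).im = 0 := by linarith
    exact mul_self_eq_zero.1 this
  apply Complex.ext
  · rw [Complex.ofReal_re]; linarith
  · rw [Complex.ofReal_im]; exact h4

/-- a point of the curve at the radius `√R` -/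
theorem pt_mem {w u : ℂ} {ρ R ε : ℝ} (hρ : 0 < ρ) (hR : 0 ≤ R) (hw : ‖w‖ ^ 2 = ρ)
    (hcw : c * w ^ m = ((ε * K c m ρ : ℝ) : ℂ)) (hu : ‖u‖ = 1)
    (hum : ε * (K c m R * (u ^ m).re) = -g.eval R) :
    w * ((Real.sqrt R / Real.sqrt ρ : ℝ) : ℂ) * u ∈ Zs g (C c) m := by
  have hsρ : 0 < Real.sqrt ρ := Real.sqrt_pos.2 hρ
  have hn : ‖w * ((Real.sqrt R / Real.sqrt ρ : ℝ) : ℂ) * u‖ ^ 2 = R := by
    rw [norm_mul, norm_mul, hu, mul_one, mul_pow, hw, Complex.norm_real, Real.norm_eq_abs, sq_abs,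
      div_pow, Real.sq_sqrt hR, Real.sq_sqrt hρ.le]
    field_simp
  rw [mem_Zs, hn]
  have h1 : c * (w * ((Real.sqrt R / Real.sqrt ρ : ℝ) : ℂ) * u) ^ m =
      ((ε * K c m R : ℝ) : ℂ) * u ^ m := by
    have h2 : K c m R = K c m ρ * (Real.sqrt R / Real.sqrt ρ) ^ m := by
      unfold K
      rw [div_pow]
      field_simp
    rw [mul_pow, mul_pow, h2]
    have h3 : c * (w ^ m * ((Real.sqrt R / Real.sqrt ρ : ℝ) : ℂ) ^ m * u ^ m) =
        (c * w ^ m) * ((Real.sqrt R / Real.sqrt ρ : ℝ) : ℂ) ^ m * u ^ m := by ring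
    rw [h3, hcw]
    push_cast
    ring
  rw [h1, Complex.re_ofReal_mul, mul_assoc, hum]
  ring

theorem exp_pow (hm0 : (m : ℂ) ≠ 0) (t : ℝ) :
    Complex.exp (((t / m : ℝ) : ℂ) * Complex.I) ^ m = Complex.exp ((t : ℂ) * Complex.I) := by
  rw [← Complex.exp_nat_mul]
  congr 1
  push_cast
  field_simp

/-- one step: `exp(2 π i / m) w` is in the component of `w` -/
theorem step (hm : 1 ≤ m) (hc : c ≠ 0) {ρ : ℝ} (hρ : 0 < ρ) (hD : Dv g (C c) m ρ = 0)
    (hX : Crs g (C c) m ρ) {w : ℂ} (hw : w ∈ Zs g (C c) m) (hwρ : ‖w‖ ^ 2 = ρ) :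
    Complex.exp (2 * Real.pi * Complex.I / m) * w ∈ connectedComponentIn (Zs g (C c) m) w := by
  obtain ⟨ρ', hρρ', hD', hle, hsg⟩ := hX
  have hm0 : (m : ℂ) ≠ 0 := by
    have : m ≠ 0 := by omega
    exact_mod_cast this
  have hmR : (m : ℝ) ≠ 0 := by
    have : m ≠ 0 := by omega
    exact_mod_cast this
  -- the sign
  obtain ⟨ε, hε, hε1, hε2⟩ : ∃ ε : ℝ, (ε = 1 ∨ ε = -1) ∧ ε * g.eval ρ < 0 ∧ 0 < ε * g.eval ρ' := by
    rcases lt_trichotomy (g.eval ρ) 0 with h | h | h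
    · refine ⟨1, Or.inl rfl, by linarith, ?_⟩
      rw [one_mul]
      by_contra h2
      have := mul_nonneg_of_nonpos_of_nonpos h.le (not_lt.1 h2)
      linarith
    · rw [h, zero_mul] at hsg; exact absurd hsg (lt_irrefl _)
    · refine ⟨-1, Or.inr rfl, by linarith, ?_⟩
      by_contra h2
      have h3 : 0 ≤ g.eval ρ' := by linarith
      have := mul_nonneg h.le h3
      linarith
  have hεε : ε * ε = 1 := by rcases hε with rfl | rfl <;> norm_num
  have hεabs : |ε| = 1 := by rcases hε with rfl | rfl <;> norm_num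
  have hρ' : 0 < ρ' := hρ.trans hρρ'
  have hK : ∀ R ∈ Icc ρ ρ', 0 < K c m R := fun R hR => K_pos hc m (hρ.trans_le hR.1)
  have hmemρ : ρ ∈ Icc ρ ρ' := ⟨le_refl _, hρρ'.le⟩
  have hmemρ' : ρ' ∈ Icc ρ ρ' := ⟨hρρ'.le, le_refl _⟩
  have hgρ : -(ε * g.eval ρ) = K c m ρ := by
    have h1 := abs_g_eq (g := g) (c := c) (m := m) hρ.le hD
    have h2 : |ε * g.eval ρ| = K c m ρ := by rw [abs_mul, hεabs, one_mul, h1]
    rw [abs_of_neg hε1] at h2
    exact h2
  have hgρ' : ε * g.eval ρ' = K c m ρ' := by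
    have h1 := abs_g_eq (g := g) (c := c) (m := m) hρ'.le hD'
    have h2 : |ε * g.eval ρ'| = K c m ρ' := by rw [abs_mul, hεabs, one_mul, h1]
    rw [abs_of_pos hε2] at h2
    exact h2
  let q : ℝ → ℝ := fun R => -(ε * g.eval R) / K c m R
  let ψ : ℝ → ℝ := fun R => Real.arccos (q R)
  have hq : ∀ R ∈ Icc ρ ρ', |q R| ≤ 1 := by
    intro R hR
    have h1 := abs_g_le (g := g) (c := c) (m := m) (hρ.le.trans hR.1) (hle R hR.1 hR.2)
    show |-(ε * g.eval R) / K c m R| ≤ 1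
    rw [abs_div, abs_neg, abs_mul, hεabs, one_mul, abs_of_pos (hK R hR), div_le_one (hK R hR)]
    exact h1
  have hcos : ∀ R ∈ Icc ρ ρ', Real.cos (ψ R) = q R := by
    intro R hR
    have h1 := abs_le.1 (hq R hR)
    exact Real.cos_arccos h1.1 h1.2
  have hψρ : ψ ρ = 0 := by
    show Real.arccos (-(ε * g.eval ρ) / K c m ρ) = 0
    rw [hgρ, div_self (hK ρ hmemρ).ne', Real.arccos_one]
  have hψρ' : ψ ρ' = Real.pi := by
    show Real.arccos (-(ε * g.eval ρ') / K c m ρ') = Real.pi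
    rw [hgρ', neg_div, div_self (hK ρ' hmemρ').ne', Real.arccos_neg_one]
  have hqc : ContinuousOn q (Icc ρ ρ') := by
    refine ContinuousOn.div ?_ ?_ fun R hR => (hK R hR).ne'
    · exact ((continuous_const.mul g.continuous).neg).continuousOn
    · exact (continuous_const.mul (Real.continuous_sqrt.pow m)).continuousOn
  have hψc : ContinuousOn ψ (Icc ρ ρ') := Real.continuous_arccos.comp_continuousOn hqc
  have hcw : c * w ^ m = ((ε * K c m ρ : ℝ) : ℂ) := by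
    have h1 := c_mul_pow hw (by rw [hwρ]; exact hD)
    rw [h1, hwρ]
    congr 1
    rw [← hgρ]
    linear_combination (g.eval ρ) * hεε
  have hval : ∀ R ∈ Icc ρ ρ', ε * (K c m R * q R) = -g.eval R := by
    intro R hR
    have h1 : K c m R * q R = -(ε * g.eval R) := by
      show K c m R * (-(ε * g.eval R) / K c m R) = _
      rw [mul_div_cancel₀ _ (hK R hR).ne']
    rw [h1]
    linear_combination -(g.eval R) * hεε
  let u₁ : ℝ → ℂ := fun R => Complex.exp (((ψ R / m : ℝ) : ℂ) * Complex.I)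
  let u₂ : ℝ → ℂ := fun R => Complex.exp (((2 * Real.pi / m : ℝ) : ℂ) * Complex.I) *
    Complex.exp (((-(ψ R) / m : ℝ) : ℂ) * Complex.I)
  let f₁ : ℝ → ℂ := fun R => w * ((Real.sqrt R / Real.sqrt ρ : ℝ) : ℂ) * u₁ R
  let f₂ : ℝ → ℂ := fun R => w * ((Real.sqrt R / Real.sqrt ρ : ℝ) : ℂ) * u₂ R
  have hs : Continuous fun R : ℝ => ((Real.sqrt R / Real.sqrt ρ : ℝ) : ℂ) :=
    Complex.continuous_ofReal.comp (Real.continuous_sqrt.div_const _)
  have hu₁c : ContinuousOn u₁ (Icc ρ ρ') := by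
    refine Complex.continuous_exp.comp_continuousOn (ContinuousOn.mul ?_ continuousOn_const)
    exact Complex.continuous_ofReal.comp_continuousOn (hψc.div_const _)
  have hu₂c : ContinuousOn u₂ (Icc ρ ρ') := by
    refine ContinuousOn.mul continuousOn_const ?_
    refine Complex.continuous_exp.comp_continuousOn (ContinuousOn.mul ?_ continuousOn_const)
    exact Complex.continuous_ofReal.comp_continuousOn (hψc.neg.div_const _)
  have hf₁c : ContinuousOn f₁ (Icc ρ ρ') :=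
    (continuousOn_const.mul hs.continuousOn).mul hu₁c
  have hf₂c : ContinuousOn f₂ (Icc ρ ρ') :=
    (continuousOn_const.mul hs.continuousOn).mul hu₂c
  have hm₁ : ∀ R ∈ Icc ρ ρ', f₁ R ∈ Zs g (C c) m := by
    intro R hR
    refine pt_mem hρ (hρ.le.trans hR.1) hwρ hcw (Complex.norm_exp_ofReal_mul_I _) ?_
    show ε * (K c m R * (Complex.exp (((ψ R / m : ℝ) : ℂ) * Complex.I) ^ m).re) = -g.eval R
    rw [exp_pow hm0, Complex.exp_ofReal_mul_I_re, hcos R hR]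
    exact hval R hR
  have hm₂ : ∀ R ∈ Icc ρ ρ', f₂ R ∈ Zs g (C c) m := by
    intro R hR
    refine pt_mem hρ (hρ.le.trans hR.1) hwρ hcw ?_ ?_
    · show ‖Complex.exp (((2 * Real.pi / m : ℝ) : ℂ) * Complex.I) *
        Complex.exp (((-(ψ R) / m : ℝ) : ℂ) * Complex.I)‖ = 1
      rw [norm_mul, Complex.norm_exp_ofReal_mul_I, Complex.norm_exp_ofReal_mul_I, one_mul]
    · show ε * (K c m R * ((Complex.exp (((2 * Real.pi / m : ℝ) : ℂ) * Complex.I) *
        Complex.exp (((-(ψ R) / m : ℝ) : ℂ) * Complex.I)) ^ m).re) = -g.eval R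
      have e1 : Complex.exp (((2 * Real.pi : ℝ) : ℂ) * Complex.I) = 1 := by
        push_cast
        exact Complex.exp_two_pi_mul_I
      rw [mul_pow, exp_pow hm0, exp_pow hm0, e1, one_mul, Complex.exp_ofReal_mul_I_re, Real.cos_neg,
        hcos R hR]
      exact hval R hR
  have hsρ : Real.sqrt ρ / Real.sqrt ρ = 1 := div_self (Real.sqrt_pos.2 hρ).ne'
  have hf₁ρ : f₁ ρ = w := by
    show w * ((Real.sqrt ρ / Real.sqrt ρ : ℝ) : ℂ) *
      Complex.exp (((ψ ρ / m : ℝ) : ℂ) * Complex.I) = w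
    rw [hsρ, hψρ, zero_div, Complex.ofReal_zero, zero_mul, Complex.exp_zero, Complex.ofReal_one,
      mul_one, mul_one]
  have hf₂ρ : f₂ ρ = Complex.exp (2 * Real.pi * Complex.I / m) * w := by
    show w * ((Real.sqrt ρ / Real.sqrt ρ : ℝ) : ℂ) *
      (Complex.exp (((2 * Real.pi / m : ℝ) : ℂ) * Complex.I) *
        Complex.exp (((-(ψ ρ) / m : ℝ) : ℂ) * Complex.I)) = _
    rw [hsρ, hψρ, neg_zero, zero_div, Complex.ofReal_zero, zero_mul, Complex.exp_zero,
      Complex.ofReal_one, mul_one, mul_one, mul_comm]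
    congr 2
    push_cast
    ring
  have hf₁₂ : f₁ ρ' = f₂ ρ' := by
    show w * ((Real.sqrt ρ' / Real.sqrt ρ : ℝ) : ℂ) *
      Complex.exp (((ψ ρ' / m : ℝ) : ℂ) * Complex.I) =
      w * ((Real.sqrt ρ' / Real.sqrt ρ : ℝ) : ℂ) *
      (Complex.exp (((2 * Real.pi / m : ℝ) : ℂ) * Complex.I) *
        Complex.exp (((-(ψ ρ') / m : ℝ) : ℂ) * Complex.I))
    rw [hψρ', ← Complex.exp_add]
    congr 2
    push_cast
    field_simp
    ring
  have hpre₁ : IsPreconnected (f₁ '' Icc ρ ρ') := isPreconnected_Icc.image _ hf₁c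
  have hpre₂ : IsPreconnected (f₂ '' Icc ρ ρ') := isPreconnected_Icc.image _ hf₂c
  have hpre : IsPreconnected (f₁ '' Icc ρ ρ' ∪ f₂ '' Icc ρ ρ') :=
    IsPreconnected.union (f₁ ρ') (mem_image_of_mem _ hmemρ')
      (by rw [hf₁₂]; exact mem_image_of_mem _ hmemρ') hpre₁ hpre₂
  have hsub : f₁ '' Icc ρ ρ' ∪ f₂ '' Icc ρ ρ' ⊆ Zs g (C c) m := by
    rintro z (⟨R, hR, rfl⟩ | ⟨R, hR, rfl⟩)
    · exact hm₁ R hR
    · exact hm₂ R hR
  have hfin := hpre.subset_connectedComponentIn (x := w)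
    (Or.inl ⟨ρ, hmemρ, hf₁ρ⟩) hsub
  exact hfin (Or.inr ⟨ρ, hmemρ, hf₂ρ⟩)

end Cross

open Pool.Agent.H23S.Cross in
theorem t_CROSS : S_CROSS := by
  intro g c m ρ hm hc hρ hD hX z hz z' hz' hzρ hz'ρ
  have hm0 : m ≠ 0 := by omega
  have : NeZero m := ⟨hm0⟩
  have hprim := Complex.isPrimitiveRoot_exp m hm0
  have hz0 : z ≠ 0 := by
    rintro rfl
    rw [norm_zero] at hzρ
    norm_num at hzρ
    exact hρ.ne hzρ
  -- all the rotated points are in the component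
  have hind : ∀ i : ℕ, Complex.exp (2 * Real.pi * Complex.I / m) ^ i * z ∈
      connectedComponentIn (Zs g (C c) m) z := by
    intro i
    induction i with
    | zero => rw [pow_zero, one_mul]; exact mem_connectedComponentIn hz
    | succ i ih =>
      have h1 : Complex.exp (2 * Real.pi * Complex.I / m) ^ i * z ∈ Zs g (C c) m :=
        connectedComponentIn_subset _ _ ih
      have h2 : ‖Complex.exp (2 * Real.pi * Complex.I / m) ^ i * z‖ ^ 2 = ρ := by
        have h3 : ‖Complex.exp (2 * Real.pi * Complex.I / m)‖ = 1 := by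
          have h4 : (2 * Real.pi * Complex.I / m : ℂ) = ((2 * Real.pi / m : ℝ) : ℂ) * Complex.I := by
            push_cast; ring
          rw [h4, Complex.norm_exp_ofReal_mul_I]
        rw [norm_mul, norm_pow, h3, one_pow, one_mul, hzρ]
      have h3 := step hm hc hρ hD hX h1 h2
      rw [← connectedComponentIn_eq ih] at h3
      rw [pow_succ', mul_assoc]
      exact h3
  have h1 : c * z ^ m = c * z' ^ m := by
    rw [c_mul_pow hz (by rw [hzρ]; exact hD), c_mul_pow hz' (by rw [hz'ρ]; exact hD), hzρ, hz'ρ]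
  have h2 : z ^ m = z' ^ m := mul_left_cancel₀ hc h1
  have h3 : (z' / z) ^ m = 1 := by rw [div_pow, ← h2, div_self (pow_ne_zero _ hz0)]
  obtain ⟨i, _, hi⟩ := hprim.eq_pow_of_pow_eq_one h3
  have h4 := hind i
  rw [hi, div_mul_cancel₀ _ hz0] at h4
  exact h4

end Pool.Agent.H23S
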