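import Pool.Agent.H23S.Stm
set_option autoImplicit false

open Polynomial

namespace Pool.Agent.H23S

namespace DP

/-- real part of a complex polynomial -/
noncomputable def reP (c : ℂ[X]) : ℝ[X] := ∑ i ∈ Finset.range (c.natDegree + 1), C (c.coeff i).re * X ^ i

/-- imaginary part of a complex polynomial -/
noncomputable def imP (c : ℂ[X]) : ℝ[X] := ∑ i ∈ Finset.range (c.natDegree + 1), C (c.coeff i).im * X ^ i

lemma reP_deg (c : ℂ[X]) : (reP c).natDegree ≤ c.natDegree := by
  refine natDegree_sum_le_of_forall_le _ _ fun i hi => ?_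
  refine (natDegree_C_mul_X_pow_le _ _).trans ?_
  simp only [Finset.mem_range] at hi
  omega

lemma imP_deg (c : ℂ[X]) : (imP c).natDegree ≤ c.natDegree := by
  refine natDegree_sum_le_of_forall_le _ _ fun i hi => ?_
  refine (natDegree_C_mul_X_pow_le _ _).trans ?_
  simp only [Finset.mem_range] at hi
  omega

lemma eval_re (c : ℂ[X]) (R : ℝ) : (c.eval (R : ℂ)).re = (reP c).eval R := by
  rw [eval_eq_sum_range, reP, eval_finsetSum, Complex.re_sum]
  refine Finset.sum_congr rfl fun i _ => ?_
  rw [eval_mul, eval_C, eval_pow, eval_X, ← Complex.ofReal_pow, Complex.re_mul_ofReal]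

lemma eval_im (c : ℂ[X]) (R : ℝ) : (c.eval (R : ℂ)).im = (imP c).eval R := by
  rw [eval_eq_sum_range, imP, eval_finsetSum, Complex.im_sum]
  refine Finset.sum_congr rfl fun i _ => ?_
  rw [eval_mul, eval_C, eval_pow, eval_X, ← Complex.ofReal_pow, Complex.im_mul_ofReal]

end DP

open DP in
theorem t_DP : S_DP := by
  intro g c m k ⟨hm, hg, hgk, hg0, hc⟩
  refine ⟨g ^ 2 - X ^ m * (reP c ^ 2 + imP c ^ 2), ?_, ?_⟩
  · intro R
    simp only [Dv, eval_sub, eval_pow, eval_mul, eval_X, eval_add]
    rw [Complex.sq_norm, Complex.normSq_apply, eval_re, eval_im]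
    ring
  · have h1 : (X ^ m * (reP c ^ 2 + imP c ^ 2) : ℝ[X]).natDegree ≤ m + 2 * c.natDegree := by
      refine natDegree_mul_le.trans ?_
      rw [natDegree_X_pow]
      have h2 : (reP c ^ 2 + imP c ^ 2).natDegree ≤ 2 * c.natDegree := by
        refine natDegree_add_le_of_degree_le ?_ ?_
        · exact natDegree_pow_le.trans (Nat.mul_le_mul_left _ (reP_deg c))
        · exact natDegree_pow_le.trans (Nat.mul_le_mul_left _ (imP_deg c))
      omega
    have h2 : (X ^ m * (reP c ^ 2 + imP c ^ 2) : ℝ[X]).coeff (2 * k) = 0 := by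
      rcases hc with rfl | hc
      · simp [reP, imP]
      · exact coeff_eq_zero_of_natDegree_lt (by omega)
    have h3 : (X ^ m * (reP c ^ 2 + imP c ^ 2) : ℝ[X]).natDegree ≤ 2 * k := by
      rcases hc with rfl | hc
      · simp [reP, imP]
      · omega
    have h4 : (g ^ 2).coeff (2 * k) = g.coeff k ^ 2 := coeff_pow_of_natDegree_le hg
    have h5 : 0 < (g ^ 2 - X ^ m * (reP c ^ 2 + imP c ^ 2)).coeff (2 * k) := by
      rw [coeff_sub, h2, h4, sub_zero]
      positivity
    refine ⟨natDegree_eq_of_le_of_coeff_ne_zero ?_ h5.ne', h5, ?_⟩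
    · refine (natDegree_sub_le_of_le ?_ h3).trans (max_self (2 * k)).le
      exact natDegree_pow_le.trans (Nat.mul_le_mul_left _ hg)
    · simp only [eval_sub, eval_pow, eval_mul, eval_X]
      rw [zero_pow (by omega), zero_mul, sub_zero]
      positivity

end Pool.Agent.H23S
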