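import Pool.Agent.H23S.Stm
set_option autoImplicit false

open Polynomial Filter Topology

namespace Pool.Agent.H23S

namespace ENT

/-- alternation: at most `natDegree D / 2` points `ρ` with `D ρ = 0` and `D > 0` on the left nearby -/
lemma main (D : ℝ[X]) (S : Finset ℝ) (hlc : ∃ B : ℝ, ∀ R, B < R → 1 < D.eval R) (hD0 : D.natDegree ≠ 0)
    (h0 : ∀ ρ ∈ S, D.eval ρ = 0)
    (hS : ∀ ρ ∈ S, ∀ δ : ℝ, 0 < δ → ∃ R, ρ - δ < R ∧ R < ρ ∧ 0 < D.eval R) :
    2 * S.card ≤ D.natDegree := by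
  classical
  have hcont : Continuous fun t => D.eval t := D.continuous
  -- the points on the left
  have hx : ∀ ρ : ℝ, ∃ x, ρ ∈ S → x < ρ ∧ 0 < D.eval x ∧ ∀ ρ' ∈ S, ρ' < ρ → ρ' < x := by
    intro ρ
    by_cases hρ : ρ ∈ S
    · have h1 : ∀ᶠ y in 𝓝[<] ρ, ∀ ρ' ∈ S, ρ' < ρ → ρ' < y := by
        rw [eventually_all_finset]
        intro ρ' _
        by_cases h2 : ρ' < ρ
        · filter_upwards [Ioo_mem_nhdsLT h2] with y hy _ using hy.1
        · exact Eventually.of_forall fun y h3 => absurd h3 h2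
      obtain ⟨l, hl, hl2⟩ := (mem_nhdsLT_iff_exists_Ioo_subset).1 h1
      simp only [Set.mem_Iio] at hl
      obtain ⟨R, hR1, hR2, hR3⟩ := hS ρ hρ (ρ - l) (by linarith)
      exact ⟨R, fun _ => ⟨hR2, hR3, hl2 ⟨by linarith, hR2⟩⟩⟩
    · exact ⟨0, fun h => absurd h hρ⟩
  choose x hx using hx
  -- epsilon
  obtain ⟨ε, hε, hε1, hεx⟩ : ∃ ε : ℝ, 0 < ε ∧ ε < 1 ∧ ∀ ρ ∈ S, ε < D.eval (x ρ) := by
    have h1 : ∀ᶠ e in 𝓝[>] (0 : ℝ), ∀ ρ ∈ S, e < D.eval (x ρ) := by
      rw [eventually_all_finset]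
      intro ρ hρ
      filter_upwards [Ioo_mem_nhdsGT (hx ρ hρ).2.1] with y hy using hy.2
    have h2 : ∀ᶠ e in 𝓝[>] (0 : ℝ), e ∈ Set.Ioo (0 : ℝ) 1 := Ioo_mem_nhdsGT one_pos
    obtain ⟨e, he1, he2⟩ := (h1.and h2).exists
    exact ⟨e, he2.1, he2.2, he1⟩
  -- the polynomial D - ε
  set P : ℝ[X] := D - C ε with hP
  have hPdeg : P.natDegree = D.natDegree := natDegree_sub_C
  have hP0 : P ≠ 0 := by
    intro h
    rw [h, natDegree_zero] at hPdeg
    exact hD0 hPdeg.symm
  have hroot : ∀ t, D.eval t = ε → t ∈ P.roots.toFinset := by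
    intro t ht
    rw [Multiset.mem_toFinset, mem_roots hP0, IsRoot, hP, eval_sub, eval_C, ht, sub_self]
  have hroot' : ∀ t, t ∈ P.roots.toFinset → D.eval t = ε := by
    intro t ht
    rw [Multiset.mem_toFinset, mem_roots hP0, IsRoot, hP, eval_sub, eval_C] at ht
    linarith
  -- increasing crossing
  have hup : ∀ s t : ℝ, s < t → D.eval s = 0 → ε < D.eval t → ∃ b, s < b ∧ b < t ∧ D.eval b = ε := by
    intro s t hst hs ht
    obtain ⟨b, hb, hb2⟩ := intermediate_value_Icc hst.le hcont.continuousOn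
      (show ε ∈ Set.Icc (D.eval s) (D.eval t) from ⟨by linarith, ht.le⟩)
    refine ⟨b, lt_of_le_of_ne hb.1 ?_, lt_of_le_of_ne hb.2 ?_, hb2⟩
    · rintro rfl
      simp only at hb2
      linarith
    · rintro rfl
      simp only at hb2
      linarith
  have ha : ∀ ρ : ℝ, ∃ a, ρ ∈ S → x ρ < a ∧ a < ρ ∧ D.eval a = ε := by
    intro ρ
    by_cases hρ : ρ ∈ S
    · obtain ⟨a, ha, ha2⟩ := intermediate_value_Icc' (hx ρ hρ).1.le hcont.continuousOn
        (show ε ∈ Set.Icc (D.eval ρ) (D.eval (x ρ)) from ⟨by rw [h0 ρ hρ]; exact hε.le, (hεx ρ hρ).le⟩)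
      refine ⟨a, fun _ => ⟨lt_of_le_of_ne ha.1 ?_, lt_of_le_of_ne ha.2 ?_, ha2⟩⟩
      · intro h
        have := hεx ρ hρ
        rw [h] at this
        simp only at ha2
        linarith
      · intro h
        have := h0 ρ hρ
        rw [← h] at this
        simp only at ha2
        linarith
    · exact ⟨0, fun h => absurd h hρ⟩
  choose a ha using ha
  have hb : ∀ ρ : ℝ, ∃ b, ρ ∈ S → ρ < b ∧ D.eval b = ε ∧ ∀ t, ρ < t → D.eval t = ε → b ≤ t := by
    intro ρ
    by_cases hρ : ρ ∈ S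
    · obtain ⟨B, hB⟩ := hlc
      have h1 : ∃ b, ρ < b ∧ b < max (B + 1) (ρ + 1) ∧ D.eval b = ε := by
        refine hup ρ _ (lt_of_lt_of_le (by linarith) (le_max_right _ _)) (h0 ρ hρ) ?_
        exact hε1.trans (hB _ (lt_of_lt_of_le (by linarith) (le_max_left _ _)))
      obtain ⟨b, hb1, _, hb3⟩ := h1
      set F := P.roots.toFinset.filter (fun t => ρ < t) with hF
      have hne : F.Nonempty := ⟨b, by rw [hF, Finset.mem_filter]; exact ⟨hroot b hb3, hb1⟩⟩
      refine ⟨F.min' hne, fun _ => ⟨?_, ?_, ?_⟩⟩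
      · exact (Finset.mem_filter.1 (F.min'_mem hne)).2
      · exact hroot' _ (Finset.mem_filter.1 (F.min'_mem hne)).1
      · intro t ht1 ht2
        exact F.min'_le t (by rw [hF, Finset.mem_filter]; exact ⟨hroot t ht2, ht1⟩)
    · exact ⟨0, fun h => absurd h hρ⟩
  choose b hb using hb
  -- order
  have hord : ∀ ρ ∈ S, ∀ ρ' ∈ S, ρ < ρ' → b ρ < a ρ' := by
    intro ρ hρ ρ' hρ' hlt
    obtain ⟨t, ht1, ht2, ht3⟩ := hup ρ (x ρ') ((hx ρ' hρ').2.2 ρ hρ hlt) (h0 ρ hρ) (hεx ρ' hρ')
    have h1 := (hb ρ hρ).2.2 t ht1 ht3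
    have h2 := (ha ρ' hρ').1
    linarith
  -- injection
  have hcard : (S ×ˢ (Finset.univ : Finset Bool)).card ≤ P.roots.toFinset.card := by
    refine Finset.card_le_card_of_injOn (fun q => if q.2 then a q.1 else b q.1) ?_ ?_
    · rintro ⟨ρ, q⟩ hq
      simp only [Finset.coe_product, Finset.coe_univ, Set.mem_prod, Finset.mem_coe, Set.mem_univ,
        and_true] at hq
      cases q
      · simp only [Finset.mem_coe]
        exact hroot _ (hb ρ hq).2.1
      · simp only [Finset.mem_coe]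
        exact hroot _ (ha ρ hq).2.2
    · rintro ⟨ρ, q⟩ hq ⟨ρ', q'⟩ hq' heq
      simp only [Finset.coe_product, Finset.coe_univ, Set.mem_prod, Finset.mem_coe, Set.mem_univ,
        and_true] at hq hq'
      have e1 := ha ρ hq
      have e2 := ha ρ' hq'
      have e3 := hb ρ hq
      have e4 := hb ρ' hq'
      rcases lt_trichotomy ρ ρ' with h | h | h
      · have e5 := hord ρ hq ρ' hq' h
        exfalso
        cases q <;> cases q' <;> simp at heq <;> linarith
      · subst h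
        cases q <;> cases q' <;> simp at heq
        · rfl
        · exfalso; linarith
        · exfalso; linarith
        · rfl
      · have e5 := hord ρ' hq' ρ hq h
        exfalso
        cases q <;> cases q' <;> simp at heq <;> linarith
  rw [Finset.card_product, Finset.card_univ, Fintype.card_bool] at hcard
  have h1 := Multiset.toFinset_card_le P.roots
  have h2 := P.card_roots'
  omega

end ENT

open ENT in
theorem t_ENT (h : S_DP) : S_ENT := by
  classical
  intro g c m k hok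
  obtain ⟨D, hD, hdeg, hlead, hD0⟩ := h g c m k hok
  have hDne : D ≠ 0 := by
    rintro rfl
    simp at hlead
  have hsub : Ent g c m ⊆ {R | D.IsRoot R} := by
    intro ρ hρ
    simp only [Set.mem_ofPred_eq, IsRoot]
    rw [hD]
    exact hρ.2.1
  have hfin : (Ent g c m).Finite := (finite_setOfPred_isRoot hDne).subset hsub
  refine ⟨hfin, ?_⟩
  by_cases hk : k = 0
  · subst hk
    have h1 : Ent g c m = ∅ := by
      rw [Set.eq_empty_iff_forall_notMem]
      intro ρ hρ
      have h2 := hsub hρ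
      simp only [Set.mem_ofPred_eq, IsRoot] at h2
      have h3 : D = C (D.coeff 0) := eq_C_of_natDegree_eq_zero (by simpa using hdeg)
      rw [h3, eval_C] at h2
      rw [mul_zero] at hlead
      linarith
    rw [h1]
    simp
  · have hlc : 0 < D.leadingCoeff := by
      rw [leadingCoeff, hdeg]
      exact hlead
    have hdeg' : 0 < D.degree := by
      rw [degree_eq_natDegree hDne, hdeg]
      exact_mod_cast (by omega : 0 < 2 * k)
    have htend := D.tendsto_atTop_of_leadingCoeff_nonneg hdeg' hlc.le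
    have hev := htend.eventually_gt_atTop 1
    obtain ⟨B, hB⟩ := (eventually_atTop).1 hev
    have := ENT.main D hfin.toFinset ⟨B, fun R hR => hB R hR.le⟩ (by omega)
      (fun ρ hρ => by
        rw [hD]
        exact ((hfin.mem_toFinset).1 hρ).2.1)
      (fun ρ hρ δ hδ => by
        obtain ⟨R, h1, h2, h3⟩ := ((hfin.mem_toFinset).1 hρ).2.2 δ hδ
        exact ⟨R, h1, h2, by rw [hD]; exact h3⟩)
    rw [Set.ncard_eq_toFinset_card _ hfin]
    omega

end Pool.Agent.H23S
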