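import Pool.Agent.H23S.Stm2

/-!
Piece EXL: the curve `F8 = 0` has at least 15 components.
-/

set_option autoImplicit false

namespace Pool.Agent.H23S

open Topology

/-- A function with finitely many values which is continuous on `S` separates components. -/
theorem exl_comps {X : Type} [TopologicalSpace X] (S : Set X) (f : X → ℂ) (hf : ContinuousOn f S)
    (hfin : (f '' S).Finite) (T : Finset ℂ) (hT : ∀ t ∈ T, ∃ p ∈ S, f p = t) :
    (T.card : ℕ∞) ≤ (comps S).encard := by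
  classical
  rcases T.eq_empty_or_nonempty with rfl | ⟨t₀, ht₀⟩
  · simp
  haveI : Nonempty X := ⟨(hT t₀ ht₀).choose⟩
  choose! p hp hfp using hT
  have hinj : Set.InjOn (fun t => connectedComponentIn S (p t)) (T : Set ℂ) := by
    intro s hs t ht hst
    have h1 : p s ∈ connectedComponentIn S (p t) := by
      have h2 : p s ∈ connectedComponentIn S (p s) := mem_connectedComponentIn (hp s hs)
      simp only at hst
      rwa [hst] at h2
    have h3 : p t ∈ connectedComponentIn S (p t) := mem_connectedComponentIn (hp t ht)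
    have h4 := (isPreconnected_connectedComponentIn (F := S) (x := p t)).constant_of_mapsTo
      (T := f '' S) hfin.isDiscrete (hf.mono (connectedComponentIn_subset S (p t)))
      (fun x hx => ⟨x, connectedComponentIn_subset S (p t) hx, rfl⟩) h1 h3
    rw [hfp s hs, hfp t ht] at h4
    exact h4
  rw [← Set.encard_coe_eq_coe_finsetCard, ← hinj.encard_image]
  refine Set.encard_le_encard ?_
  rintro _ ⟨t, ht, rfl⟩
  exact ⟨p t, hp t ht, rfl⟩

/-- the polynomial `g` -/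
noncomputable def gE (R : ℝ) : ℝ :=
  35 * R ^ 4 + 131915 * R ^ 3 - 7141680 * R ^ 2 + 94493952 * R - 373248000

/-- the affine equation -/
noncomputable def PE (z : ℂ) : ℝ := gE (‖z‖ ^ 2) + 5600 * (z ^ 7).re

theorem gE_pos {R : ℝ} (h1 : 144 ≤ R) : 0 < gE R := by
  obtain ⟨s, rfl⟩ : ∃ s, R = 144 + s := ⟨R - 144, by ring⟩
  have hs : 0 ≤ s := by linarith
  unfold gE
  have e : 35 * (144 + s) ^ 4 + 131915 * (144 + s) ^ 3 - 7141680 * (144 + s) ^ 2 +
      94493952 * (144 + s) - 373248000 =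
      274089443328 + 6661896192 * s + 54200160 * s ^ 2 + 152075 * s ^ 3 + 35 * s ^ 4 := by
    ring
  rw [e]
  positivity

theorem gE_neg {R : ℝ} (h0 : 0 ≤ R) (h1 : R ≤ 16) : gE R < 0 := by
  have h2 : 0 ≤ 77202055 / 16 - 265055 / 2 * R - 35 * R ^ 2 := by nlinarith
  have h3 := mul_nonneg (sq_nonneg (R - 35 / 4)) h2
  have e : gE R = -((R - 35 / 4) ^ 2 * (77202055 / 16 - 265055 / 2 * R - 35 * R ^ 2)) -
      739459 / 8 * (R - 35 / 4) - 1186019145 / 256 := by
    unfold gE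
    ring
  rw [e]
  linarith

theorem eval_F8 (v : Fin 3 → ℝ) : MvPolynomial.eval v F8 =
    35 * (v 0 ^ 2 + v 1 ^ 2) ^ 4 + 131915 * (v 0 ^ 2 + v 1 ^ 2) ^ 3 * v 2 ^ 2 -
    7141680 * (v 0 ^ 2 + v 1 ^ 2) ^ 2 * v 2 ^ 4 + 94493952 * (v 0 ^ 2 + v 1 ^ 2) * v 2 ^ 6 -
    373248000 * v 2 ^ 8 +
    5600 * (v 0 ^ 7 - 21 * v 0 ^ 5 * v 1 ^ 2 + 35 * v 0 ^ 3 * v 1 ^ 4 - 7 * v 0 * v 1 ^ 6) * v 2 := by
  unfold F8
  simp

theorem re_pow_seven (z : ℂ) : (z ^ 7).re =
    z.re ^ 7 - 21 * z.re ^ 5 * z.im ^ 2 + 35 * z.re ^ 3 * z.im ^ 4 - 7 * z.re * z.im ^ 6 := by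
  simp only [pow_succ, pow_zero, one_mul, Complex.mul_re, Complex.mul_im]
  ring

theorem PE_eq (z : ℂ) : PE z = MvPolynomial.eval ![z.re, z.im, 1] F8 := by
  rw [eval_F8, PE, gE, re_pow_seven, ← Complex.normSq_eq_norm_sq, Complex.normSq_apply]
  simp
  ring

/-- the affine coordinate -/
noncomputable def chi : RP2 → ℂ := fun p =>
  Projectivization.lift (K := ℝ) (V := Fin 3 → ℝ)
    (fun v => (((v.1 0 : ℝ) : ℂ) + ((v.1 1 : ℝ) : ℂ) * Complex.I) / ((v.1 2 : ℝ) : ℂ))
    (by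
      intro a b t h
      have ht : t ≠ 0 := by
        rintro rfl
        exact a.2 (by rw [h, zero_smul])
      have ht' : (t : ℂ) ≠ 0 := by exact_mod_cast ht
      simp only [h, Pi.smul_apply, smul_eq_mul, Complex.ofReal_mul]
      rw [mul_assoc, ← mul_add, mul_div_mul_left _ _ ht']) p

theorem chi_mk (v : Fin 3 → ℝ) (hv : v ≠ 0) :
    chi (Projectivization.mk ℝ v hv) = ((v 0 : ℂ) + (v 1 : ℂ) * Complex.I) / (v 2 : ℂ) := rfl

/-- the affine part -/
def aff : Set RP2 :=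
  {p | ∃ (v : Fin 3 → ℝ) (hv : v ≠ 0), v 2 ≠ 0 ∧ p = Projectivization.mk ℝ v hv}

/-- the projection -/
noncomputable def prj : {v : Fin 3 → ℝ // v ≠ 0} → RP2 := fun v => Projectivization.mk ℝ v.1 v.2

theorem prj_quot : IsQuotientMap prj := isQuotientMap_quotient_mk'

theorem prj_preimage : prj ⁻¹' aff = {v | v.1 2 ≠ 0} := by
  ext ⟨v, hv⟩
  constructor
  · rintro ⟨w, hw, h2, h⟩
    obtain ⟨a, ha⟩ := (Projectivization.mk_eq_mk_iff ℝ v w hv hw).1 h
    show v 2 ≠ 0
    rw [← ha]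
    show (a : ℝ) * w 2 ≠ 0
    exact mul_ne_zero a.ne_zero h2
  · intro h
    exact ⟨v, hv, h, rfl⟩

theorem aff_open : IsOpen aff := by
  rw [← prj_quot.isOpen_preimage, prj_preimage]
  have h : Continuous fun v : {v : Fin 3 → ℝ // v ≠ 0} => v.1 2 :=
    (continuous_apply 2).comp continuous_subtype_val
  exact isOpen_ne_fun h continuous_const

theorem chi_cont : ContinuousOn chi aff := by
  rw [prj_quot.continuousOn_isOpen_iff aff_open, prj_preimage]
  have h : ∀ i : Fin 3, Continuous fun v : {v : Fin 3 → ℝ // v ≠ 0} => ((v.1 i : ℝ) : ℂ) :=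
    fun i => Complex.continuous_ofReal.comp ((continuous_apply i).comp continuous_subtype_val)
  show ContinuousOn (fun v : {v : Fin 3 → ℝ // v ≠ 0} =>
    (((v.1 0 : ℝ) : ℂ) + ((v.1 1 : ℝ) : ℂ) * Complex.I) / ((v.1 2 : ℝ) : ℂ)) _
  refine ContinuousOn.div ((h 0).add ((h 1).mul continuous_const)).continuousOn
    (h 2).continuousOn ?_
  intro v hv
  exact_mod_cast hv

/-- homogeneity -/
theorem eval_F8_scale (v : Fin 3 → ℝ) (h2 : v 2 ≠ 0) : MvPolynomial.eval v F8 =
    v 2 ^ 8 * MvPolynomial.eval ![v 0 / v 2, v 1 / v 2, 1] F8 := by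
  rw [eval_F8, eval_F8]
  simp only [Matrix.cons_val_zero, Matrix.cons_val_one, Matrix.cons_val]
  field_simp

/-- the points of the real part are affine and solve the equation -/
theorem realPart_sub {p : RP2} (hp : p ∈ realPart F8) : p ∈ aff ∧ PE (chi p) = 0 := by
  obtain ⟨v, hv, h0, rfl⟩ := hp
  have h2 : v 2 ≠ 0 := by
    intro h2
    rw [eval_F8, h2] at h0
    have h3 : (v 0 ^ 2 + v 1 ^ 2) ^ 4 = 0 := by
      ring_nf at h0 ⊢
      linarith
    have h4 : v 0 ^ 2 + v 1 ^ 2 = 0 := (pow_eq_zero_iff (by norm_num)).1 h3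
    have h5 : v 0 = 0 := by nlinarith [sq_nonneg (v 0), sq_nonneg (v 1)]
    have h6 : v 1 = 0 := by nlinarith [sq_nonneg (v 0), sq_nonneg (v 1)]
    apply hv
    funext i
    fin_cases i
    · exact h5
    · exact h6
    · exact h2
  refine ⟨⟨v, hv, h2, rfl⟩, ?_⟩
  rw [chi_mk]
  have h3 : ((v 0 : ℂ) + (v 1 : ℂ) * Complex.I) / (v 2 : ℂ) =
      ⟨v 0 / v 2, v 1 / v 2⟩ := by
    apply Complex.ext
    · rw [Complex.div_ofReal_re]
      simp
    · rw [Complex.div_ofReal_im]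
      simp
  rw [h3, PE_eq]
  rw [eval_F8_scale v h2] at h0
  exact (mul_eq_zero.1 h0).resolve_left (pow_ne_zero _ h2)

/-- the solutions of the equation are points of the real part -/
theorem realPart_sup {z : ℂ} (hz : PE z = 0) : ∃ p ∈ realPart F8, chi p = z := by
  have hv : (![z.re, z.im, 1] : Fin 3 → ℝ) ≠ 0 := by
    intro h
    have := congrFun h 2
    simp at this
  refine ⟨Projectivization.mk ℝ _ hv, ⟨_, hv, ?_, rfl⟩, ?_⟩
  · rw [← PE_eq]
    exact hz
  · rw [chi_mk]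
    simp [Complex.re_add_im]

/-- the seventh root of the seventh power -/
noncomputable def rt (z : ℂ) : ℂ := (z ^ 7) ^ (((7 : ℕ) : ℂ)⁻¹)

theorem rt_pow (z : ℂ) : rt z ^ 7 = z ^ 7 := Complex.cpow_nat_inv_pow _ (by norm_num)

theorem rt_ne {z : ℂ} (h : 0 < (z ^ 7).re) : rt z ≠ 0 := by
  intro h0
  have h1 := rt_pow z
  rw [h0] at h1
  rw [← h1] at h
  simp at h

theorem rt_cont {z : ℂ} (h : 0 < (z ^ 7).re) : ContinuousAt (fun w => w / rt w) z := by
  have h1 : ContinuousAt rt z :=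
    ContinuousAt.cpow (continuous_pow 7).continuousAt continuousAt_const (Or.inl h)
  exact continuousAt_id.div h1 (rt_ne h)

theorem rt_val {z : ℂ} (h : 0 < (z ^ 7).re) : (z / rt z) ^ 7 = 1 := by
  rw [div_pow, rt_pow]
  refine div_self ?_
  intro h0
  rw [h0] at h
  simp at h

theorem rt_ray {r : ℝ} (hr : 0 < r) {ζ : ℂ} (hζ : ζ ^ 7 = 1) : (r * ζ) / rt (r * ζ) = ζ := by
  have h1 : rt (r * ζ) = r := by
    unfold rt
    rw [mul_pow, hζ, mul_one]
    refine Complex.pow_cpow_nat_inv (by norm_num) ?_ ?_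
    · rw [Complex.arg_ofReal_of_nonneg hr.le]
      have := Real.pi_pos
      simp
      positivity
    · rw [Complex.arg_ofReal_of_nonneg hr.le]
      positivity
  have hr' : (r : ℂ) ≠ 0 := by exact_mod_cast hr.ne'
  rw [h1, mul_div_cancel_left₀ _ hr']

open scoped Classical in
/-- the function which separates the components -/
noncomputable def hE (z : ℂ) : ℂ :=
  if ‖z‖ < 4 then z / rt z else if ‖z‖ < 12 then 0 else 2 * ((-z) / rt (-z))

theorem re_small {z : ℂ} (hz : PE z = 0) (h : ‖z‖ ≤ 4) : 0 < (z ^ 7).re := by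
  have h1 : gE (‖z‖ ^ 2) < 0 := gE_neg (sq_nonneg _) (by nlinarith [norm_nonneg z])
  unfold PE at hz
  linarith

theorem re_large {z : ℂ} (hz : PE z = 0) (h : 12 ≤ ‖z‖) : 0 < ((-z) ^ 7).re := by
  have h1 : 0 < gE (‖z‖ ^ 2) := gE_pos (by nlinarith)
  have h2 : (-z) ^ 7 = -(z ^ 7) := by ring
  rw [h2, Complex.neg_re]
  unfold PE at hz
  linarith

theorem ne_four {z : ℂ} (hz : PE z = 0) : ‖z‖ ≠ 4 := by
  intro h
  have h1 : |(z ^ 7).re| ≤ 4 ^ 7 := by
    refine (Complex.abs_re_le_norm _).trans ?_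
    rw [norm_pow, h]
  unfold PE gE at hz
  rw [h] at hz
  have h2 := abs_le.1 h1
  norm_num at hz h2
  linarith

theorem ne_twelve {z : ℂ} (hz : PE z = 0) : ‖z‖ ≠ 12 := by
  intro h
  have h1 : |(z ^ 7).re| ≤ 12 ^ 7 := by
    refine (Complex.abs_re_le_norm _).trans ?_
    rw [norm_pow, h]
  unfold PE gE at hz
  rw [h] at hz
  have h2 := abs_le.1 h1
  norm_num at hz h2
  linarith

theorem hE_cont {z : ℂ} (hz : PE z = 0) : ContinuousAt hE z := by
  rcases lt_or_gt_of_ne (ne_four hz) with h4 | h4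
  · refine (rt_cont (re_small hz h4.le)).congr ?_
    filter_upwards [continuous_norm.continuousAt.eventually_lt continuousAt_const h4] with w hw
    simp only [hE, if_pos hw]
  rcases lt_or_gt_of_ne (ne_twelve hz) with h12 | h12
  · refine (continuousAt_const (y := (0 : ℂ))).congr ?_
    filter_upwards [continuous_norm.continuousAt.eventually_lt continuousAt_const h12,
      continuousAt_const.eventually_lt continuous_norm.continuousAt h4] with w hw hw'
    simp only [hE, if_neg (not_lt.2 hw'.le), if_pos hw]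
  · have h1 : ContinuousAt (fun w : ℂ => 2 * ((-w) / rt (-w))) z := by
      have h2 : ContinuousAt (fun w : ℂ => (fun u => u / rt u) (-w)) z :=
        ContinuousAt.comp (f := fun w : ℂ => -w) (g := fun u : ℂ => u / rt u)
          (rt_cont (re_large hz h12.le)) continuous_neg.continuousAt
      exact continuousAt_const.mul h2
    refine h1.congr ?_
    filter_upwards [continuousAt_const.eventually_lt continuous_norm.continuousAt h12] with w hw
    have hw4 : ¬ ‖w‖ < 4 := by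
      intro h
      linarith
    simp only [hE, if_neg hw4, if_neg (not_lt.2 hw.le)]

theorem PE_ray (r : ℝ) (hr : 0 ≤ r) {ζ : ℂ} (hζ : ζ ^ 7 = 1) :
    PE (r * ζ) = gE (r ^ 2) + 5600 * r ^ 7 := by
  have h1 : ‖ζ‖ = 1 := by
    have h2 : ‖ζ‖ ^ 7 = 1 := by rw [← norm_pow, hζ, norm_one]
    exact (pow_eq_one_iff_of_nonneg (norm_nonneg _) (by norm_num)).1 h2
  unfold PE
  rw [norm_mul, h1, mul_one, Complex.norm_of_nonneg hr, mul_pow, hζ, mul_one]
  norm_cast

theorem PE_ray_neg (r : ℝ) (hr : 0 ≤ r) {ζ : ℂ} (hζ : ζ ^ 7 = 1) :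
    PE (-(r * ζ)) = gE (r ^ 2) - 5600 * r ^ 7 := by
  have h1 : ‖ζ‖ = 1 := by
    have h2 : ‖ζ‖ ^ 7 = 1 := by rw [← norm_pow, hζ, norm_one]
    exact (pow_eq_one_iff_of_nonneg (norm_nonneg _) (by norm_num)).1 h2
  have h3 : (-(r * ζ) : ℂ) ^ 7 = ((-(r ^ 7) : ℝ) : ℂ) := by
    have h4 : (-(r * ζ) : ℂ) ^ 7 = -(r ^ 7 * ζ ^ 7) := by ring
    rw [h4, hζ]
    push_cast
    ring
  unfold PE
  rw [norm_neg, norm_mul, h1, mul_one, Complex.norm_of_nonneg hr, h3, Complex.ofReal_re]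
  ring

theorem gE_cont : Continuous gE := by
  unfold gE
  fun_prop

/-- the value `ζ` -/
theorem val_small {ζ : ℂ} (hζ : ζ ^ 7 = 1) : ∃ z, PE z = 0 ∧ hE z = ζ := by
  have hc : ContinuousOn (fun r : ℝ => -(gE (r ^ 2) + 5600 * r ^ 7)) (Set.Icc 3 4) :=
    (((gE_cont.comp (continuous_pow 2)).add
      (continuous_const.mul (continuous_pow 7))).neg).continuousOn
  have h := intermediate_value_Ioo (by norm_num : (3 : ℝ) ≤ 4) hc
  obtain ⟨r, ⟨hr3, hr4⟩, hr⟩ := h (⟨by norm_num [gE], by norm_num [gE]⟩ :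
    (0 : ℝ) ∈ Set.Ioo _ _)
  simp only at hr
  have hr0 : 0 < r := by linarith
  have h1 : ‖(r * ζ : ℂ)‖ < 4 := by
    have h2 : ‖ζ‖ = 1 := by
      have h2 : ‖ζ‖ ^ 7 = 1 := by rw [← norm_pow, hζ, norm_one]
      exact (pow_eq_one_iff_of_nonneg (norm_nonneg _) (by norm_num)).1 h2
    rw [norm_mul, h2, mul_one, Complex.norm_of_nonneg hr0.le]
    exact hr4
  refine ⟨r * ζ, ?_, ?_⟩
  · rw [PE_ray r hr0.le hζ]
    linarith
  · simp only [hE, if_pos h1]
    exact rt_ray hr0 hζ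

/-- the value `0` -/
theorem val_mid : ∃ z, PE z = 0 ∧ hE z = 0 := by
  have hc : ContinuousOn (fun r : ℝ => gE (r ^ 2) + 5600 * r ^ 7) (Set.Icc 4 12) :=
    ((gE_cont.comp (continuous_pow 2)).add
      (continuous_const.mul (continuous_pow 7))).continuousOn
  have h := intermediate_value_Ioo (by norm_num : (4 : ℝ) ≤ 12) hc
  obtain ⟨r, ⟨hr3, hr4⟩, hr⟩ := h (⟨by norm_num [gE], by norm_num [gE]⟩ :
    (0 : ℝ) ∈ Set.Ioo _ _)
  simp only at hr
  have hr0 : 0 < r := by linarith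
  have h1 : ‖(r * 1 : ℂ)‖ = r := by
    rw [norm_mul, norm_one, mul_one, Complex.norm_of_nonneg hr0.le]
  refine ⟨r * 1, ?_, ?_⟩
  · rw [PE_ray r hr0.le (one_pow 7)]
    linarith
  · have h2 : ¬ ‖(r * 1 : ℂ)‖ < 4 := by rw [h1]; exact not_lt.2 hr3.le
    have h3 : ‖(r * 1 : ℂ)‖ < 12 := by rw [h1]; exact hr4
    simp only [hE, if_neg h2, if_pos h3]

/-- the value `2 ζ` -/
theorem val_large {ζ : ℂ} (hζ : ζ ^ 7 = 1) : ∃ z, PE z = 0 ∧ hE z = 2 * ζ := by
  have hc : ContinuousOn (fun r : ℝ => -(gE (r ^ 2) - 5600 * r ^ 7)) (Set.Icc 12 60) :=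
    (((gE_cont.comp (continuous_pow 2)).sub
      (continuous_const.mul (continuous_pow 7))).neg).continuousOn
  have h := intermediate_value_Ioo (by norm_num : (12 : ℝ) ≤ 60) hc
  obtain ⟨r, ⟨hr3, hr4⟩, hr⟩ := h (⟨by norm_num [gE], by norm_num [gE]⟩ :
    (0 : ℝ) ∈ Set.Ioo _ _)
  simp only at hr
  have hr0 : 0 < r := by linarith
  have h1 : ‖(-(r * ζ) : ℂ)‖ = r := by
    have h2 : ‖ζ‖ = 1 := by
      have h2 : ‖ζ‖ ^ 7 = 1 := by rw [← norm_pow, hζ, norm_one]
      exact (pow_eq_one_iff_of_nonneg (norm_nonneg _) (by norm_num)).1 h2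
    rw [norm_neg, norm_mul, h2, mul_one, Complex.norm_of_nonneg hr0.le]
  refine ⟨-(r * ζ), ?_, ?_⟩
  · rw [PE_ray_neg r hr0.le hζ]
    linarith
  · have h2 : ¬ ‖(-(r * ζ) : ℂ)‖ < 4 := by rw [h1]; exact not_lt.2 (by linarith)
    have h3 : ¬ ‖(-(r * ζ) : ℂ)‖ < 12 := by rw [h1]; exact not_lt.2 hr3.le
    simp only [hE, if_neg h2, if_neg h3, neg_neg]
    rw [rt_ray hr0 hζ]

theorem hE_vals {z : ℂ} (hz : PE z = 0) :
    hE z ∈ ({w : ℂ | w ^ 7 = 1} ∪ {0}) ∪ (fun w => 2 * w) '' {w : ℂ | w ^ 7 = 1} := by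
  by_cases h4 : ‖z‖ < 4
  · left; left
    simp only [hE, if_pos h4, Set.mem_setOf_eq]
    exact rt_val (re_small hz h4.le)
  by_cases h12 : ‖z‖ < 12
  · left; right
    simp only [hE, if_neg h4, if_pos h12, Set.mem_singleton_iff]
  · right
    simp only [hE, if_neg h4, if_neg h12]
    exact ⟨_, rt_val (re_large hz (not_lt.1 h12)), rfl⟩

theorem t_EXL : S_EXL := by
  classical
  have hroots : ({w : ℂ | w ^ 7 = 1}).Finite := by
    refine (Polynomial.nthRootsFinset 7 (1 : ℂ)).finite_toSet.subset fun w hw => ?_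
    exact (Polynomial.mem_nthRootsFinset (by norm_num) (1 : ℂ)).2 hw
  obtain ⟨R, hR⟩ : ∃ R : Finset ℂ, R = Polynomial.nthRootsFinset 7 (1 : ℂ) := ⟨_, rfl⟩
  have hRm : ∀ w, w ∈ R ↔ w ^ 7 = 1 := by
    intro w
    rw [hR]
    exact Polynomial.mem_nthRootsFinset (by norm_num) (1 : ℂ)
  have hRn : ∀ w ∈ R, ‖w‖ = 1 := by
    intro w hw
    have h2 : ‖w‖ ^ 7 = 1 := by rw [← norm_pow, (hRm w).1 hw, norm_one]
    exact (pow_eq_one_iff_of_nonneg (norm_nonneg _) (by norm_num)).1 h2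
  have hRc : R.card = 7 := by
    rw [hR]
    exact (Complex.isPrimitiveRoot_exp 7 (by norm_num)).card_nthRootsFinset
  have hcard : ((R ∪ {0}) ∪ R.image (fun w => 2 * w)).card = 15 := by
    rw [Finset.card_union_of_disjoint, Finset.card_union_of_disjoint, Finset.card_singleton,
      Finset.card_image_of_injective, hRc]
    · intro a b hab
      simpa using hab
    · rw [Finset.disjoint_singleton_right]
      intro h
      have := hRn 0 h
      simp at this
    · rw [Finset.disjoint_left]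
      intro w hw hw'
      obtain ⟨u, hu, rfl⟩ := Finset.mem_image.1 hw'
      have h1 : ‖(2 * u : ℂ)‖ = 2 := by
        rw [norm_mul, hRn u hu]
        simp
      rcases Finset.mem_union.1 hw with h | h
      · have := hRn _ h
        rw [h1] at this
        norm_num at this
      · rw [Finset.mem_singleton.1 h] at h1
        simp at h1
  have hmain := exl_comps (realPart F8) (fun p => hE (chi p)) ?_ ?_
    ((R ∪ {0}) ∪ R.image (fun w => 2 * w)) ?_
  · rw [hcard] at hmain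
    exact_mod_cast hmain
  · intro p hp
    obtain ⟨h1, h2⟩ := realPart_sub hp
    have h3 : ContinuousWithinAt chi (realPart F8) p :=
      ((chi_cont p h1).mono fun q hq => (realPart_sub hq).1)
    exact (hE_cont h2).comp_continuousWithinAt h3
  · refine ((hroots.union (Set.finite_singleton 0)).union (hroots.image fun w : ℂ => 2 * w)).subset ?_
    rintro _ ⟨p, hp, rfl⟩
    exact hE_vals (realPart_sub hp).2
  · intro t ht
    have hz : ∃ z, PE z = 0 ∧ hE z = t := by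
      rcases Finset.mem_union.1 ht with h | h
      · rcases Finset.mem_union.1 h with h | h
        · exact val_small ((hRm t).1 h)
        · rw [Finset.mem_singleton.1 h]
          exact val_mid
      · obtain ⟨u, hu, rfl⟩ := Finset.mem_image.1 h
        exact val_large ((hRm u).1 hu)
    obtain ⟨z, hz, hzt⟩ := hz
    obtain ⟨p, hp, hpz⟩ := realPart_sup hz
    exact ⟨p, hp, by rw [hpz]; exact hzt⟩

end Pool.Agent.H23S
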