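import Pool.Agent.H23S.Stm2

/-!
# Project SM, piece EXN: the curve `F8` is nonsingular and invariant
-/

set_option autoImplicit false

namespace Pool.Agent.H23S

open MvPolynomial

namespace EXNP

theorem hc (n : ℕ) [n.AtLeastTwo] :
    (OfNat.ofNat n : MvPolynomial (Fin 3) ℝ).IsHomogeneous 0 := by
  rw [← map_ofNat (C : ℝ →+* MvPolynomial (Fin 3) ℝ) n]
  exact isHomogeneous_C _ _

theorem hom : F8.IsHomogeneous 8 := by
  have hX : ∀ i : Fin 3, (X i : MvPolynomial (Fin 3) ℝ).IsHomogeneous 1 := fun i =>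
    isHomogeneous_X ℝ i
  have hu : (X 0 ^ 2 + X 1 ^ 2 : MvPolynomial (Fin 3) ℝ).IsHomogeneous 2 :=
    ((hX 0).pow 2).add ((hX 1).pow 2)
  have t1 : (35 * (X 0 ^ 2 + X 1 ^ 2) ^ 4 : MvPolynomial (Fin 3) ℝ).IsHomogeneous 8 :=
    (hc 35).mul (hu.pow 4)
  have t2 : (131915 * (X 0 ^ 2 + X 1 ^ 2) ^ 3 * X 2 ^ 2 : MvPolynomial (Fin 3) ℝ).IsHomogeneous 8 :=
    ((hc 131915).mul (hu.pow 3)).mul ((hX 2).pow 2)
  have t3 : (7141680 * (X 0 ^ 2 + X 1 ^ 2) ^ 2 * X 2 ^ 4 : MvPolynomial (Fin 3) ℝ).IsHomogeneous 8 :=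
    ((hc 7141680).mul (hu.pow 2)).mul ((hX 2).pow 4)
  have t4 : (94493952 * (X 0 ^ 2 + X 1 ^ 2) * X 2 ^ 6 : MvPolynomial (Fin 3) ℝ).IsHomogeneous 8 :=
    ((hc 94493952).mul hu).mul ((hX 2).pow 6)
  have t5 : (373248000 * X 2 ^ 8 : MvPolynomial (Fin 3) ℝ).IsHomogeneous 8 :=
    (hc 373248000).mul ((hX 2).pow 8)
  have s1 : (X 0 ^ 7 : MvPolynomial (Fin 3) ℝ).IsHomogeneous 7 := (hX 0).pow 7
  have s2 : (21 * X 0 ^ 5 * X 1 ^ 2 : MvPolynomial (Fin 3) ℝ).IsHomogeneous 7 :=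
    ((hc 21).mul ((hX 0).pow 5)).mul ((hX 1).pow 2)
  have s3 : (35 * X 0 ^ 3 * X 1 ^ 4 : MvPolynomial (Fin 3) ℝ).IsHomogeneous 7 :=
    ((hc 35).mul ((hX 0).pow 3)).mul ((hX 1).pow 4)
  have s4 : (7 * X 0 * X 1 ^ 6 : MvPolynomial (Fin 3) ℝ).IsHomogeneous 7 :=
    ((hc 7).mul (hX 0)).mul ((hX 1).pow 6)
  have t6 : (5600 * (X 0 ^ 7 - 21 * X 0 ^ 5 * X 1 ^ 2 + 35 * X 0 ^ 3 * X 1 ^ 4 -
      7 * X 0 * X 1 ^ 6) * X 2 : MvPolynomial (Fin 3) ℝ).IsHomogeneous 8 :=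
    ((hc 5600).mul (((s1.sub s2).add s3).sub s4)).mul (hX 2)
  exact ((((t1.add t2).sub t3).add t4).sub t5).add t6

theorem F8_C : F8 = C 35 * (X 0 ^ 2 + X 1 ^ 2) ^ 4 +
    C 131915 * ((X 0 ^ 2 + X 1 ^ 2) ^ 3 * X 2 ^ 2) -
    C 7141680 * ((X 0 ^ 2 + X 1 ^ 2) ^ 2 * X 2 ^ 4) +
    C 94493952 * ((X 0 ^ 2 + X 1 ^ 2) * X 2 ^ 6) - C 373248000 * X 2 ^ 8 +
    C 5600 * ((X 0 ^ 7 - C 21 * (X 0 ^ 5 * X 1 ^ 2) + C 35 * (X 0 ^ 3 * X 1 ^ 4) -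
      C 7 * (X 0 * X 1 ^ 6)) * X 2) := by
  simp only [F8, map_ofNat]
  ring

theorem pC (i : Fin 3) (n : ℕ) [n.AtLeastTwo] :
    pderiv i (ofNat(n) : MvPolynomial (Fin 3) ℝ) = 0 := by
  rw [← map_ofNat (C : ℝ →+* MvPolynomial (Fin 3) ℝ) n]
  exact pderiv_C

theorem aC (v : Fin 3 → ℂ) (n : ℕ) [n.AtLeastTwo] :
    aeval v (ofNat(n) : MvPolynomial (Fin 3) ℝ) = (ofNat(n) : ℂ) := by
  rw [map_ofNat]

theorem d0 (v : Fin 3 → ℂ) : aeval v (pderiv 0 F8) =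
    2 * v 0 * (140 * (v 0 ^ 2 + v 1 ^ 2) ^ 3 + 395745 * (v 0 ^ 2 + v 1 ^ 2) ^ 2 * v 2 ^ 2 -
      14283360 * (v 0 ^ 2 + v 1 ^ 2) * v 2 ^ 4 + 94493952 * v 2 ^ 6) +
    5600 * (7 * v 0 ^ 6 - 105 * v 0 ^ 4 * v 1 ^ 2 + 105 * v 0 ^ 2 * v 1 ^ 4 - 7 * v 1 ^ 6) * v 2 := by
  have h1 : pderiv (0 : Fin 3) (X 1 : MvPolynomial (Fin 3) ℝ) = 0 := pderiv_X_of_ne (by decide)
  have h2 : pderiv (0 : Fin 3) (X 2 : MvPolynomial (Fin 3) ℝ) = 0 := pderiv_X_of_ne (by decide)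
  rw [F8]
  simp only [map_add, map_sub, Derivation.leibniz, Derivation.leibniz_pow, pC,
    pderiv_X_self, h1, h2, smul_eq_mul, map_mul, map_pow, aeval_X, map_zero, map_one,
    nsmul_eq_mul, map_natCast, aC]
  push_cast
  ring

theorem d1 (v : Fin 3 → ℂ) : aeval v (pderiv 1 F8) =
    2 * v 1 * (140 * (v 0 ^ 2 + v 1 ^ 2) ^ 3 + 395745 * (v 0 ^ 2 + v 1 ^ 2) ^ 2 * v 2 ^ 2 -
      14283360 * (v 0 ^ 2 + v 1 ^ 2) * v 2 ^ 4 + 94493952 * v 2 ^ 6) +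
    5600 * (-42 * v 0 ^ 5 * v 1 + 140 * v 0 ^ 3 * v 1 ^ 3 - 42 * v 0 * v 1 ^ 5) * v 2 := by
  have h1 : pderiv (1 : Fin 3) (X 0 : MvPolynomial (Fin 3) ℝ) = 0 := pderiv_X_of_ne (by decide)
  have h2 : pderiv (1 : Fin 3) (X 2 : MvPolynomial (Fin 3) ℝ) = 0 := pderiv_X_of_ne (by decide)
  rw [F8]
  simp only [map_add, map_sub, Derivation.leibniz, Derivation.leibniz_pow, pC,
    pderiv_X_self, h1, h2, smul_eq_mul, map_mul, map_pow, aeval_X, map_zero, map_one,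
    nsmul_eq_mul, map_natCast, aC]
  push_cast
  ring

theorem d2 (v : Fin 3 → ℂ) : aeval v (pderiv 2 F8) =
    263830 * (v 0 ^ 2 + v 1 ^ 2) ^ 3 * v 2 - 28566720 * (v 0 ^ 2 + v 1 ^ 2) ^ 2 * v 2 ^ 3 +
      566963712 * (v 0 ^ 2 + v 1 ^ 2) * v 2 ^ 5 - 2985984000 * v 2 ^ 7 +
    5600 * (v 0 ^ 7 - 21 * v 0 ^ 5 * v 1 ^ 2 + 35 * v 0 ^ 3 * v 1 ^ 4 - 7 * v 0 * v 1 ^ 6) := by
  have h1 : pderiv (2 : Fin 3) (X 1 : MvPolynomial (Fin 3) ℝ) = 0 := pderiv_X_of_ne (by decide)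
  have h2 : pderiv (2 : Fin 3) (X 0 : MvPolynomial (Fin 3) ℝ) = 0 := pderiv_X_of_ne (by decide)
  rw [F8]
  simp only [map_add, map_sub, Derivation.leibniz, Derivation.leibniz_pow, pC,
    pderiv_X_self, h1, h2, smul_eq_mul, map_mul, map_pow, aeval_X, map_zero, map_one,
    nsmul_eq_mul, map_natCast, aC]
  push_cast
  ring

theorem va (v : Fin 3 → ℂ) : aeval v F8 =
    35 * (v 0 ^ 2 + v 1 ^ 2) ^ 4 + 131915 * (v 0 ^ 2 + v 1 ^ 2) ^ 3 * v 2 ^ 2 -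
      7141680 * (v 0 ^ 2 + v 1 ^ 2) ^ 2 * v 2 ^ 4 + 94493952 * (v 0 ^ 2 + v 1 ^ 2) * v 2 ^ 6 -
      373248000 * v 2 ^ 8 +
    5600 * (v 0 ^ 7 - 21 * v 0 ^ 5 * v 1 ^ 2 + 35 * v 0 ^ 3 * v 1 ^ 4 - 7 * v 0 * v 1 ^ 6) * v 2 := by
  simp [F8]

theorem nons : Nonsing F8 := by
  intro v hv h
  by_contra hcon
  push Not at hcon
  have e0 := hcon 0
  have e1 := hcon 1
  have e2 := hcon 2
  rw [d0] at e0
  rw [d1] at e1
  rw [d2] at e2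
  rw [va] at h
  obtain ⟨x, hx⟩ : ∃ x, x = v 0 := ⟨_, rfl⟩
  obtain ⟨y, hy⟩ : ∃ y, y = v 1 := ⟨_, rfl⟩
  obtain ⟨t, ht⟩ : ∃ t, t = v 2 := ⟨_, rfl⟩
  rw [← hx, ← hy, ← ht] at e0 e1 e2 h
  have hI : Complex.I ^ 2 = -1 := Complex.I_sq
  obtain ⟨z, hz⟩ : ∃ z, z = x + Complex.I * y := ⟨_, rfl⟩
  obtain ⟨w, hw⟩ : ∃ w, w = x - Complex.I * y := ⟨_, rfl⟩
  have hxe : x = (z + w) / 2 := by rw [hz, hw]; ring
  have hye : y = (w - z) / 2 * Complex.I := by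
    rw [hz, hw]
    linear_combination y * hI
  obtain ⟨u, hu⟩ : ∃ u, u = x ^ 2 + y ^ 2 := ⟨_, rfl⟩
  have hzw : z * w = u := by
    rw [hz, hw, hu]
    linear_combination (-y ^ 2) * hI
  have hI3 : Complex.I ^ 3 = -Complex.I := Complex.I_pow_three
  have hI4 : Complex.I ^ 4 = 1 := Complex.I_pow_four
  have hI5 : Complex.I ^ 5 = Complex.I := by rw [pow_succ, hI4, one_mul]
  have hI6 : Complex.I ^ 6 = -1 := by rw [pow_succ, hI5, ← sq, hI]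
  have hI7 : Complex.I ^ 7 = -Complex.I := by rw [pow_succ, hI6]; ring
  have hR : x ^ 7 - 21 * x ^ 5 * y ^ 2 + 35 * x ^ 3 * y ^ 4 - 7 * x * y ^ 6 =
      (z ^ 7 + w ^ 7) / 2 := by
    rw [hz, hw]
    ring_nf
    rw [hI, hI4, hI6]
    ring
  rw [← hu] at e0 e1 e2 h
  rw [hR] at e2 h
  obtain ⟨Gu, hGu⟩ : ∃ G, G = 140 * u ^ 3 + 395745 * u ^ 2 * t ^ 2 - 14283360 * u * t ^ 4 +
    94493952 * t ^ 6 := ⟨_, rfl⟩
  rw [← hGu] at e0 e1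
  have E1 : w * Gu + 19600 * z ^ 6 * t = 0 := by
    have e : w * Gu + 19600 * z ^ 6 * t =
        ((2 * x * Gu + 5600 * (7 * x ^ 6 - 105 * x ^ 4 * y ^ 2 + 105 * x ^ 2 * y ^ 4 -
          7 * y ^ 6) * t) - Complex.I * (2 * y * Gu +
          5600 * (-42 * x ^ 5 * y + 140 * x ^ 3 * y ^ 3 - 42 * x * y ^ 5) * t)) / 2 := by
      rw [hz, hw]
      ring_nf
      rw [hI, hI3, hI4, hI5, hI6]
      ring
    rw [e, e0, e1]
    ring
  have E2 : z * Gu + 19600 * w ^ 6 * t = 0 := by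
    have e : z * Gu + 19600 * w ^ 6 * t =
        ((2 * x * Gu + 5600 * (7 * x ^ 6 - 105 * x ^ 4 * y ^ 2 + 105 * x ^ 2 * y ^ 4 -
          7 * y ^ 6) * t) + Complex.I * (2 * y * Gu +
          5600 * (-42 * x ^ 5 * y + 140 * x ^ 3 * y ^ 3 - 42 * x * y ^ 5) * t)) / 2 := by
      rw [hz, hw]
      ring_nf
      rw [hI, hI3, hI4, hI5, hI6]
      ring
    rw [e, e0, e1]
    ring
  by_cases ht0 : t = 0
  · rw [ht0] at h e2
    have hu0 : u = 0 := by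
      have h1 : u ^ 4 = 0 := by linear_combination h / 35
      exact (pow_eq_zero_iff (by norm_num)).1 h1
    have h7 : z ^ 7 + w ^ 7 = 0 := by linear_combination e2 / 2800
    rw [hu0] at hzw
    have hzw0 : z = 0 ∧ w = 0 := by
      rcases mul_eq_zero.1 hzw with h1 | h1
      · refine ⟨h1, ?_⟩
        rw [h1] at h7
        exact (pow_eq_zero_iff (by norm_num : (7 : ℕ) ≠ 0)).1 (by linear_combination h7)
      · refine ⟨?_, h1⟩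
        rw [h1] at h7
        exact (pow_eq_zero_iff (by norm_num : (7 : ℕ) ≠ 0)).1 (by linear_combination h7)
    apply hv
    ext i
    fin_cases i
    · show v 0 = 0
      rw [← hx, hxe, hzw0.1, hzw0.2]; simp
    · show v 1 = 0
      rw [← hy, hye, hzw0.1, hzw0.2]; simp
    · show v 2 = 0
      rw [← ht, ht0]
  · have hq : z ^ 7 = w ^ 7 := by
      have h1 : (19600 * t) * (z ^ 7 - w ^ 7) = 0 := by linear_combination z * E1 - w * E2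
      have h2 : (19600 * t : ℂ) ≠ 0 := mul_ne_zero (by norm_num) ht0
      exact sub_eq_zero.1 ((mul_eq_zero.1 h1).resolve_left h2)
    obtain ⟨q, hqd⟩ : ∃ q, q = z ^ 7 := ⟨_, rfl⟩
    have hu7 : u ^ 7 = q ^ 2 := by
      rw [← hzw, mul_pow, ← hq, ← hqd, sq]
    have huG : u * Gu = -19600 * q * t := by
      rw [hqd, ← hzw]
      linear_combination z * E1
    rw [← hq, ← hqd] at h
    have hL : (u - 9 * t ^ 2) * (u - 16 * t ^ 2) * (u - 144 * t ^ 2) * (u - 3600 * t ^ 2) = 0 := by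
      rw [hGu] at huG
      linear_combination (2 / 35) * huG - (7 / 35) * h
    have key : ∀ ρ : ℂ, u = ρ * t ^ 2 →
        (35 * ρ ^ 4 + 131915 * ρ ^ 3 - 7141680 * ρ ^ 2 + 94493952 * ρ - 373248000) ^ 2 =
          5600 ^ 2 * ρ ^ 7 := by
      intro ρ hρ
      have h1 : (35 * ρ ^ 4 + 131915 * ρ ^ 3 - 7141680 * ρ ^ 2 + 94493952 * ρ - 373248000) * t ^ 8 =
          -(5600 * q * t) := by
        rw [hρ] at h
        linear_combination h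
      have h2 : ((35 * ρ ^ 4 + 131915 * ρ ^ 3 - 7141680 * ρ ^ 2 + 94493952 * ρ - 373248000) ^ 2 -
          5600 ^ 2 * ρ ^ 7) * t ^ 16 = 0 := by
        have h3 : (35 * ρ ^ 4 + 131915 * ρ ^ 3 - 7141680 * ρ ^ 2 + 94493952 * ρ - 373248000) ^ 2 *
            t ^ 16 = 5600 ^ 2 * (q ^ 2 * t ^ 2) := by
          have e : (35 * ρ ^ 4 + 131915 * ρ ^ 3 - 7141680 * ρ ^ 2 + 94493952 * ρ - 373248000) ^ 2 *
            t ^ 16 = ((35 * ρ ^ 4 + 131915 * ρ ^ 3 - 7141680 * ρ ^ 2 + 94493952 * ρ - 373248000) *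
              t ^ 8) ^ 2 := by ring
          rw [e, h1]
          ring
        rw [← hu7, hρ] at h3
        linear_combination h3
      exact sub_eq_zero.1 ((mul_eq_zero.1 h2).resolve_right (pow_ne_zero _ ht0))
    rcases mul_eq_zero.1 hL with hL | hL
    · rcases mul_eq_zero.1 hL with hL | hL
      · rcases mul_eq_zero.1 hL with hL | hL
        · have := key 9 (by linear_combination hL)
          norm_num at this
        · have := key 16 (by linear_combination hL)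
          norm_num at this
      · have := key 144 (by linear_combination hL)
        norm_num at this
    · have := key 3600 (by linear_combination hL)
      norm_num at this

theorem re7 (x y : ℝ) : ((((x : ℂ) + Complex.I * y) ^ 7).re) =
    x ^ 7 - 21 * x ^ 5 * y ^ 2 + 35 * x ^ 3 * y ^ 4 - 7 * x * y ^ 6 := by
  have hI : Complex.I ^ 2 = -1 := Complex.I_sq
  have hI3 : Complex.I ^ 3 = -Complex.I := Complex.I_pow_three
  have hI4 : Complex.I ^ 4 = 1 := Complex.I_pow_four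
  have hI5 : Complex.I ^ 5 = Complex.I := by rw [pow_succ, hI4, one_mul]
  have hI6 : Complex.I ^ 6 = -1 := by rw [pow_succ, hI5, ← sq, hI]
  have hI7 : Complex.I ^ 7 = -Complex.I := by rw [pow_succ, hI6]; ring
  have h : ((x : ℂ) + Complex.I * y) ^ 7 =
      ((x ^ 7 - 21 * x ^ 5 * y ^ 2 + 35 * x ^ 3 * y ^ 4 - 7 * x * y ^ 6 : ℝ) : ℂ) +
      ((7 * x ^ 6 * y - 35 * x ^ 4 * y ^ 3 + 21 * x ^ 2 * y ^ 5 - y ^ 7 : ℝ) : ℂ) * Complex.I := by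
    push_cast
    ring_nf
    rw [hI, hI3, hI4, hI5, hI6, hI7]
    ring
  rw [h]
  simp only [Complex.add_re, Complex.mul_re, Complex.ofReal_re, Complex.ofReal_im, Complex.I_re,
    Complex.I_im]
  ring

theorem inv (v : Fin 3 → ℝ) : eval (rot 7 v) F8 = eval v F8 := by
  have hev : ∀ v : Fin 3 → ℝ, eval v F8 =
      35 * (v 0 ^ 2 + v 1 ^ 2) ^ 4 + 131915 * (v 0 ^ 2 + v 1 ^ 2) ^ 3 * v 2 ^ 2 -
      7141680 * (v 0 ^ 2 + v 1 ^ 2) ^ 2 * v 2 ^ 4 + 94493952 * (v 0 ^ 2 + v 1 ^ 2) * v 2 ^ 6 -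
      373248000 * v 2 ^ 8 +
      5600 * ((((v 0 : ℂ) + Complex.I * v 1) ^ 7).re) * v 2 := by
    intro v
    rw [re7]
    simp [F8]
  rw [hev, hev]
  set c := Real.cos (2 * Real.pi / (7 : ℕ)) with hc
  set s := Real.sin (2 * Real.pi / (7 : ℕ)) with hs
  have hcs : c ^ 2 + s ^ 2 = 1 := by rw [add_comm]; exact Real.sin_sq_add_cos_sq _
  have r0 : rot 7 v 0 = c * v 0 - s * v 1 := rfl
  have r1 : rot 7 v 1 = s * v 0 + c * v 1 := rfl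
  have r2 : rot 7 v 2 = v 2 := rfl
  have hu : (rot 7 v 0) ^ 2 + (rot 7 v 1) ^ 2 = v 0 ^ 2 + v 1 ^ 2 := by
    rw [r0, r1]
    linear_combination (v 0 ^ 2 + v 1 ^ 2) * hcs
  have hz : ((rot 7 v 0 : ℝ) : ℂ) + Complex.I * ((rot 7 v 1 : ℝ) : ℂ) =
      Complex.exp (((2 * Real.pi / (7 : ℕ) : ℝ) : ℂ) * Complex.I) *
        ((v 0 : ℂ) + Complex.I * v 1) := by
    rw [Complex.exp_mul_I, ← Complex.ofReal_cos, ← Complex.ofReal_sin, ← hc, ← hs, r0, r1]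
    push_cast
    linear_combination (-(s : ℂ) * v 1) * Complex.I_sq
  have h7 : Complex.exp (((2 * Real.pi / (7 : ℕ) : ℝ) : ℂ) * Complex.I) ^ 7 = 1 := by
    rw [← Complex.exp_nat_mul, Complex.exp_eq_one_iff]
    refine ⟨1, ?_⟩
    push_cast
    ring
  rw [hu, hz, mul_pow, h7, one_mul, r2]

end EXNP

open EXNP

/-- **Piece EXN.** -/
theorem t_EXN : S_EXN := ⟨hom, nons, inv⟩

end Pool.Agent.H23S
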