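import Pool.Agent.H23S.Stm

/-!
# Project SM, piece LIN: an element of odd order of `PGL(3, ℝ)` is a rotation
-/

set_option autoImplicit false

namespace Pool.Agent.H23S

open Finset Matrix

namespace LINP

abbrev V3 := Fin 3 → ℝ

/-- the triple product -/
def tp (u v w : V3) : ℝ := (Matrix.of ![u, v, w]).det

theorem tp_eq (u v w : V3) : tp u v w =
    u 0 * (v 1 * w 2 - v 2 * w 1) - u 1 * (v 0 * w 2 - v 2 * w 0) +
      u 2 * (v 0 * w 1 - v 1 * w 0) := by
  simp only [tp, Matrix.det_fin_three, Matrix.of_apply, Matrix.cons_val', Matrix.cons_val_zero,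
    Matrix.cons_val_one, Matrix.cons_val]
  ring

theorem row_eq (τ : Module.End ℝ V3) (x : V3) (j : Fin 3) :
    τ x j = (x ᵥ* (LinearMap.toMatrix' τ)ᵀ) j := by
  rw [Matrix.vecMul_transpose, LinearMap.toMatrix'_mulVec]

theorem tp_map (τ : Module.End ℝ V3) (u v w : V3) :
    tp (τ u) (τ v) (τ w) = LinearMap.det τ * tp u v w := by
  have h : Matrix.of ![τ u, τ v, τ w] = Matrix.of ![u, v, w] * (LinearMap.toMatrix' τ)ᵀ := by
    ext i j
    fin_cases i
    · exact row_eq τ u j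
    · exact row_eq τ v j
    · exact row_eq τ w j
  unfold tp
  rw [h, Matrix.det_mul, Matrix.det_transpose, LinearMap.det_toMatrix', mul_comm]

theorem tp_add (u v w w' : V3) : tp u v (w + w') = tp u v w + tp u v w' := by
  simp only [tp_eq, Pi.add_apply]
  ring

theorem tp_sum (u v : V3) {n : ℕ} (w : ℕ → V3) :
    tp u v (∑ j ∈ range n, w j) = ∑ j ∈ range n, tp u v (w j) := by
  induction n with
  | zero => simp [tp_eq]
  | succ n ih => rw [Finset.sum_range_succ, tp_add, ih, Finset.sum_range_succ]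

/-- two vectors with a third one in general position -/
theorem exists_tp {u v : V3} (h : ∀ a b : ℝ, a • u + b • v = 0 → a = 0 ∧ b = 0) :
    ∃ w, tp u v w ≠ 0 := by
  by_contra hcon
  push Not at hcon
  have h0 := hcon ![1, 0, 0]
  have h1 := hcon ![0, 1, 0]
  have h2 := hcon ![0, 0, 1]
  rw [tp_eq] at h0 h1 h2
  simp at h0 h1 h2
  have hu : u = 0 := by
    have k0 := h (v 0) (-u 0) (by
      ext i
      fin_cases i <;> simp <;> linarith)
    have k1 := h (v 1) (-u 1) (by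
      ext i
      fin_cases i <;> simp <;> linarith)
    have k2 := h (v 2) (-u 2) (by
      ext i
      fin_cases i <;> simp <;> linarith)
    ext i
    fin_cases i
    · simpa using k0.2
    · simpa using k1.2
    · simpa using k2.2
  have := (h 1 0 (by rw [hu]; simp)).1
  exact one_ne_zero this

/-- the trigonometric sums -/
theorem sum_cos (m : ℕ) (hm : 0 < m) (j : ℕ) (hj : ¬ m ∣ j) :
    ∑ a ∈ range m, Real.cos (2 * Real.pi * a * j / m) = 0 := by
  have hz : IsPrimitiveRoot (Complex.exp (2 * Real.pi * Complex.I / m)) m :=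
    Complex.isPrimitiveRoot_exp m hm.ne'
  set z := Complex.exp (2 * Real.pi * Complex.I / m) with hzd
  have h1 : ∑ a ∈ range m, (z ^ j) ^ a = 0 := by
    have h2 : z ^ j ≠ 1 := fun h => hj ((hz.pow_eq_one_iff_dvd j).1 h)
    have h3 := mul_neg_geom_sum (z ^ j) m
    rw [← pow_mul, mul_comm j m, pow_mul, hz.pow_eq_one, one_pow, sub_self] at h3
    exact (mul_eq_zero.1 h3).resolve_left (sub_ne_zero.2 (Ne.symm h2))
  have h2 : ∀ a : ℕ, ((z ^ j) ^ a).re = Real.cos (2 * Real.pi * a * j / m) := by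
    intro a
    have e : (z ^ j) ^ a = Complex.exp (((2 * Real.pi * a * j / m : ℝ) : ℂ) * Complex.I) := by
      rw [hzd, ← pow_mul, ← Complex.exp_nat_mul]
      congr 1
      push_cast
      ring
    rw [e, Complex.exp_ofReal_mul_I_re]
  have h3 := congrArg Complex.re h1
  rw [Complex.re_sum] at h3
  simp only [h2, Complex.zero_re] at h3
  exact h3

theorem cyc_sum (m : ℕ) (f : ℕ → V3) (h : f m = f 0) :
    ∑ j ∈ range m, f (j + 1) = ∑ j ∈ range m, f j := by
  have h1 := Finset.sum_range_succ f m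
  have h2 := Finset.sum_range_succ' f m
  rw [h2, h] at h1
  exact add_right_cancel h1

section rotn

variable (τ : Module.End ℝ V3) (m : ℕ)

/-- `∑ cos(θ j) τ ^ j w` -/
noncomputable def cs (θ : ℝ) (w : V3) : V3 := ∑ j ∈ range m, Real.cos (θ * j) • (τ ^ j) w

/-- `∑ sin(θ j) τ ^ j w` -/
noncomputable def sn (θ : ℝ) (w : V3) : V3 := ∑ j ∈ range m, Real.sin (θ * j) • (τ ^ j) w

variable {τ m}

theorem tau_cs (hτ : τ ^ m = 1) {θ : ℝ} (h1 : Real.cos (θ * m) = 1) (h2 : Real.sin (θ * m) = 0)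
    (w : V3) : τ (cs τ m θ w) = Real.cos θ • cs τ m θ w + Real.sin θ • sn τ m θ w := by
  have h3 := cyc_sum m (fun j => Real.cos (θ * j - θ) • (τ ^ j) w) (by
    show Real.cos (θ * m - θ) • (τ ^ m) w = Real.cos (θ * (0 : ℕ) - θ) • (τ ^ 0) w
    rw [hτ, pow_zero, Real.cos_sub, h1, h2]
    simp)
  have h4 : τ (cs τ m θ w) = ∑ j ∈ range m, Real.cos (θ * ((j + 1 : ℕ) : ℝ) - θ) • (τ ^ (j + 1)) w := by
    rw [cs, map_sum]
    refine Finset.sum_congr rfl fun j _ => ?_
    rw [map_smul, pow_succ']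
    congr 2
    push_cast
    ring
  rw [h4, h3, cs, sn, Finset.smul_sum, Finset.smul_sum, ← Finset.sum_add_distrib]
  refine Finset.sum_congr rfl fun j _ => ?_
  rw [Real.cos_sub, smul_smul, smul_smul, ← add_smul]
  congr 1
  ring

theorem tau_sn (hτ : τ ^ m = 1) {θ : ℝ} (h1 : Real.cos (θ * m) = 1) (h2 : Real.sin (θ * m) = 0)
    (w : V3) : τ (sn τ m θ w) = Real.cos θ • sn τ m θ w - Real.sin θ • cs τ m θ w := by
  have h3 := cyc_sum m (fun j => Real.sin (θ * j - θ) • (τ ^ j) w) (by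
    show Real.sin (θ * m - θ) • (τ ^ m) w = Real.sin (θ * (0 : ℕ) - θ) • (τ ^ 0) w
    rw [hτ, pow_zero, Real.sin_sub, h1, h2]
    simp)
  have h4 : τ (sn τ m θ w) = ∑ j ∈ range m, Real.sin (θ * ((j + 1 : ℕ) : ℝ) - θ) • (τ ^ (j + 1)) w := by
    rw [sn, map_sum]
    refine Finset.sum_congr rfl fun j _ => ?_
    rw [map_smul, pow_succ']
    congr 2
    push_cast
    ring
  rw [h4, h3, cs, sn, Finset.smul_sum, Finset.smul_sum, ← Finset.sum_sub_distrib]
  refine Finset.sum_congr rfl fun j _ => ?_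
  rw [Real.sin_sub, smul_smul, smul_smul, ← sub_smul]
  congr 1
  ring

theorem sum_fix (hτ : τ ^ m = 1) (w : V3) :
    τ (∑ j ∈ range m, (τ ^ j) w) = ∑ j ∈ range m, (τ ^ j) w := by
  have h3 := cyc_sum m (fun j => (τ ^ j) w) (by
    show (τ ^ m) w = (τ ^ 0) w
    rw [hτ, pow_zero])
  rw [map_sum, ← h3]
  refine Finset.sum_congr rfl fun j _ => ?_
  rw [pow_succ']
  rfl

theorem exists_cs (hm : 0 < m) (hτ : τ ^ m = 1) (h1 : τ ≠ 1) :
    ∃ a, 0 < a ∧ a < m ∧ ∃ w, cs τ m (2 * Real.pi * a / m) w ≠ 0 := by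
  by_contra hcon
  push Not at hcon
  apply h1
  have hm0 : (m : ℝ) ≠ 0 := by exact_mod_cast hm.ne'
  refine LinearMap.ext fun w => ?_
  have h2 : ∑ a ∈ range m, cs τ m (2 * Real.pi * a / m) w = ∑ j ∈ range m, (τ ^ j) w := by
    rw [Finset.sum_eq_single_of_mem 0 (Finset.mem_range.2 hm)]
    · simp [cs]
    · intro a ha ha0
      exact hcon a (Nat.pos_of_ne_zero ha0) (Finset.mem_range.1 ha) w
  have h3 : ∑ a ∈ range m, cs τ m (2 * Real.pi * a / m) w = (m : ℝ) • w := by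
    unfold cs
    rw [Finset.sum_comm]
    simp_rw [← Finset.sum_smul]
    rw [Finset.sum_eq_single_of_mem 0 (Finset.mem_range.2 hm)]
    · simp
    · intro j hj hj0
      have h4 : ¬ m ∣ j := fun h =>
        absurd (Nat.le_of_dvd (Nat.pos_of_ne_zero hj0) h) (not_le.2 (Finset.mem_range.1 hj))
      have h5 := sum_cos m hm j h4
      have h6 : ∑ i ∈ range m, Real.cos (2 * Real.pi * i / m * j) = 0 := by
        rw [← h5]
        refine Finset.sum_congr rfl fun i _ => ?_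
        congr 1
        ring
      rw [h6, zero_smul]
  have h4 : τ ((m : ℝ) • w) = (m : ℝ) • w := by
    rw [← h3, h2, sum_fix hτ]
  rw [map_smul] at h4
  have h5 := congrArg (fun v : V3 => (m : ℝ)⁻¹ • v) h4
  simpa [smul_smul, inv_mul_cancel₀ hm0] using h5

end rotn

section main

variable {τ : Module.End ℝ V3} {m : ℕ} {c s : ℝ} {v₁ v₂ v₃ : V3}

theorem indep (hs : s ≠ 0) (h1 : τ v₁ = c • v₁ + s • v₂) (h2 : τ v₂ = c • v₂ - s • v₁)
    (hv : v₁ ≠ 0) (α β : ℝ) (h : α • v₁ + β • v₂ = 0) : α = 0 ∧ β = 0 := by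
  have h3 := congrArg τ h
  rw [map_add, map_smul, map_smul, h1, h2, map_zero] at h3
  have h4 : α • v₂ - β • v₁ = 0 := by
    have e : s • (α • v₂ - β • v₁) = (α • (c • v₁ + s • v₂) + β • (c • v₂ - s • v₁)) -
        c • (α • v₁ + β • v₂) := by
      module
    have h5 : s • (α • v₂ - β • v₁) = 0 := by rw [e, h3, h]; simp
    exact (smul_eq_zero.1 h5).resolve_left hs
  have h5 : (α ^ 2 + β ^ 2) • v₁ = 0 := by
    have e : (α ^ 2 + β ^ 2) • v₁ = α • (α • v₁ + β • v₂) - β • (α • v₂ - β • v₁) := by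
      module
    rw [e, h, h4]
    simp
  have h6 := (smul_eq_zero.1 h5).resolve_right hv
  constructor <;> nlinarith [sq_nonneg α, sq_nonneg β]

theorem tp_rot (hcs : c ^ 2 + s ^ 2 = 1) (x : V3) :
    tp (c • v₁ + s • v₂) (c • v₂ - s • v₁) x = tp v₁ v₂ x := by
  simp only [tp_eq, Pi.add_apply, Pi.sub_apply, Pi.smul_apply, smul_eq_mul]
  linear_combination (v₁ 0 * (v₂ 1 * x 2 - v₂ 2 * x 1) - v₁ 1 * (v₂ 0 * x 2 - v₂ 2 * x 0) +
      v₁ 2 * (v₂ 0 * x 1 - v₂ 1 * x 0)) * hcs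

/-- the linear map with the columns `v₁, v₂, v₃` -/
noncomputable def TT (v₁ v₂ v₃ : V3) : Module.End ℝ V3 :=
  (LinearMap.proj 0).smulRight v₁ + (LinearMap.proj 1).smulRight v₂ +
    (LinearMap.proj 2).smulRight v₃

theorem TT_apply (v : V3) : TT v₁ v₂ v₃ v = v 0 • v₁ + v 1 • v₂ + v 2 • v₃ := by
  simp [TT]

theorem TT_inj (hi : ∀ α β : ℝ, α • v₁ + β • v₂ = 0 → α = 0 ∧ β = 0) (h3 : tp v₁ v₂ v₃ ≠ 0) :
    Function.Injective (TT v₁ v₂ v₃) := by
  rw [← LinearMap.ker_eq_bot, LinearMap.ker_eq_bot']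
  intro v hv
  rw [TT_apply] at hv
  have h4 : v 2 * tp v₁ v₂ v₃ = tp v₁ v₂ (v 0 • v₁ + v 1 • v₂ + v 2 • v₃) := by
    simp only [tp_eq, Pi.add_apply, Pi.smul_apply, smul_eq_mul]
    ring
  have h5 : v 2 = 0 := by
    rw [hv] at h4
    have h6 : tp v₁ v₂ 0 = 0 := by simp [tp_eq]
    rw [h6] at h4
    exact (mul_eq_zero.1 h4).resolve_right h3
  rw [h5, zero_smul, add_zero] at hv
  obtain ⟨h6, h7⟩ := hi _ _ hv
  ext i
  fin_cases i
  · exact h6
  · exact h7
  · exact h5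

theorem pow_rot {θ : ℝ} (h1 : τ v₁ = Real.cos θ • v₁ + Real.sin θ • v₂)
    (h2 : τ v₂ = Real.cos θ • v₂ - Real.sin θ • v₁) (h3 : τ v₃ = v₃) (j : ℕ) :
    (τ ^ j) v₁ = Real.cos (j * θ) • v₁ + Real.sin (j * θ) • v₂ ∧
    (τ ^ j) v₂ = Real.cos (j * θ) • v₂ - Real.sin (j * θ) • v₁ ∧ (τ ^ j) v₃ = v₃ := by
  induction j with
  | zero => simp
  | succ j ih =>
    obtain ⟨i1, i2, i3⟩ := ih
    have e : ((j + 1 : ℕ) : ℝ) * θ = j * θ + θ := by push_cast; ring
    rw [e, Real.cos_add, Real.sin_add, pow_succ']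
    refine ⟨?_, ?_, ?_⟩
    · rw [Module.End.mul_apply, i1, map_add, map_smul, map_smul, h1, h2]
      module
    · rw [Module.End.mul_apply, i2, map_sub, map_smul, map_smul, h1, h2]
      module
    · rw [Module.End.mul_apply, i3, h3]

end main

/-- the case `σ ^ m = 1` -/
theorem core {m : ℕ} (hodd : Odd m) (hm : 3 ≤ m) (τ : Module.End ℝ V3) (hτ : τ ^ m = 1)
    (hj : ∀ j, 0 < j → j < m → τ ^ j ≠ 1) :
    ∃ (T : V3 ≃ₗ[ℝ] V3) (j : ℕ), ∀ v, (τ ^ j) (T v) = T (rot m v) := by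
  have hm0 : 0 < m := by omega
  have hmR : (m : ℝ) ≠ 0 := by exact_mod_cast hm0.ne'
  obtain ⟨a, ha0, ham, w, hw⟩ := exists_cs hm0 hτ (by
    have := hj 1 one_pos (by omega)
    rwa [pow_one] at this)
  obtain ⟨θ, hθ⟩ : ∃ θ : ℝ, θ = 2 * Real.pi * a / m := ⟨_, rfl⟩
  have hθm : θ * m = a * (2 * Real.pi) := by rw [hθ]; field_simp
  have hc : Real.cos (θ * m) = 1 := by rw [hθm]; exact Real.cos_nat_mul_two_pi a
  have hs : Real.sin (θ * m) = 0 := by
    rw [hθm]
    have := Real.sin_nat_mul_pi (2 * a)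
    push_cast at this
    rw [← this]
    congr 1
    ring
  rw [← hθ] at hw
  set v₁ := cs τ m θ w with hv₁
  set v₂ := sn τ m θ w with hv₂
  have h1 : τ v₁ = Real.cos θ • v₁ + Real.sin θ • v₂ := tau_cs hτ hc hs w
  have h2 : τ v₂ = Real.cos θ • v₂ - Real.sin θ • v₁ := tau_sn hτ hc hs w
  have hsin : Real.sin θ ≠ 0 := by
    intro h
    obtain ⟨n, hn⟩ := Real.sin_eq_zero_iff.1 h
    rw [hθ] at hn
    have h3 : (n : ℝ) * m = 2 * a := by
      have hpi := Real.pi_ne_zero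
      field_simp at hn
      linarith
    have h4 : (m : ℤ) ∣ 2 * a := ⟨n, by
      have : ((n * m : ℤ) : ℝ) = ((2 * a : ℤ) : ℝ) := by push_cast; exact h3
      have h5 : n * m = 2 * a := by exact_mod_cast this
      linarith⟩
    have h5 : m ∣ 2 * a := by exact_mod_cast h4
    have h6 : m ∣ a := (Nat.Coprime.dvd_mul_left (by
      exact (Nat.coprime_two_right.2 hodd))).1 h5
    exact absurd (Nat.le_of_dvd ha0 h6) (not_le.2 ham)
  have hi := indep hsin h1 h2 hw
  obtain ⟨x, hx⟩ := exists_tp hi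
  have hdet : LinearMap.det τ = 1 := by
    have h3 : LinearMap.det τ ^ m = 1 ^ m := by
      rw [← map_pow, hτ, map_one, one_pow]
    exact hodd.strictMono_pow.injective h3
  have htp : ∀ y, tp v₁ v₂ (τ y) = tp v₁ v₂ y := by
    intro y
    have h3 := tp_map τ v₁ v₂ y
    rw [hdet, one_mul, h1, h2, tp_rot (by rw [add_comm]; exact Real.sin_sq_add_cos_sq θ)] at h3
    exact h3
  have htpj : ∀ (j : ℕ) y, tp v₁ v₂ ((τ ^ j) y) = tp v₁ v₂ y := by
    intro j
    induction j with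
    | zero => intro y; simp
    | succ j ih => intro y; rw [pow_succ', Module.End.mul_apply, htp, ih]
  set v₃ : V3 := ∑ j ∈ range m, (τ ^ j) x with hv₃
  have h3 : τ v₃ = v₃ := sum_fix hτ x
  have hv3 : tp v₁ v₂ v₃ ≠ 0 := by
    rw [hv₃, tp_sum]
    simp only [htpj, Finset.sum_const, Finset.card_range, nsmul_eq_mul]
    exact mul_ne_zero hmR hx
  have hinj := TT_inj hi hv3
  obtain ⟨T, hT⟩ : ∃ T : V3 ≃ₗ[ℝ] V3, ∀ v, T v = v 0 • v₁ + v 1 • v₂ + v 2 • v₃ :=
    ⟨LinearEquiv.ofInjectiveEndo _ hinj, fun v => TT_apply v⟩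
  have hpow := fun j => pow_rot (v₃ := v₃) h1 h2 h3 j
  have hcop : Nat.Coprime a m := by
    by_contra hcon
    set d := Nat.gcd a m with hd
    have hd1 : d ≠ 1 := hcon
    have hd0 : 0 < d := Nat.gcd_pos_of_pos_left _ ha0
    obtain ⟨a', ha'⟩ := Nat.gcd_dvd_left a m
    obtain ⟨m', hm'⟩ := Nat.gcd_dvd_right a m
    rw [← hd] at ha' hm'
    have hm'0 : 0 < m' := by
      rcases Nat.eq_zero_or_pos m' with h | h
      · rw [h, mul_zero] at hm'; omega
      · exact h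
    have hlt : m' < m := by
      have : 2 ≤ d := by omega
      nlinarith
    apply hj m' hm'0 hlt
    have hang : (m' : ℝ) * θ = a' * (2 * Real.pi) := by
      rw [hθ]
      have e1 : (a : ℝ) = d * a' := by exact_mod_cast ha'
      have e2 : (m : ℝ) = d * m' := by exact_mod_cast hm'
      have hd' : (d : ℝ) ≠ 0 := by exact_mod_cast hd0.ne'
      have hm'' : (m' : ℝ) ≠ 0 := by exact_mod_cast hm'0.ne'
      rw [e1, e2]
      field_simp
    have hcos : Real.cos (m' * θ) = 1 := by rw [hang]; exact Real.cos_nat_mul_two_pi a'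
    have hsin' : Real.sin (m' * θ) = 0 := by
      rw [hang]
      have := Real.sin_nat_mul_pi (2 * a')
      push_cast at this
      rw [← this]
      congr 1
      ring
    obtain ⟨p1, p2, p3⟩ := hpow m'
    rw [hcos, hsin'] at p1 p2
    refine LinearMap.ext fun y => ?_
    obtain ⟨v, rfl⟩ := T.surjective y
    rw [hT, map_add, map_add, map_smul, map_smul, map_smul, p1, p2, p3, Module.End.one_apply]
    simp
  obtain ⟨j, -, hjm⟩ := Nat.exists_mul_mod_eq_one_of_coprime hcop (by omega)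
  refine ⟨T, j, fun v => ?_⟩
  have hang : (j : ℝ) * θ = 2 * Real.pi / m + (a * j / m : ℕ) * (2 * Real.pi) := by
    have e1 : ((a * j : ℕ) : ℝ) = m * (a * j / m : ℕ) + 1 := by
      have h4 := Nat.div_add_mod (a * j) m
      rw [hjm] at h4
      have h5 : ((a * j : ℕ) : ℝ) = ((m * (a * j / m) + 1 : ℕ) : ℝ) := by rw [h4]
      rw [h5]
      push_cast
      ring
    rw [hθ]
    push_cast at e1
    have e2 : (j : ℝ) * (2 * Real.pi * a / m) = 2 * Real.pi * (a * j) / m := by ring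
    rw [e2, e1]
    field_simp
    ring
  have hcos : Real.cos (j * θ) = Real.cos (2 * Real.pi / m) := by
    rw [hang]; exact Real.cos_add_nat_mul_two_pi _ _
  have hsin' : Real.sin (j * θ) = Real.sin (2 * Real.pi / m) := by
    rw [hang]; exact Real.sin_add_nat_mul_two_pi _ _
  obtain ⟨p1, p2, p3⟩ := hpow j
  rw [hcos, hsin'] at p1 p2
  rw [hT, hT, map_add, map_add, map_smul, map_smul, map_smul, p1, p2, p3]
  have r0 : rot m v 0 = Real.cos (2 * Real.pi / m) * v 0 - Real.sin (2 * Real.pi / m) * v 1 := rfl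
  have r1 : rot m v 1 = Real.sin (2 * Real.pi / m) * v 0 + Real.cos (2 * Real.pi / m) * v 1 := rfl
  have r2 : rot m v 2 = v 2 := rfl
  rw [r0, r1, r2]
  module

end LINP

open LINP

/-- **Piece LIN.** -/
theorem t_LIN : S_LIN := by
  rintro m σ hodd hm hinj ⟨l, hl⟩ hns
  have hm0 : m ≠ 0 := by omega
  have hl0 : l ≠ 0 := by
    rintro rfl
    have h1 : ∀ (j : ℕ), Function.Injective (σ ^ j) := by
      intro j
      rw [Module.End.coe_pow]
      exact hinj.iterate j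
    have h2 : (σ ^ m) ![1, 0, 0] = (σ ^ m) 0 := by rw [hl]; simp
    have h3 := congrFun (h1 m h2) 0
    simp at h3
  obtain ⟨r, hr⟩ : ∃ r : ℝ, r ^ m = l := by
    rcases le_total 0 l with h | h
    · exact ⟨l ^ ((m : ℝ)⁻¹), Real.rpow_inv_natCast_pow h hm0⟩
    · refine ⟨-((-l) ^ ((m : ℝ)⁻¹)), ?_⟩
      rw [hodd.neg_pow, Real.rpow_inv_natCast_pow (by linarith) hm0, neg_neg]
  have hr0 : r ≠ 0 := by
    rintro rfl
    rw [zero_pow hm0] at hr
    exact hl0 hr.symm
  have hτ : (r⁻¹ • σ) ^ m = 1 := by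
    refine LinearMap.ext fun v => ?_
    rw [smul_pow, LinearMap.smul_apply, hl, smul_smul, inv_pow, hr, inv_mul_cancel₀ hl0, one_smul]
    rfl
  obtain ⟨T, j, hT⟩ := core hodd hm (r⁻¹ • σ) hτ (fun j h0 hj hcon => by
    apply hns j h0 hj
    refine ⟨r ^ j, fun v => ?_⟩
    have h1 := LinearMap.congr_fun hcon v
    rw [smul_pow, LinearMap.smul_apply, Module.End.one_apply] at h1
    calc (σ ^ j) v = r ^ j • (r⁻¹ ^ j • (σ ^ j) v) := by
          rw [smul_smul, inv_pow, mul_inv_cancel₀ (pow_ne_zero _ hr0), one_smul]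
      _ = r ^ j • v := by rw [h1])
  refine ⟨T, j, r ^ j, pow_ne_zero _ hr0, fun v => ?_⟩
  rw [← hT, smul_pow, LinearMap.smul_apply, smul_smul, inv_pow,
    mul_inv_cancel₀ (pow_ne_zero _ hr0), one_smul]

end Pool.Agent.H23S
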