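import Pool.Agent.H23S.Stm

/-! Project SM (helper23), piece MIN: every component contains a point with `|z| ^ 2` an entry
radius. -/

set_option autoImplicit false

open Polynomial Set Topology

namespace Pool.Agent.H23S

namespace Min

variable {g : ℝ[X]} {c : ℂ[X]} {m : ℕ}

theorem mem_Zs (g : ℝ[X]) (c : ℂ[X]) (m : ℕ) (z : ℂ) :
    z ∈ Zs g c m ↔ g.eval (‖z‖ ^ 2) + (c.eval ((‖z‖ ^ 2 : ℝ) : ℂ) * z ^ m).re = 0 := Iff.rfl

theorem cont_c (c : ℂ[X]) : Continuous fun R : ℝ => c.eval (R : ℂ) :=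
  c.continuous.comp Complex.continuous_ofReal

theorem cont_D (g : ℝ[X]) (c : ℂ[X]) (m : ℕ) : Continuous (Dv g c m) := by
  unfold Dv
  exact (g.continuous.pow 2).sub ((continuous_id.pow m).mul ((cont_c c).norm.pow 2))

theorem closed_Zs (g : ℝ[X]) (c : ℂ[X]) (m : ℕ) : IsClosed (Zs g c m) := by
  have h1 : Continuous fun z : ℂ => ‖z‖ ^ 2 := continuous_norm.pow 2
  have h2 : Continuous fun z : ℂ => g.eval (‖z‖ ^ 2) +
      (c.eval ((‖z‖ ^ 2 : ℝ) : ℂ) * z ^ m).re :=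
    (g.continuous.comp h1).add (Complex.continuous_re.comp
      (((cont_c c).comp h1).mul (continuous_id.pow m)))
  exact isClosed_eq h2 continuous_const

theorem sq_eq {z : ℂ} : (‖z‖ ^ m) ^ 2 = (‖z‖ ^ 2) ^ m := by
  rw [← pow_mul, ← pow_mul, mul_comm]

/-- the imaginary part of `c z ^ m` on the curve -/
theorem im_sq {z : ℂ} (hz : z ∈ Zs g c m) :
    (c.eval ((‖z‖ ^ 2 : ℝ) : ℂ) * z ^ m).im ^ 2 = -Dv g c m (‖z‖ ^ 2) := by
  have h1 := (mem_Zs g c m z).1 hz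
  have h2 := Complex.sq_norm (c.eval ((‖z‖ ^ 2 : ℝ) : ℂ) * z ^ m)
  rw [Complex.normSq_apply, norm_mul, norm_pow, mul_pow, sq_eq] at h2
  have h3 : (c.eval ((‖z‖ ^ 2 : ℝ) : ℂ) * z ^ m).re = -g.eval (‖z‖ ^ 2) := by linarith
  rw [h3] at h2
  unfold Dv
  nlinarith

theorem D_le {z : ℂ} (hz : z ∈ Zs g c m) : Dv g c m (‖z‖ ^ 2) ≤ 0 := by
  have h1 := im_sq hz
  have h2 := sq_nonneg (c.eval ((‖z‖ ^ 2 : ℝ) : ℂ) * z ^ m).im
  linarith

/-- the descent -/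
theorem descend (hm : 1 ≤ m) {z₀ : ℂ} (hz₀ : z₀ ∈ Zs g c m) (h0 : z₀ ≠ 0) {δ : ℝ} (hδ : 0 < δ)
    (hD : ∀ R, ‖z₀‖ ^ 2 - δ ≤ R → R ≤ ‖z₀‖ ^ 2 → Dv g c m R ≤ 0)
    (hc : c.eval ((‖z₀‖ ^ 2 : ℝ) : ℂ) ≠ 0) :
    ∃ w ∈ connectedComponentIn (Zs g c m) z₀, ‖w‖ ^ 2 < ‖z₀‖ ^ 2 := by
  have hm0 : m ≠ 0 := by omega
  have hmC : (m : ℂ) ≠ 0 := by exact_mod_cast hm0
  obtain ⟨R₀, hR₀⟩ : ∃ R₀ : ℝ, R₀ = ‖z₀‖ ^ 2 := ⟨_, rfl⟩
  have hR₀pos : 0 < R₀ := by rw [hR₀]; exact pow_pos (norm_pos_iff.2 h0) 2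
  -- the sign
  obtain ⟨ε, hε, him⟩ : ∃ ε : ℝ, ε * ε = 1 ∧ (c.eval ((‖z₀‖ ^ 2 : ℝ) : ℂ) * z₀ ^ m).im =
      ε * Real.sqrt (-Dv g c m R₀) := by
    have h1 := im_sq hz₀
    rw [← hR₀, ← Real.sq_sqrt (show 0 ≤ -Dv g c m R₀ from by rw [hR₀]; linarith [D_le hz₀])] at h1
    rcases sq_eq_sq_iff_eq_or_eq_neg.1 h1 with h | h
    · exact ⟨1, by norm_num, by rw [one_mul, ← h, hR₀]⟩
    · exact ⟨-1, by norm_num, by rw [neg_one_mul, ← h, hR₀]⟩
  rw [← hR₀] at hD hc him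
  let v : ℝ → ℂ := fun R => (((-(g.eval R) : ℝ) : ℂ) +
    ((ε * Real.sqrt (-Dv g c m R) : ℝ) : ℂ) * Complex.I) / c.eval (R : ℂ)
  have hcv : ∀ R : ℝ, c.eval (R : ℂ) ≠ 0 → c.eval (R : ℂ) * v R =
      ((-(g.eval R) : ℝ) : ℂ) + ((ε * Real.sqrt (-Dv g c m R) : ℝ) : ℂ) * Complex.I := by
    intro R hR
    exact mul_div_cancel₀ _ hR
  have hv₀ : v R₀ = z₀ ^ m := by
    refine mul_left_cancel₀ hc ?_
    rw [hcv R₀ hc]
    have h1 := (mem_Zs g c m z₀).1 hz₀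
    rw [← hR₀] at h1
    apply Complex.ext
    · simp only [Complex.add_re, Complex.ofReal_re, Complex.re_ofReal_mul, Complex.I_re, mul_zero,
        add_zero]
      linarith
    · rw [him]
      simp only [Complex.add_im, Complex.ofReal_im, Complex.im_ofReal_mul, Complex.I_im, mul_one,
        zero_add]
  have hvn : ∀ R : ℝ, c.eval (R : ℂ) ≠ 0 → Dv g c m R ≤ 0 → ‖v R‖ ^ 2 = R ^ m := by
    intro R hR hDR
    have h1 : ‖c.eval (R : ℂ)‖ ^ 2 * ‖v R‖ ^ 2 = ‖c.eval (R : ℂ)‖ ^ 2 * R ^ m := by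
      rw [← mul_pow, ← norm_mul, hcv R hR, Complex.sq_norm, Complex.normSq_add_mul_I]
      have h2 : (ε * Real.sqrt (-Dv g c m R)) ^ 2 = -Dv g c m R := by
        rw [mul_pow, sq ε, hε, one_mul, Real.sq_sqrt (by linarith)]
      rw [h2]
      unfold Dv
      ring
    exact mul_left_cancel₀ (pow_ne_zero 2 (norm_ne_zero_iff.2 hR)) h1
  have hv₀0 : v R₀ ≠ 0 := by rw [hv₀]; exact pow_ne_zero _ h0
  have hnum : Continuous fun R : ℝ => (((-(g.eval R) : ℝ) : ℂ) +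
      ((ε * Real.sqrt (-Dv g c m R) : ℝ) : ℂ) * Complex.I) :=
    (Complex.continuous_ofReal.comp g.continuous.neg).add ((Complex.continuous_ofReal.comp
      (continuous_const.mul (Real.continuous_sqrt.comp (cont_D g c m).neg))).mul continuous_const)
  have hvc : ∀ R : ℝ, c.eval (R : ℂ) ≠ 0 → ContinuousAt v R := fun R hR =>
    hnum.continuousAt.div (cont_c c).continuousAt hR
  -- a small interval
  have hev1 : ∀ᶠ R in 𝓝 R₀, c.eval ((R : ℝ) : ℂ) ≠ 0 := (cont_c c).continuousAt.eventually_ne hc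
  have hev2 : ∀ᶠ R in 𝓝 R₀, v R / v R₀ ∈ Complex.slitPlane := by
    have h1 : ContinuousAt (fun R => v R / v R₀) R₀ := (hvc R₀ hc).div_const _
    refine h1.eventually_mem ?_
    rw [div_self hv₀0]
    exact Complex.isOpen_slitPlane.mem_nhds Complex.one_mem_slitPlane
  obtain ⟨η, hη, hball⟩ := Metric.eventually_nhds_iff.1 (hev1.and hev2)
  obtain ⟨κ, hκ, hκη, hκδ, hκR⟩ : ∃ κ : ℝ, 0 < κ ∧ κ < η ∧ κ ≤ δ ∧ κ < R₀ := by
    refine ⟨min (η / 2) (min δ (R₀ / 2)), ?_, ?_, ?_, ?_⟩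
    · exact lt_min (by linarith) (lt_min hδ (by linarith))
    · exact (min_le_left _ _).trans_lt (by linarith)
    · exact (min_le_right _ _).trans (min_le_left _ _)
    · exact ((min_le_right _ _).trans (min_le_right _ _)).trans_lt (by linarith)
  have hin : ∀ R ∈ Icc (R₀ - κ) R₀, c.eval (R : ℂ) ≠ 0 ∧ v R / v R₀ ∈ Complex.slitPlane ∧
      Dv g c m R ≤ 0 ∧ 0 < R := by
    intro R hR
    have h1 : dist R R₀ < η := by
      rw [Real.dist_eq, abs_sub_comm, abs_of_nonneg (by linarith [hR.2])]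
      linarith [hR.1]
    exact ⟨(hball h1).1, (hball h1).2, hD R (by linarith [hR.1]) hR.2, by linarith [hR.1]⟩
  let f : ℝ → ℂ := fun R => z₀ * Complex.exp (Complex.log (v R / v R₀) / m)
  have hf : ContinuousOn f (Icc (R₀ - κ) R₀) := by
    intro R hR
    obtain ⟨h1, h2, _, _⟩ := hin R hR
    have h3 : ContinuousAt (fun R => Complex.log (v R / v R₀)) R :=
      ((hvc R h1).div_const _).clog h2
    exact (continuousAt_const.mul ((h3.div_const _).cexp)).continuousWithinAt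
  have hfm : ∀ R ∈ Icc (R₀ - κ) R₀, f R ^ m = v R := by
    intro R hR
    obtain ⟨h1, h2, _, _⟩ := hin R hR
    show (z₀ * Complex.exp (Complex.log (v R / v R₀) / m)) ^ m = v R
    rw [mul_pow, ← Complex.exp_nat_mul, mul_div_cancel₀ _ hmC, Complex.exp_log
      (Complex.slitPlane_ne_zero h2), ← hv₀, mul_div_cancel₀ _ hv₀0]
  have hfn : ∀ R ∈ Icc (R₀ - κ) R₀, ‖f R‖ ^ 2 = R := by
    intro R hR
    obtain ⟨h1, _, h3, h4⟩ := hin R hR
    have h5 : (‖f R‖ ^ 2) ^ m = R ^ m := by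
      rw [← sq_eq, ← norm_pow, hfm R hR, hvn R h1 h3]
    exact (pow_left_inj₀ (by positivity) h4.le hm0).1 h5
  have hfZ : ∀ R ∈ Icc (R₀ - κ) R₀, f R ∈ Zs g c m := by
    intro R hR
    rw [mem_Zs, hfn R hR, hfm R hR, hcv R (hin R hR).1]
    simp only [Complex.add_re, Complex.ofReal_re, Complex.re_ofReal_mul, Complex.I_re, mul_zero,
      add_zero]
    ring
  have hR₀mem : R₀ ∈ Icc (R₀ - κ) R₀ := ⟨by linarith, le_refl _⟩
  have hRκmem : R₀ - κ ∈ Icc (R₀ - κ) R₀ := ⟨le_refl _, by linarith⟩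
  have hf₀ : f R₀ = z₀ := by
    show z₀ * Complex.exp (Complex.log (v R₀ / v R₀) / m) = z₀
    rw [div_self hv₀0, Complex.log_one, zero_div, Complex.exp_zero, mul_one]
  have hpre : IsPreconnected (f '' Icc (R₀ - κ) R₀) := isPreconnected_Icc.image _ hf
  have hsub : f '' Icc (R₀ - κ) R₀ ⊆ Zs g c m := by
    rintro z ⟨R, hR, rfl⟩
    exact hfZ R hR
  refine ⟨f (R₀ - κ), hpre.subset_connectedComponentIn ⟨R₀, hR₀mem, hf₀⟩ hsub
    (mem_image_of_mem _ hRκmem), ?_⟩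
  rw [hfn _ hRκmem, ← hR₀]
  linarith

theorem compact_comp (hB : ∃ B : ℝ, ∀ R, B < R → 0 < Dv g c m R) {z : ℂ} (hz : z ∈ Zs g c m) :
    IsCompact (connectedComponentIn (Zs g c m) z) := by
  obtain ⟨B, hB⟩ := hB
  have h1 : IsClosed (connectedComponentIn (Zs g c m) z) := by
    refine isClosed_of_closure_subset ?_
    refine (isPreconnected_connectedComponentIn.closure).subset_connectedComponentIn
      (subset_closure (mem_connectedComponentIn hz)) ?_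
    exact closure_minimal (connectedComponentIn_subset _ _) (closed_Zs g c m)
  refine Metric.isCompact_of_isClosed_isBounded h1 ?_
  refine (Metric.isBounded_closedBall (x := (0 : ℂ)) (r := Real.sqrt B)).subset ?_
  intro w hw
  have h2 := D_le (connectedComponentIn_subset _ _ hw)
  have h3 : ‖w‖ ^ 2 ≤ B := by
    by_contra h
    have := hB _ (not_le.1 h)
    linarith
  rw [mem_closedBall_zero_iff]
  exact Real.le_sqrt_of_sq_le h3

end Min

open Pool.Agent.H23S.Min in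
theorem t_MIN : S_MIN := by
  intro g c m hm hg0 hB hgc z hz
  obtain ⟨z₀, hz₀, hmin⟩ := (compact_comp hB hz).exists_isMinOn ⟨z, mem_connectedComponentIn hz⟩
    continuous_norm.continuousOn
  have hz₀Z : z₀ ∈ Zs g c m := connectedComponentIn_subset _ _ hz₀
  have h0 : z₀ ≠ 0 := by
    rintro rfl
    have h1 := (mem_Zs g c m 0).1 hz₀Z
    rw [norm_zero, zero_pow (by norm_num : (2 : ℕ) ≠ 0), zero_pow (by omega : m ≠ 0), mul_zero,
      Complex.zero_re, add_zero] at h1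
    exact hg0 h1
  have hpos : 0 < ‖z₀‖ ^ 2 := pow_pos (norm_pos_iff.2 h0) 2
  have hle := D_le hz₀Z
  have hc : c.eval ((‖z₀‖ ^ 2 : ℝ) : ℂ) ≠ 0 := by
    intro hc0
    have h1 : g.eval (‖z₀‖ ^ 2) = 0 := by
      unfold Dv at hle
      rw [hc0, norm_zero] at hle
      have : g.eval (‖z₀‖ ^ 2) ^ 2 ≤ 0 := by nlinarith
      exact pow_eq_zero_iff (two_ne_zero) |>.1 (le_antisymm this (sq_nonneg _))
    exact hgc _ hpos h1 hc0
  have key : ∀ δ : ℝ, 0 < δ → (∀ R, ‖z₀‖ ^ 2 - δ ≤ R → R ≤ ‖z₀‖ ^ 2 → Dv g c m R ≤ 0) → False := by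
    intro δ hδ hD
    obtain ⟨w, hw, hlt⟩ := descend hm hz₀Z h0 hδ hD hc
    rw [← connectedComponentIn_eq hz₀] at hw
    have h1 : ‖z₀‖ ≤ ‖w‖ := hmin hw
    have h2 : ‖z₀‖ ^ 2 ≤ ‖w‖ ^ 2 := pow_le_pow_left₀ (norm_nonneg _) h1 2
    linarith
  refine ⟨z₀, hz₀, hpos, ?_, ?_⟩
  · by_contra hne
    have hlt : Dv g c m (‖z₀‖ ^ 2) < 0 := lt_of_le_of_ne hle hne
    have hev : ∀ᶠ R in 𝓝 (‖z₀‖ ^ 2), Dv g c m R < 0 :=
      (cont_D g c m).continuousAt.eventually_lt continuousAt_const hlt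
    obtain ⟨η, hη, hball⟩ := Metric.eventually_nhds_iff.1 hev
    refine key (η / 2) (by linarith) fun R hR1 hR2 => (hball ?_).le
    rw [Real.dist_eq, abs_sub_comm, abs_of_nonneg (by linarith)]
    linarith
  · intro δ hδ
    by_contra hno
    push Not at hno
    refine key (δ / 2) (by linarith) fun R hR1 hR2 => ?_
    rcases eq_or_lt_of_le hR2 with h | h
    · rw [h]; exact hle
    · exact hno R (by linarith) h

end Pool.Agent.H23S
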