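import Pool.Agent.H23S.Stm
set_option autoImplicit false

namespace Pool.Agent.H23S

namespace NF

open MvPolynomial ComplexConjugate

/-- the point of space with `x + i y = z` -/
def pt (z : ℂ) (t : ℝ) : Fin 3 → ℝ := ![z.re, z.im, t]

lemma exists_G (n : ℕ) (F : MvPolynomial (Fin 3) ℝ) (hF : F.IsHomogeneous n) :
    ∃ G : MvPolynomial (Fin 3) ℂ, G.IsHomogeneous n ∧
      ∀ (z : ℂ) (t : ℝ), ((eval (pt z t) F : ℝ) : ℂ) = eval ![z, conj z, (t : ℂ)] G := by
  refine ⟨eval₂ (C.comp (algebraMap ℝ ℂ))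
    ![C (1 / 2) * (X 0 + X 1), C (1 / (2 * Complex.I)) * (X 0 - X 1), X 2] F, ?_, ?_⟩
  · have h1 := hF.eval₂ (C.comp (algebraMap ℝ ℂ))
      ![C (1 / 2) * (X 0 + X 1), C (1 / (2 * Complex.I)) * (X 0 - X 1), (X 2 : MvPolynomial (Fin 3) ℂ)]
      (n := 1) (fun r => isHomogeneous_C _ _) (by
        intro i
        fin_cases i
        · simpa using (isHomogeneous_C (Fin 3) (1 / 2 : ℂ)).mul
            ((isHomogeneous_X ℂ (0 : Fin 3)).add (isHomogeneous_X ℂ (1 : Fin 3)))
        · simpa using (isHomogeneous_C (Fin 3) (1 / (2 * Complex.I) : ℂ)).mul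
            ((isHomogeneous_X ℂ (0 : Fin 3)).sub (isHomogeneous_X ℂ (1 : Fin 3)))
        · simpa using isHomogeneous_X ℂ (2 : Fin 3))
    rwa [one_mul] at h1
  · intro z t
    rw [eval₂_comp_left]
    have h1 : ((eval (pt z t) F : ℝ) : ℂ) = Complex.ofRealHom (eval₂ (RingHom.id ℝ) (pt z t) F) := rfl
    rw [h1, eval₂_comp_left]
    congr 1
    · ext r
      simp
    · ext i
      fin_cases i
      · simp only [pt, Function.comp_apply, Fin.zero_eta, Fin.isValue, Matrix.cons_val_zero,
          Complex.ofRealHom_eq_coe, map_mul, eval_C, map_add, eval_X, Matrix.cons_val_one]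
        rw [Complex.add_conj]
        push_cast
        ring
      · simp only [pt, Function.comp_apply, Fin.mk_one, Fin.isValue, Matrix.cons_val_one,
          Matrix.cons_val_zero, Complex.ofRealHom_eq_coe, map_mul, eval_C, map_sub, eval_X]
        rw [Complex.sub_conj]
        have : Complex.I ≠ 0 := Complex.I_ne_zero
        field_simp
        push_cast
        ring
      · simp [pt]

lemma rot_pt (m : ℕ) (z : ℂ) (t : ℝ) :
    rot m (pt z t) = pt (Complex.exp (2 * Real.pi * Complex.I / m) * z) t := by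
  have h1 : (2 * Real.pi * Complex.I / m : ℂ) = ((2 * Real.pi / m : ℝ) : ℂ) * Complex.I := by
    push_cast
    ring
  rw [h1]
  have h2 := Complex.exp_ofReal_mul_I_re (2 * Real.pi / m)
  have h3 := Complex.exp_ofReal_mul_I_im (2 * Real.pi / m)
  ext i
  fin_cases i
  · simp only [rot, pt, Fin.zero_eta, Fin.isValue, Matrix.cons_val_zero, Matrix.cons_val_one,
      Complex.mul_re, h2, h3]
  · simp only [rot, pt, Fin.mk_one, Fin.isValue, Matrix.cons_val_zero, Matrix.cons_val_one,
      Complex.mul_im, h2, h3]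
    ring
  · simp [rot, pt]

lemma inv_pow (m : ℕ) (F : MvPolynomial (Fin 3) ℝ)
    (hinv : ∀ v, eval (rot m v) F = eval v F) (z : ℂ) (t : ℝ) (j : ℕ) :
    eval (pt (Complex.exp (2 * Real.pi * Complex.I / m) ^ j * z) t) F = eval (pt z t) F := by
  induction j with
  | zero => simp
  | succ j ih =>
    rw [← ih, ← hinv (pt (Complex.exp (2 * Real.pi * Complex.I / m) ^ j * z) t), rot_pt, pow_succ']
    ring_nf

lemma avg (k m a b : ℕ) (hkm : k < m) (hab : a + b ≤ 2 * k) :
    ∑ j ∈ Finset.range m, (Complex.exp (2 * Real.pi * Complex.I / m) ^ j) ^ a *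
      (conj (Complex.exp (2 * Real.pi * Complex.I / m) ^ j)) ^ b =
      if a = b ∨ a = b + m ∨ b = a + m then (m : ℂ) else 0 := by
  have hm : m ≠ 0 := by omega
  have hprim := Complex.isPrimitiveRoot_exp m hm
  set ζ := Complex.exp (2 * Real.pi * Complex.I / m) with hζ
  have hnorm : ζ * conj ζ = 1 := by
    rw [Complex.mul_conj, Complex.normSq_eq_norm_sq]
    have : ‖ζ‖ = 1 := by
      have h1 := hprim.norm'_eq_one hm
      exact h1
    rw [this]
    simp
  have hterm : ∀ j, (ζ ^ j) ^ a * (conj (ζ ^ j)) ^ b = (ζ ^ a * (conj ζ) ^ b) ^ j := by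
    intro j
    rw [map_pow, mul_pow, ← pow_mul, ← pow_mul, ← pow_mul, ← pow_mul, mul_comm j a, mul_comm j b]
  simp only [hterm]
  have hζm : ζ ^ m = 1 := hprim.pow_eq_one
  have hcm : (conj ζ) ^ m = 1 := by rw [← map_pow, hζm, map_one]
  split_ifs with h
  · have h1 : ζ ^ a * (conj ζ) ^ b = 1 := by
      rcases h with rfl | rfl | rfl
      · rw [← mul_pow, hnorm, one_pow]
      · rw [pow_add, hζm, mul_one, ← mul_pow, hnorm, one_pow]
      · rw [pow_add, hcm, mul_one, ← mul_pow, hnorm, one_pow]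
    rw [h1]
    simp
  · have h1 : ζ ^ a * (conj ζ) ^ b ≠ 1 := by
      intro h2
      apply h
      rcases le_total b a with hle | hle
      · have h3 : ζ ^ (a - b) = 1 := by
          obtain ⟨e, rfl⟩ := Nat.exists_eq_add_of_le hle
          rw [pow_add, mul_right_comm, ← mul_pow, hnorm, one_pow, one_mul] at h2
          rw [Nat.add_sub_cancel_left]
          exact h2
        have h4 := hprim.dvd_of_pow_eq_one _ h3
        obtain ⟨q, hq⟩ := h4
        have h5 : q < 2 := by
          by_contra h6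
          have : m * 2 ≤ m * q := Nat.mul_le_mul_left _ (by omega)
          omega
        interval_cases q
        · left; omega
        · right; left; omega
      · have h3 : (conj ζ) ^ (b - a) = 1 := by
          obtain ⟨e, rfl⟩ := Nat.exists_eq_add_of_le hle
          rw [pow_add, ← mul_assoc, ← mul_pow, hnorm, one_pow, one_mul] at h2
          rw [Nat.add_sub_cancel_left]
          exact h2
        have h3' : ζ ^ (b - a) = 1 := by
          rw [← map_pow] at h3
          have := congrArg conj h3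
          simpa using this
        have h4 := hprim.dvd_of_pow_eq_one _ h3'
        obtain ⟨q, hq⟩ := h4
        have h5 : q < 2 := by
          by_contra h6
          have : m * 2 ≤ m * q := Nat.mul_le_mul_left _ (by omega)
          omega
        interval_cases q
        · left; omega
        · right; right; omega
    rw [geom_sum_eq h1]
    have h2 : (ζ ^ a * (conj ζ) ^ b) ^ m = 1 := by
      rw [mul_pow, ← pow_mul, ← pow_mul, mul_comm a, mul_comm b, pow_mul, pow_mul, hζm, hcm, one_pow,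
        one_pow, one_mul]
    rw [h2, sub_self, zero_div]

lemma formula0 (k m : ℕ) (F : MvPolynomial (Fin 3) ℝ) (G : MvPolynomial (Fin 3) ℂ) (hkm : k < m)
    (hinv : ∀ v, eval (rot m v) F = eval v F) (hG : G.IsHomogeneous (2 * k))
    (hFG : ∀ (z : ℂ) (t : ℝ), ((eval (pt z t) F : ℝ) : ℂ) = eval ![z, conj z, (t : ℂ)] G)
    (z : ℂ) (t : ℝ) :
    ((eval (pt z t) F : ℝ) : ℂ) = ∑ d ∈ G.support, coeff d G * (z ^ d 0 * (conj z) ^ d 1 * (t : ℂ) ^ d 2) *
      (if d 0 = d 1 ∨ d 0 = d 1 + m ∨ d 1 = d 0 + m then 1 else 0) := by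
  have hm : (m : ℂ) ≠ 0 := by
    have : m ≠ 0 := by omega
    exact_mod_cast this
  have hexp : ∀ (w : ℂ) (s : ℝ), eval ![w, conj w, (s : ℂ)] G =
      ∑ d ∈ G.support, coeff d G * (w ^ d 0 * (conj w) ^ d 1 * (s : ℂ) ^ d 2) := by
    intro w s
    rw [eval_eq']
    refine Finset.sum_congr rfl fun d _ => ?_
    rw [Fin.prod_univ_three]
    simp
  have h1 : (m : ℂ) * ((eval (pt z t) F : ℝ) : ℂ) =
      ∑ j ∈ Finset.range m, eval ![Complex.exp (2 * Real.pi * Complex.I / m) ^ j * z,
        conj (Complex.exp (2 * Real.pi * Complex.I / m) ^ j * z), (t : ℂ)] G := by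
    have h2 : ∀ j ∈ Finset.range m, eval ![Complex.exp (2 * Real.pi * Complex.I / m) ^ j * z,
        conj (Complex.exp (2 * Real.pi * Complex.I / m) ^ j * z), (t : ℂ)] G =
        ((eval (pt z t) F : ℝ) : ℂ) := by
      intro j _
      rw [← hFG, inv_pow m F hinv]
    rw [Finset.sum_congr rfl h2]
    simp
  have h3 : (m : ℂ) * ((eval (pt z t) F : ℝ) : ℂ) = (m : ℂ) *
      ∑ d ∈ G.support, coeff d G * (z ^ d 0 * (conj z) ^ d 1 * (t : ℂ) ^ d 2) *
      (if d 0 = d 1 ∨ d 0 = d 1 + m ∨ d 1 = d 0 + m then 1 else 0) := by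
    rw [h1]
    simp only [hexp]
    rw [Finset.sum_comm, Finset.mul_sum]
    refine Finset.sum_congr rfl fun d hd => ?_
    have hdeg : d 0 + d 1 + d 2 = 2 * k := by
      have := hG (mem_support_iff.1 hd)
      rw [Finsupp.weight_apply, Finsupp.sum_fintype _ _ (by simp), Fin.sum_univ_three] at this
      simpa using this
    have h4 := avg k m (d 0) (d 1) hkm (by omega)
    calc ∑ j ∈ Finset.range m, coeff d G * ((Complex.exp (2 * Real.pi * Complex.I / m) ^ j * z) ^ d 0 *
          (conj (Complex.exp (2 * Real.pi * Complex.I / m) ^ j * z)) ^ d 1 * (t : ℂ) ^ d 2)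
        = ∑ j ∈ Finset.range m, coeff d G * (z ^ d 0 * (conj z) ^ d 1 * (t : ℂ) ^ d 2) *
          ((Complex.exp (2 * Real.pi * Complex.I / m) ^ j) ^ d 0 *
          (conj (Complex.exp (2 * Real.pi * Complex.I / m) ^ j)) ^ d 1) := by
          refine Finset.sum_congr rfl fun j _ => ?_
          rw [map_mul, mul_pow, mul_pow]
          ring
      _ = _ := by
          rw [← Finset.mul_sum, h4]
          split_ifs <;> ring
  exact mul_left_cancel₀ hm h3

/-- the three parts of the support -/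
noncomputable def S0 (G : MvPolynomial (Fin 3) ℂ) : Finset (Fin 3 →₀ ℕ) := G.support.filter fun d => d 0 = d 1
noncomputable def S1 (m : ℕ) (G : MvPolynomial (Fin 3) ℂ) : Finset (Fin 3 →₀ ℕ) :=
  G.support.filter fun d => d 0 = d 1 + m
noncomputable def S2 (m : ℕ) (G : MvPolynomial (Fin 3) ℂ) : Finset (Fin 3 →₀ ℕ) :=
  G.support.filter fun d => d 1 = d 0 + m

lemma formula (k m : ℕ) (F : MvPolynomial (Fin 3) ℝ) (G : MvPolynomial (Fin 3) ℂ) (hkm : k < m)
    (hinv : ∀ v, eval (rot m v) F = eval v F) (hG : G.IsHomogeneous (2 * k))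
    (hFG : ∀ (z : ℂ) (t : ℝ), ((eval (pt z t) F : ℝ) : ℂ) = eval ![z, conj z, (t : ℂ)] G)
    (z : ℂ) (t : ℝ) :
    eval (pt z t) F = ∑ d ∈ S0 G, (coeff d G).re * ((‖z‖ ^ 2) ^ d 0 * t ^ d 2) +
      (∑ d ∈ S1 m G, coeff d G * (((‖z‖ ^ 2) ^ d 1 * t ^ d 2 : ℝ) : ℂ) * z ^ m +
        ∑ d ∈ S2 m G, conj (coeff d G) * (((‖z‖ ^ 2) ^ d 0 * t ^ d 2 : ℝ) : ℂ) * z ^ m).re := by
  have h1 := formula0 k m F G hkm hinv hG hFG z t
  have h2 : ((eval (pt z t) F : ℝ) : ℂ).re = eval (pt z t) F := Complex.ofReal_re _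
  rw [← h2, h1, Complex.re_sum]
  rw [S0, S1, S2, Finset.sum_filter, Finset.sum_filter, Finset.sum_filter, ← Finset.sum_add_distrib,
    Complex.re_sum, ← Finset.sum_add_distrib]
  refine Finset.sum_congr rfl fun d _ => ?_
  have hzz : z * conj z = ((‖z‖ ^ 2 : ℝ) : ℂ) := by
    rw [Complex.mul_conj, Complex.normSq_eq_norm_sq]
  by_cases e0 : d 0 = d 1
  · have e1 : ¬ d 0 = d 1 + m := by omega
    have e2 : ¬ d 1 = d 0 + m := by omega
    rw [if_pos (Or.inl e0), if_pos e0, if_neg e1, if_neg e2, mul_one, add_zero, Complex.zero_re, add_zero,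
      ← e0, ← mul_pow, hzz]
    rw [show (((‖z‖ ^ 2 : ℝ) : ℂ) ^ d 0 * (t : ℂ) ^ d 2) = (((‖z‖ ^ 2) ^ d 0 * t ^ d 2 : ℝ) : ℂ) by push_cast; ring]
    rw [Complex.re_mul_ofReal]
  · by_cases e1 : d 0 = d 1 + m
    · have e2 : ¬ d 1 = d 0 + m := by omega
      rw [if_pos (Or.inr (Or.inl e1)), if_neg e0, if_pos e1, if_neg e2, mul_one, add_zero, zero_add]
      congr 1
      rw [e1, pow_add, show z ^ d 1 * z ^ m * conj z ^ d 1 * (t : ℂ) ^ d 2 =
        (z * conj z) ^ d 1 * z ^ m * (t : ℂ) ^ d 2 by rw [mul_pow]; ring, hzz]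
      push_cast
      ring
    · by_cases e2 : d 1 = d 0 + m
      · rw [if_pos (Or.inr (Or.inr e2)), if_neg e0, if_neg e1, if_pos e2, mul_one, zero_add, zero_add]
        rw [← Complex.conj_re (coeff d G * (z ^ d 0 * conj z ^ d 1 * (t : ℂ) ^ d 2))]
        congr 1
        rw [e2]
        simp only [map_mul, map_pow, Complex.conj_conj, Complex.conj_ofReal]
        rw [pow_add, show conj z ^ d 0 * (z ^ d 0 * z ^ m) * (t : ℂ) ^ d 2 =
          (z * conj z) ^ d 0 * z ^ m * (t : ℂ) ^ d 2 by rw [mul_pow]; ring, hzz]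
        push_cast
        ring
      · have e3 : ¬ (d 0 = d 1 ∨ d 0 = d 1 + m ∨ d 1 = d 0 + m) := by tauto
        rw [if_neg e3, if_neg e0, if_neg e1, if_neg e2]
        simp

end NF

open NF MvPolynomial ComplexConjugate in
theorem t_NF : S_NF := by
  intro k m F hF hodd hkm hinv
  obtain ⟨G, hG, hFG⟩ := exists_G (2 * k) F hF
  have hform := formula k m F G hkm hinv hG hFG
  have hdeg : ∀ d ∈ G.support, d 0 + d 1 + d 2 = 2 * k := by
    intro d hd
    have := hG (mem_support_iff.1 hd)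
    rw [Finsupp.weight_apply, Finsupp.sum_fintype _ _ (by simp), Fin.sum_univ_three] at this
    simpa using this
  have hd0 : ∀ d ∈ S0 G, 2 * d 0 + d 2 = 2 * k := by
    intro d hd
    rw [S0, Finset.mem_filter] at hd
    have := hdeg d hd.1
    omega
  have hd1 : ∀ d ∈ S1 m G, m + 2 * d 1 + d 2 = 2 * k := by
    intro d hd
    rw [S1, Finset.mem_filter] at hd
    have := hdeg d hd.1
    omega
  have hd2 : ∀ d ∈ S2 m G, m + 2 * d 0 + d 2 = 2 * k := by
    intro d hd
    rw [S2, Finset.mem_filter] at hd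
    have := hdeg d hd.1
    omega
  obtain ⟨r, hr⟩ := hodd
  set g : Polynomial ℝ := ∑ d ∈ S0 G, Polynomial.C (coeff d G).re * Polynomial.X ^ d 0 with hg
  set c : Polynomial ℂ := ∑ d ∈ S1 m G, Polynomial.C (coeff d G) * Polynomial.X ^ d 1 +
    ∑ d ∈ S2 m G, Polynomial.C (conj (coeff d G)) * Polynomial.X ^ d 0 with hc
  have hmain : ∀ z : ℂ, eval ![z.re, z.im, 1] F =
      g.eval (‖z‖ ^ 2) + (c.eval ((‖z‖ ^ 2 : ℝ) : ℂ) * z ^ m).re := by
    intro z
    have h1 := hform z 1
    rw [pt] at h1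
    rw [h1, hg, hc, Polynomial.eval_finsetSum, Polynomial.eval_add, Polynomial.eval_finsetSum,
      Polynomial.eval_finsetSum, add_mul, Finset.sum_mul, Finset.sum_mul]
    congr 1
    · refine Finset.sum_congr rfl fun d _ => ?_
      simp
    · congr 1
      congr 1
      · refine Finset.sum_congr rfl fun d _ => ?_
        simp
      · refine Finset.sum_congr rfl fun d _ => ?_
        simp
  refine ⟨g, c, ?_, ?_, hmain, ?_, ?_⟩
  · refine Polynomial.natDegree_sum_le_of_forall_le _ _ fun d hd => ?_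
    refine (Polynomial.natDegree_C_mul_X_pow_le _ _).trans ?_
    have := hd0 d hd
    omega
  · by_cases hcase : m < 2 * k
    · right
      have h1 : c.natDegree ≤ (2 * k - m - 1) / 2 := by
        refine (Polynomial.natDegree_add_le _ _).trans (max_le ?_ ?_)
        · refine Polynomial.natDegree_sum_le_of_forall_le _ _ fun d hd => ?_
          refine (Polynomial.natDegree_C_mul_X_pow_le _ _).trans ?_
          have := hd1 d hd
          omega
        · refine Polynomial.natDegree_sum_le_of_forall_le _ _ fun d hd => ?_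
          refine (Polynomial.natDegree_C_mul_X_pow_le _ _).trans ?_
          have := hd2 d hd
          omega
      omega
    · left
      have h1 : S1 m G = ∅ := by
        rw [Finset.eq_empty_iff_forall_notMem]
        intro d hd
        have := hd1 d hd
        omega
      have h2 : S2 m G = ∅ := by
        rw [Finset.eq_empty_iff_forall_notMem]
        intro d hd
        have := hd2 d hd
        omega
      rw [hc, h1, h2]
      simp
  · have h1 := hmain 0
    simp only [Complex.zero_re, Complex.zero_im, norm_zero] at h1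
    rw [h1, zero_pow (by omega : m ≠ 0)]
    simp
  · intro x y hxy
    have h1 := hform ⟨x, y⟩ 0
    rw [pt] at h1
    have hn : ‖(⟨x, y⟩ : ℂ)‖ ^ 2 = 1 := by
      rw [Complex.sq_norm, Complex.normSq_mk]
      nlinarith
    rw [h1, hn]
    have e1 : ∑ d ∈ S1 m G, coeff d G * (((1 : ℝ) ^ d 1 * 0 ^ d 2 : ℝ) : ℂ) * (⟨x, y⟩ : ℂ) ^ m = 0 := by
      refine Finset.sum_eq_zero fun d hd => ?_
      have := hd1 d hd
      rw [zero_pow (by omega : d 2 ≠ 0)]
      simp
    have e2 : ∑ d ∈ S2 m G, conj (coeff d G) * (((1 : ℝ) ^ d 0 * 0 ^ d 2 : ℝ) : ℂ) * (⟨x, y⟩ : ℂ) ^ m = 0 := by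
      refine Finset.sum_eq_zero fun d hd => ?_
      have := hd2 d hd
      rw [zero_pow (by omega : d 2 ≠ 0)]
      simp
    rw [e1, e2, add_zero, Complex.zero_re, add_zero, hg, Polynomial.finsetSum_coeff]
    refine Finset.sum_congr rfl fun d hd => ?_
    rw [Polynomial.coeff_C_mul_X_pow]
    have h3 := hd0 d hd
    by_cases h4 : k = d 0
    · rw [if_pos h4]
      have : d 2 = 0 := by omega
      rw [this]
      simp
    · rw [if_neg h4]
      have : d 2 ≠ 0 := by omega
      rw [zero_pow this]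
      simp

end Pool.Agent.H23S
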