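import Pool.Agent.H23S.P42
set_option autoImplicit false

/-! Piece NS0 (helper42). -/

namespace Pool.Agent.H23S.P42

open MvPolynomial

variable {K : Type} [Field K] [Algebra ℝ K]

theorem evalq (p : MvPolynomial (Fin 3) ℝ) (q : Fin 3 → Polynomial K) (t : K) :
    (aeval q p).eval t = aeval (fun i => (q i).eval t) p := by
  have h := comp_aeval_apply (R := ℝ) (f := q)
    (((Polynomial.aeval t : Polynomial K →ₐ[K] K).restrictScalars ℝ)) p
  simpa [Polynomial.coe_aeval_eq_eval] using h

theorem deriv_eval (p : MvPolynomial (Fin 3) ℝ) (q : Fin 3 → Polynomial K) (t : K) :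
    (Polynomial.derivative (aeval q p)).eval t =
      ∑ i, aeval (fun i => (q i).eval t) (pderiv i p) * (Polynomial.derivative (q i)).eval t := by
  rw [chain, Polynomial.eval_finsetSum]
  exact Finset.sum_congr rfl fun i _ => by rw [Polynomial.eval_mul, evalq]

theorem aeR (p : MvPolynomial (Fin 3) ℝ) (v : Fin 3 → ℝ) : aeval v p = eval v p := rfl

theorem toC (p : MvPolynomial (Fin 3) ℝ) (v : Fin 3 → ℝ) :
    aeval (fun i => ((v i : ℝ) : ℂ)) p = ((eval v p : ℝ) : ℂ) := by
  have h := aeval_algebraMap_apply ℂ v p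
  rw [← aeR]
  exact h

end Pool.Agent.H23S.P42

namespace Pool.Agent.H23S

open MvPolynomial P42

theorem t_NS0 : S_NS0 := by
  intro n m F hF hn hm hrot hNS hO
  set c := Real.cos (2 * Real.pi / m) with hc
  set s := Real.sin (2 * Real.pi / m) with hs
  set a := MvPolynomial.eval ![0, 0, 1] (pderiv 0 F) with ha
  set b := MvPolynomial.eval ![0, 0, 1] (pderiv 1 F) with hb
  have hder : ∀ x y : ℝ, (Polynomial.derivative (aeval (![Polynomial.C x * Polynomial.X,
      Polynomial.C y * Polynomial.X, 1] : Fin 3 → Polynomial ℝ) F)).eval 0 = a * x + b * y := by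
    intro x y
    rw [deriv_eval]
    have h0 : (fun i => ((![Polynomial.C x * Polynomial.X, Polynomial.C y * Polynomial.X, 1] :
        Fin 3 → Polynomial ℝ) i).eval 0) = ![0, 0, 1] := by
      funext i
      fin_cases i <;> simp
    rw [h0]
    simp [Fin.sum_univ_three, ha, hb, aeR]
  have heq : ∀ x y : ℝ, a * x + b * y = a * (c * x - s * y) + b * (s * x + c * y) := by
    intro x y
    rw [← hder, ← hder]
    congr 2
    apply Polynomial.funext
    intro t
    rw [evalq, evalq]
    have h1 : (fun i => ((![Polynomial.C x * Polynomial.X, Polynomial.C y * Polynomial.X, 1] :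
        Fin 3 → Polynomial ℝ) i).eval t) = ![x * t, y * t, 1] := by
      funext i
      fin_cases i <;> simp
    have h2 : (fun i => ((![Polynomial.C (c * x - s * y) * Polynomial.X,
        Polynomial.C (s * x + c * y) * Polynomial.X, 1] :
        Fin 3 → Polynomial ℝ) i).eval t) = rot m ![x * t, y * t, 1] := by
      funext i
      fin_cases i
      · simp [rot, ← hc, ← hs]
        ring
      · simp [rot, ← hc, ← hs]
        ring
      · simp [rot]
    rw [h1, h2, aeR, aeR]
    exact (hrot _).symm
  have e1 := heq 1 0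
  have e2 := heq 0 1
  have hc1 : c ≠ 1 := by
    have hm' : (3 : ℝ) ≤ m := by exact_mod_cast hm
    have hpi := Real.pi_pos
    have h1 : 0 < 2 * Real.pi / m := by positivity
    have h2 : 2 * Real.pi / m < 2 * Real.pi := by
      rw [div_lt_iff₀ (by positivity)]
      nlinarith
    intro h
    have := (Real.cos_eq_one_iff_of_lt_of_lt (by linarith) h2).1 h
    linarith
  have hab : (a ^ 2 + b ^ 2) * (1 - c) = 0 := by
    have e1' : a * (1 - c) = b * s := by linarith
    have e2' : b * (1 - c) = -(a * s) := by linarith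
    calc (a ^ 2 + b ^ 2) * (1 - c) = a * (a * (1 - c)) + b * (b * (1 - c)) := by ring
      _ = 0 := by rw [e1', e2']; ring
  have hab2 : a ^ 2 + b ^ 2 = 0 := by
    rcases mul_eq_zero.1 hab with h | h
    · exact h
    · exact absurd (by linarith) hc1
  have ha0 : a = 0 := by nlinarith [sq_nonneg a, sq_nonneg b]
  have hb0 : b = 0 := by nlinarith [sq_nonneg a, sq_nonneg b]
  have hd0 : MvPolynomial.eval ![0, 0, 1] (pderiv 2 F) = 0 := by
    have h1 : aeval (![0, 0, Polynomial.X] : Fin 3 → Polynomial ℝ) F = 0 := by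
      apply Polynomial.funext
      intro t
      rw [evalq]
      have h2 : (fun i => ((![0, 0, Polynomial.X] : Fin 3 → Polynomial ℝ) i).eval t) =
          fun i => t * (![0, 0, 1] : Fin 3 → ℝ) i := by
        funext i
        fin_cases i <;> simp
      rw [h2, hom_smul hF, aeR, hO]
      simp
    have h3 := deriv_eval F (![0, 0, Polynomial.X] : Fin 3 → Polynomial ℝ) 1
    rw [h1] at h3
    have h2 : (fun i => ((![0, 0, Polynomial.X] : Fin 3 → Polynomial ℝ) i).eval 1) =
        (![0, 0, 1] : Fin 3 → ℝ) := by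
      funext i
      fin_cases i <;> simp
    rw [h2] at h3
    simpa [Fin.sum_univ_three, aeR] using h3.symm
  have hv : (fun i => (((![0, 0, 1] : Fin 3 → ℝ) i : ℝ) : ℂ)) ≠ 0 := by
    intro h
    have := congrFun h 2
    simp at this
  obtain ⟨i, hi⟩ := hNS _ hv (by rw [toC, hO]; simp)
  rw [toC] at hi
  apply hi
  fin_cases i
  · exact_mod_cast ha0
  · exact_mod_cast hb0
  · exact_mod_cast hd0

end Pool.Agent.H23S
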