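import Pool.Agent.H23S.NS0
set_option autoImplicit false

/-! Piece NSI (helper42). -/

namespace Pool.Agent.H23S

open MvPolynomial P42

theorem t_NSI : S_NSI := by
  intro n F hF hn hNS
  by_contra hcon
  push Not at hcon
  have hP : aeval (![X 0, X 1, 0] : Fin 3 → MvPolynomial (Fin 2) ℝ) F = 0 := by
    apply MvPolynomial.funext
    intro v
    have h := comp_aeval_apply (R := ℝ) (f := (![X 0, X 1, 0] : Fin 3 → MvPolynomial (Fin 2) ℝ))
      (aeval v : MvPolynomial (Fin 2) ℝ →ₐ[ℝ] ℝ) F
    have h2 : (fun i => (aeval v : MvPolynomial (Fin 2) ℝ →ₐ[ℝ] ℝ)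
        ((![X 0, X 1, 0] : Fin 3 → MvPolynomial (Fin 2) ℝ) i)) = ![v 0, v 1, 0] := by
      funext i
      fin_cases i <;> simp
    rw [h2, aeR, hcon] at h
    rw [map_zero]
    exact h
  have hC : ∀ x y : ℂ, aeval (![x, y, 0] : Fin 3 → ℂ) F = 0 := by
    intro x y
    have h := comp_aeval_apply (R := ℝ) (f := (![X 0, X 1, 0] : Fin 3 → MvPolynomial (Fin 2) ℝ))
      (aeval ![x, y] : MvPolynomial (Fin 2) ℝ →ₐ[ℝ] ℂ) F
    have h2 : (fun i => (aeval ![x, y] : MvPolynomial (Fin 2) ℝ →ₐ[ℝ] ℂ)
        ((![X 0, X 1, 0] : Fin 3 → MvPolynomial (Fin 2) ℝ) i)) = ![x, y, 0] := by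
      funext i
      fin_cases i <;> simp
    rw [h2, hP, map_zero] at h
    exact h.symm
  have hdx : ∀ x y : ℂ, aeval (![x, y, 0] : Fin 3 → ℂ) (pderiv 0 F) = 0 := by
    intro x y
    have h1 : aeval (![Polynomial.X + Polynomial.C x, Polynomial.C y, 0] :
        Fin 3 → Polynomial ℂ) F = 0 := by
      apply Polynomial.funext
      intro t
      rw [evalq]
      have h2 : (fun i => ((![Polynomial.X + Polynomial.C x, Polynomial.C y, 0] :
          Fin 3 → Polynomial ℂ) i).eval t) = ![t + x, y, 0] := by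
        funext i
        fin_cases i <;> simp
      rw [h2, hC, Polynomial.eval_zero]
    have h3 := deriv_eval F (![Polynomial.X + Polynomial.C x, Polynomial.C y, 0] :
        Fin 3 → Polynomial ℂ) 0
    have h2 : (fun i => ((![Polynomial.X + Polynomial.C x, Polynomial.C y, 0] :
        Fin 3 → Polynomial ℂ) i).eval 0) = ![x, y, 0] := by
      funext i
      fin_cases i <;> simp
    rw [h1, h2] at h3
    simpa [Fin.sum_univ_three] using h3.symm
  have hdy : ∀ x y : ℂ, aeval (![x, y, 0] : Fin 3 → ℂ) (pderiv 1 F) = 0 := by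
    intro x y
    have h1 : aeval (![Polynomial.C x, Polynomial.X + Polynomial.C y, 0] :
        Fin 3 → Polynomial ℂ) F = 0 := by
      apply Polynomial.funext
      intro t
      rw [evalq]
      have h2 : (fun i => ((![Polynomial.C x, Polynomial.X + Polynomial.C y, 0] :
          Fin 3 → Polynomial ℂ) i).eval t) = ![x, t + y, 0] := by
        funext i
        fin_cases i <;> simp
      rw [h2, hC, Polynomial.eval_zero]
    have h3 := deriv_eval F (![Polynomial.C x, Polynomial.X + Polynomial.C y, 0] :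
        Fin 3 → Polynomial ℂ) 0
    have h2 : (fun i => ((![Polynomial.C x, Polynomial.X + Polynomial.C y, 0] :
        Fin 3 → Polynomial ℂ) i).eval 0) = ![x, y, 0] := by
      funext i
      fin_cases i <;> simp
    rw [h1, h2] at h3
    simpa [Fin.sum_univ_three] using h3.symm
  have hno : ∀ v : Fin 3 → ℂ, v ≠ 0 → v 2 = 0 → aeval v (pderiv 2 F) ≠ 0 := by
    intro v hv h2 h3
    have hv' : v = ![v 0, v 1, 0] := by
      funext i
      fin_cases i
      · rfl
      · rfl
      · simpa using h2
    obtain ⟨i, hi⟩ := hNS v hv (by rw [hv']; exact hC _ _)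
    apply hi
    fin_cases i
    · rw [hv']; exact hdx _ _
    · rw [hv']; exact hdy _ _
    · exact h3
  have hQ : (pderiv 2 F).IsHomogeneous (n - 1) := hF.pderiv
  set r := aeval (![1, Polynomial.X, 0] : Fin 3 → Polynomial ℂ) (pderiv 2 F) with hr
  have hre : ∀ s : ℂ, r.eval s = aeval (![1, s, 0] : Fin 3 → ℂ) (pderiv 2 F) := by
    intro s
    rw [hr, evalq]
    congr 2
    funext i
    fin_cases i <;> simp
  by_cases hdeg : r.degree = 0
  · obtain ⟨a, ha⟩ : ∃ a, r = Polynomial.C a := ⟨_, Polynomial.eq_C_of_degree_eq_zero hdeg⟩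
    set w := aeval (![Polynomial.X, 1, 0] : Fin 3 → Polynomial ℂ) (pderiv 2 F) with hw
    have hwe : ∀ s : ℂ, w.eval s = aeval (![s, 1, 0] : Fin 3 → ℂ) (pderiv 2 F) := by
      intro s
      rw [hw, evalq]
      congr 2
      funext i
      fin_cases i <;> simp
    have hww : w = Polynomial.C a * Polynomial.X ^ (n - 1) := by
      apply Polynomial.eq_of_infinite_eval_eq
      refine Set.Infinite.mono (s := {x : ℂ | x ≠ 0}) ?_ ?_
      · intro x hx
        have hx0 : x ≠ 0 := hx
        show w.eval x = (Polynomial.C a * Polynomial.X ^ (n - 1)).eval x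
        have h1 : (![x, 1, 0] : Fin 3 → ℂ) = fun i => x * (![1, x⁻¹, 0] : Fin 3 → ℂ) i := by
          funext i
          fin_cases i
          · show x = x * 1
            rw [mul_one]
          · show (1 : ℂ) = x * x⁻¹
            rw [mul_inv_cancel₀ hx0]
          · show (0 : ℂ) = x * 0
            rw [mul_zero]
        rw [hwe, h1, hom_smul hQ, ← hre, ha, Polynomial.eval_C, Polynomial.eval_mul,
          Polynomial.eval_C, Polynomial.eval_pow, Polynomial.eval_X, mul_comm]
      · exact (Set.finite_singleton (0 : ℂ)).infinite_compl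
    refine hno ![0, 1, 0] ?_ rfl ?_
    · intro h
      have := congrFun h 1
      simp at this
    · rw [← hwe, hww]
      have : n - 1 ≠ 0 := by omega
      simp [this]
  · obtain ⟨s, hs⟩ := IsAlgClosed.exists_root r hdeg
    refine hno ![1, s, 0] ?_ rfl ?_
    · intro h
      have := congrFun h 0
      simp at this
    · rw [← hre]
      exact hs

end Pool.Agent.H23S
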