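import Pool.Agent.H23S.Stm
set_option autoImplicit false

/-! Auxiliary lemmas for the pieces NS0 and NSI (helper42). -/

namespace Pool.Agent.H23S.P42

open MvPolynomial

variable {K : Type} [Field K] [Algebra ℝ K]

theorem chain (p : MvPolynomial (Fin 3) ℝ) (q : Fin 3 → Polynomial K) :
    Polynomial.derivative (aeval q p) =
      ∑ i, aeval q (pderiv i p) * Polynomial.derivative (q i) := by
  induction p using MvPolynomial.induction_on with
  | C a =>
    have h : (algebraMap ℝ (Polynomial K)) a = Polynomial.C (algebraMap ℝ K a) := rfl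
    simp [h]
  | add p r hp hr => simp [hp, hr, add_mul, Finset.sum_add_distrib]
  | mul_X p j hp =>
    have h1 : ∀ i, aeval q (pderiv i (p * X j)) * Polynomial.derivative (q i) =
        aeval q (pderiv i p) * Polynomial.derivative (q i) * q j +
          (if i = j then aeval q p * Polynomial.derivative (q j) else 0) := by
      intro i
      rw [pderiv_mul, map_add, map_mul, map_mul, aeval_X, add_mul]
      congr 1
      · ring
      · by_cases hij : i = j
        · subst hij
          rw [if_pos rfl, pderiv_X_self, map_one, mul_one]
        · rw [if_neg hij, pderiv_X_of_ne (Ne.symm hij), map_zero, mul_zero, zero_mul]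
    rw [Finset.sum_congr rfl fun i _ => h1 i, Finset.sum_add_distrib, ← Finset.sum_mul, ← hp,
      Finset.sum_ite_eq' Finset.univ j, if_pos (Finset.mem_univ j), map_mul, aeval_X,
      Polynomial.derivative_mul]

theorem hom_smul {n : ℕ} {p : MvPolynomial (Fin 3) ℝ} (hp : p.IsHomogeneous n) (t : K)
    (v : Fin 3 → K) : aeval (fun i => t * v i) p = t ^ n * aeval v p := by
  rw [aeval_def, aeval_def, eval₂_eq', eval₂_eq', Finset.mul_sum]
  refine Finset.sum_congr rfl fun d hd => ?_
  have h1 : ∑ i, d i = n := by
    have := hp (mem_support_iff.1 hd)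
    rw [← this]
    simp [Finsupp.weight_apply, Finsupp.sum_fintype]
  simp only [mul_pow, Finset.prod_mul_distrib, Finset.prod_pow_eq_pow_sum, h1]
  ring

end Pool.Agent.H23S.P42
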