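import Pool.Agent.H23S.Stm
set_option autoImplicit false

/-! Piece RPC (helper42). -/

namespace Pool.Agent.H23S.RPCa

open MvPolynomial

theorem hom_smul {n : ℕ} {p : MvPolynomial (Fin 3) ℝ} (hp : p.IsHomogeneous n) (t : ℝ)
    (v : Fin 3 → ℝ) : eval (fun i => t * v i) p = t ^ n * eval v p := by
  rw [eval_eq', eval_eq', Finset.mul_sum]
  refine Finset.sum_congr rfl fun d hd => ?_
  have h1 : ∑ i, d i = n := by
    have := hp (mem_support_iff.1 hd)
    rw [← this]
    simp [Finsupp.weight_apply, Finsupp.sum_fintype]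
  simp only [mul_pow, Finset.prod_mul_distrib, Finset.prod_pow_eq_pow_sum, h1]
  ring

theorem vne (z : ℂ) : (![z.re, z.im, 1] : Fin 3 → ℝ) ≠ 0 := by
  intro h
  have := congrFun h 2
  simp at this

/-- The map of the affine plane to the projective plane. -/
noncomputable def phi (z : ℂ) : RP2 := Projectivization.mk ℝ ![z.re, z.im, 1] (vne z)

theorem phi_cont : Continuous phi := by
  have h1 : Continuous fun z : ℂ => (⟨![z.re, z.im, 1], vne z⟩ : {v : Fin 3 → ℝ // v ≠ 0}) := by
    refine Continuous.subtype_mk ?_ _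
    refine continuous_pi fun i => ?_
    fin_cases i
    · exact Complex.continuous_re
    · exact Complex.continuous_im
    · exact continuous_const
  exact (continuous_quotient_mk' (s := projectivizationSetoid ℝ (Fin 3 → ℝ))).comp h1

end Pool.Agent.H23S.RPCa

namespace Pool.Agent.H23S

open RPCa MvPolynomial

theorem t_RPC : S_RPC := by
  classical
  intro n N F hF hinf hCov
  obtain ⟨T, hTN, hTA, hT⟩ := hCov
  set A : Set ℂ := {z : ℂ | MvPolynomial.eval ![z.re, z.im, 1] F = 0} with hA
  have hAS : ∀ z ∈ A, phi z ∈ realPart F := fun z hz => ⟨_, vne z, hz, rfl⟩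
  have hSA : ∀ p ∈ realPart F, ∃ z ∈ A, p = phi z := by
    rintro p ⟨v, hv, hFv, rfl⟩
    have h2 : v 2 ≠ 0 := by
      intro h2
      have h01 : 0 < v 0 ^ 2 + v 1 ^ 2 := by
        by_contra hcon
        have h0 : v 0 = 0 := by nlinarith [sq_nonneg (v 0), sq_nonneg (v 1)]
        have h1 : v 1 = 0 := by nlinarith [sq_nonneg (v 0), sq_nonneg (v 1)]
        apply hv
        funext i
        fin_cases i
        · exact h0
        · exact h1
        · exact h2
      set r := Real.sqrt (v 0 ^ 2 + v 1 ^ 2) with hr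
      have hr0 : r ≠ 0 := (Real.sqrt_pos.2 h01).ne'
      have hrr : r ^ 2 = v 0 ^ 2 + v 1 ^ 2 := Real.sq_sqrt h01.le
      have h3 := hom_smul hF r⁻¹ v
      rw [hFv, mul_zero] at h3
      apply hinf (r⁻¹ * v 0) (r⁻¹ * v 1)
      · rw [mul_pow, mul_pow, ← mul_add, ← hrr]
        field_simp
      · have h4 : (![r⁻¹ * v 0, r⁻¹ * v 1, 0] : Fin 3 → ℝ) = fun i => r⁻¹ * v i := by
          funext i
          fin_cases i
          · rfl
          · rfl
          · simp [h2]
        rw [h4]
        exact h3
    refine ⟨⟨v 0 / v 2, v 1 / v 2⟩, ?_, ?_⟩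
    · have h3 := hom_smul hF (v 2)⁻¹ v
      rw [hFv, mul_zero] at h3
      show MvPolynomial.eval ![v 0 / v 2, v 1 / v 2, 1] F = 0
      have h4 : (![v 0 / v 2, v 1 / v 2, 1] : Fin 3 → ℝ) = fun i => (v 2)⁻¹ * v i := by
        funext i
        fin_cases i
        · simp [div_eq_inv_mul]
        · simp [div_eq_inv_mul]
        · simp [h2]
      rw [h4]
      exact h3
    · refine ((Projectivization.mk_eq_mk_iff' ℝ _ _ hv (vne _)).2 ⟨v 2, ?_⟩)
      funext i
      fin_cases i
      · simp [mul_div_cancel₀, h2]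
      · simp [mul_div_cancel₀, h2]
      · simp
  have key : comps (realPart F) ⊆
      ((T.image fun t => connectedComponentIn (realPart F) (phi t) : Finset (Set RP2)) : Set (Set RP2)) := by
    rintro C ⟨p, hp, rfl⟩
    obtain ⟨z, hz, rfl⟩ := hSA p hp
    obtain ⟨t, htT, hzt⟩ := hT z hz
    rw [Finset.coe_image]
    refine ⟨t, htT, ?_⟩
    apply connectedComponentIn_eq
    have h1 : phi '' connectedComponentIn A t ⊆ connectedComponentIn (realPart F) (phi t) := by
      apply IsPreconnected.subset_connectedComponentIn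
      · exact isPreconnected_connectedComponentIn.image _ phi_cont.continuousOn
      · exact Set.mem_image_of_mem _ (mem_connectedComponentIn (hTA t htT))
      · rintro _ ⟨w, hw, rfl⟩
        exact hAS w (connectedComponentIn_subset _ _ hw)
    exact h1 (Set.mem_image_of_mem _ hzt)
  calc (comps (realPart F)).encard ≤ _ := Set.encard_le_encard key
    _ = ((T.image fun t => connectedComponentIn (realPart F) (phi t)).card : ℕ∞) :=
        Set.encard_coe_eq_coe_finsetCard _
    _ ≤ N := by exact_mod_cast Finset.card_image_le.trans hTN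

end Pool.Agent.H23S
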