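import Mathlib
set_option autoImplicit false

/-!
# Project SM (helper23): symmetric M-curves (MP_b7f146_ag, Hilbert's 16th problem, degree 8)

Theorem: let `A` be a nonsingular real plane curve of even degree `2 k ≥ 6` with a real projective symmetry
of odd order `m > k`. Then `ℝA` has at most `m k` components if `m ≤ 2 k - 3`, at most
`(2 k - 1) ⌊(k + 1) / 2⌋ + 1` if `m = 2 k - 1` and at most `k` if `m > 2 k`. In particular `A` is never an M-curve,
and a curve of degree `8` with at least `21` ovals has no symmetry of odd order `≥ 5` (order `5`: at most 20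
ovals, order `7`: at most 15).

Line: the symmetry is a rotation by `2 π / m` in suitable coordinates (LIN, TRA); in the affine plane
`ℂ ∋ z = x + i y` the curve is `g(|z| ^ 2) + Re(c(|z| ^ 2) z ^ m) = 0` (NF) with `g(0) ≠ 0` and `g` of degree `k`
(NS), and it does not meet the line at infinity (RPC). Let `D(R) = g(R) ^ 2 - R ^ m |c(R)| ^ 2`; on the
curve `D(|z| ^ 2) ≤ 0`. A point of a component with minimal `|z|` is at a radius where `D` enters `D ≤ 0` (MIN);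
there are at most `k` of these radii (ENT), each with `m` points of the curve. If `m = 2 k - 1`, then `c` is
constant and the components at a radius where `g` changes the sign are equal (CROSS); by the mean value
theorem for `g(x ^ 2) / x ^ m` there are not many other radii (CNT).
-/

open Polynomial

namespace Pool.Agent.H23S

/-- The real projective plane, with the quotient topology. -/
def RP2 : Type := Projectivization ℝ (Fin 3 → ℝ)

instance : TopologicalSpace RP2 :=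
  inferInstanceAs (TopologicalSpace (Quotient (projectivizationSetoid ℝ (Fin 3 → ℝ))))

/-- The real part of the curve `F = 0`. -/
def realPart (F : MvPolynomial (Fin 3) ℝ) : Set RP2 :=
  {p | ∃ (v : Fin 3 → ℝ) (hv : v ≠ 0), MvPolynomial.eval v F = 0 ∧ p = Projectivization.mk ℝ v hv}

/-- The connected components of `S`. -/
def comps {X : Type} [TopologicalSpace X] (S : Set X) : Set (Set X) :=
  {C | ∃ p ∈ S, C = connectedComponentIn S p}

/-- The curve `F = 0` is nonsingular (over `ℂ`). -/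
def Nonsing (F : MvPolynomial (Fin 3) ℝ) : Prop :=
  ∀ v : Fin 3 → ℂ, v ≠ 0 → MvPolynomial.aeval v F = 0 →
    ∃ i, MvPolynomial.aeval v (MvPolynomial.pderiv i F) ≠ 0

/-- The rotation by `2 π / m` of the first two coordinates. -/
noncomputable def rot (m : ℕ) (v : Fin 3 → ℝ) : Fin 3 → ℝ :=
  ![Real.cos (2 * Real.pi / m) * v 0 - Real.sin (2 * Real.pi / m) * v 1,
    Real.sin (2 * Real.pi / m) * v 0 + Real.cos (2 * Real.pi / m) * v 1, v 2]

/-- There are at most `N` components: every point of `S` is in the component of a point of `T`, `|T| ≤ N`. -/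
def Cov {X : Type} [TopologicalSpace X] (S : Set X) (N : ℕ) : Prop :=
  ∃ T : Finset X, T.card ≤ N ∧ (∀ t ∈ T, t ∈ S) ∧ ∀ z ∈ S, ∃ t ∈ T, z ∈ connectedComponentIn S t

/-- The affine curve `g(|z| ^ 2) + Re(c(|z| ^ 2) z ^ m) = 0`. -/
def Zs (g : ℝ[X]) (c : ℂ[X]) (m : ℕ) : Set ℂ :=
  {z | g.eval (‖z‖ ^ 2) + (c.eval ((‖z‖ ^ 2 : ℝ) : ℂ) * z ^ m).re = 0}

/-- `D(R) = g(R) ^ 2 - R ^ m |c(R)| ^ 2` -/
noncomputable def Dv (g : ℝ[X]) (c : ℂ[X]) (m : ℕ) (R : ℝ) : ℝ :=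
  g.eval R ^ 2 - R ^ m * ‖c.eval (R : ℂ)‖ ^ 2

/-- The radii (squared) where `D` enters `D ≤ 0`. -/
def Ent (g : ℝ[X]) (c : ℂ[X]) (m : ℕ) : Set ℝ :=
  {ρ | 0 < ρ ∧ Dv g c m ρ = 0 ∧ ∀ δ : ℝ, 0 < δ → ∃ R, ρ - δ < R ∧ R < ρ ∧ 0 < Dv g c m R}

/-- `g` changes the sign before `D` leaves `D ≤ 0`. -/
def Crs (g : ℝ[X]) (c : ℂ[X]) (m : ℕ) (ρ : ℝ) : Prop :=
  ∃ ρ', ρ < ρ' ∧ Dv g c m ρ' = 0 ∧ (∀ R, ρ ≤ R → R ≤ ρ' → Dv g c m R ≤ 0) ∧
    g.eval ρ * g.eval ρ' < 0

/-- The degrees and the values at the centre and at infinity. -/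
def Ok (g : ℝ[X]) (c : ℂ[X]) (m k : ℕ) : Prop :=
  1 ≤ m ∧ g.natDegree ≤ k ∧ g.coeff k ≠ 0 ∧ g.eval 0 ≠ 0 ∧ (c = 0 ∨ m + 2 * c.natDegree < 2 * k)

/-- NF (150 lines), the normal form.
Proof. Let `G(Z, W) ∈ ℂ[Z, W]` be `F((Z + W) / 2, (Z - W) / (2 i), 1)` (`MvPolynomial.aeval` into `MvPolynomial (Fin 2) ℂ`), of
total degree `≤ 2 k`. For complex `z, w` `G(z, w) = F((z + w) / 2, (z - w) / (2 i), 1)`, and `G(ζ z, ζ⁻¹ w) = G(z, w)`,
`ζ = exp(2 π i / m)` (the invariance of `F` holds for real, hence for complex arguments: polynomials over the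
infinite field `ℝ`, `MvPolynomial.funext`). So the coefficient `γ_ab` of `Z ^ a W ^ b` is `0` unless `m ∣ a - b`, i.e. (as
`a + b ≤ 2 k < 2 m`) unless `a = b`, `a = b + m` or `b = a + m`. Put `w = conj z` and take real parts:
`F(x, y, 1) = Re G(z, conj z) = ∑ Re(γ_aa) |z| ^ (2 a) + Re (∑_b (γ_(b+m, b) + conj γ_(b, b+m)) |z| ^ (2 b) z ^ m)`; this defines `g`
and `c`; `m + 2 b ≤ 2 k`, so `m + 2 b < 2 k` as `m` is odd. The value at `z = 0` gives `g(0)`. The values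
at infinity: for `x ^ 2 + y ^ 2 = 1` and `r → ∞`: `F(x, y, 1 / r) = r ^ (-2 k) F(r x, r y, 1) → g.coeff k`. -/
def S_NF : Prop := ∀ (k m : ℕ) (F : MvPolynomial (Fin 3) ℝ), F.IsHomogeneous (2 * k) → Odd m →
  k < m → (∀ v, MvPolynomial.eval (rot m v) F = MvPolynomial.eval v F) →
  ∃ (g : ℝ[X]) (c : ℂ[X]), g.natDegree ≤ k ∧ (c = 0 ∨ m + 2 * c.natDegree < 2 * k) ∧
    (∀ z : ℂ, MvPolynomial.eval ![z.re, z.im, 1] F =
      g.eval (‖z‖ ^ 2) + (c.eval ((‖z‖ ^ 2 : ℝ) : ℂ) * z ^ m).re) ∧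
    MvPolynomial.eval ![0, 0, 1] F = g.eval 0 ∧
    ∀ x y : ℝ, x ^ 2 + y ^ 2 = 1 → MvPolynomial.eval ![x, y, 0] F = g.coeff k

/-- NS0 (60 lines). A nonsingular curve with a rotation symmetry does not go through the centre.
Proof. If `F(O) = 0`, `O = (0, 0, 1)`, then `∂_t F(O) = 0` by Euler (or: `F(0, 0, t) = t ^ n F(O)`), and the vector
`(∂_x F(O), ∂_y F(O))` is invariant under the (transpose of the) rotation by `2 π / m`, so it is zero
(derivative of `F(rot m v) = F(v)` along the lines through `O`, chain rule; or with MvPolynomial identities). -/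
def S_NS0 : Prop := ∀ (n m : ℕ) (F : MvPolynomial (Fin 3) ℝ), F.IsHomogeneous n → 1 ≤ n → 3 ≤ m →
  (∀ v, MvPolynomial.eval (rot m v) F = MvPolynomial.eval v F) → Nonsing F →
  MvPolynomial.eval ![0, 0, 1] F ≠ 0

/-- NSI (80 lines). A nonsingular curve of degree `n ≥ 2` does not contain the line at infinity.
Proof. Otherwise `F(x, y, 0) = 0` for complex `x, y` as well, and `∂_x F`, `∂_y F` are zero there. `Q(x, y) = ∂_t F(x, y, 0)`
is a form of degree `n - 1 ≥ 1`; it has a complex zero `(x, y) ≠ 0`: the polynomial `Q(x, 1)` has a root unless it is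
a constant `a`, and then `Q(1, s) = s ^ (n - 1) Q(1 / s, 1) = a s ^ (n - 1)` for `s ≠ 0`, so `Q(1, 0) = 0`. The point `(x, y, 0)` is
singular. -/
def S_NSI : Prop := ∀ (n : ℕ) (F : MvPolynomial (Fin 3) ℝ), F.IsHomogeneous n → 2 ≤ n → Nonsing F →
  ∃ x y : ℝ, MvPolynomial.eval ![x, y, 0] F ≠ 0

/-- RPC (60 lines). From the affine plane to the projective plane.
Proof. The map `ℂ → RP2`, `z ↦ [Re z : Im z : 1]` is continuous and maps the affine curve onto the real part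
(no point of it has `t = 0`; homogeneity). The image of a component is connected. A set with `Cov S N` has at
most `N` components: `C ↦` an element `t` of `T` with `C = connectedComponentIn S t` (`connectedComponentIn_eq`). -/
def S_RPC : Prop := ∀ (n N : ℕ) (F : MvPolynomial (Fin 3) ℝ), F.IsHomogeneous n →
  (∀ x y : ℝ, x ^ 2 + y ^ 2 = 1 → MvPolynomial.eval ![x, y, 0] F ≠ 0) →
  Cov {z : ℂ | MvPolynomial.eval ![z.re, z.im, 1] F = 0} N → (comps (realPart F)).encard ≤ N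

/-- LIN (150 lines). A linear map the class of which in `PGL(3, ℝ)` has odd order `m ≥ 3`: a power of it is a
rotation by `2 π / m` in a suitable basis, up to a scalar.
Proof. `σ ^ m = lam`, `m` odd: replace `σ` by `σ / lam ^ (1 / m)` (real root), so `σ ^ m = 1`, and `σ ^ j ≠ 1` for `0 < j < m`.
The minimal polynomial of `σ` divides `X ^ m - 1`, which has simple roots over `ℂ` and `1` as its only real root.
`dim = 3` is odd, so `1` is an eigenvalue: `σ v₃ = v₃`. If `1` were the only complex eigenvalue, `σ = 1`. Let `ξ = exp(i φ)` be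
another one (not real) and `v₁ - i v₂` an eigenvector: `σ v₁ = cos φ v₁ + sin φ v₂`, `σ v₂ = - sin φ v₁ + cos φ v₂`. The vectors
`v₁ - i v₂`, `v₁ + i v₂`, `v₃` are eigenvectors for the different eigenvalues `ξ, conj ξ, 1`, so they are independent, and
`v₁, v₂, v₃` is a basis, `T ![x, y, t] = x v₁ + y v₂ + t v₃`. The order of `ξ` is `m` (`σ ^ j = 1` iff `ξ ^ j = 1`), so
`ξ ^ j = exp(2 π i / m)` for some `j`. -/
def S_LIN : Prop := ∀ (m : ℕ) (σ : Module.End ℝ (Fin 3 → ℝ)), Odd m → 3 ≤ m → Function.Injective σ →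
  (∃ l : ℝ, ∀ v, (σ ^ m) v = l • v) → (∀ j, 0 < j → j < m → ¬ ∃ l : ℝ, ∀ v, (σ ^ j) v = l • v) →
  ∃ (T : (Fin 3 → ℝ) ≃ₗ[ℝ] (Fin 3 → ℝ)) (j : ℕ) (μ : ℝ), μ ≠ 0 ∧
    ∀ v, (σ ^ j) (T v) = μ • T (rot m v)

/-- TRA (100 lines). Linear changes of coordinates.
Proof. `F' = aeval (fun i => ∑ j, C (T (Pi.single j 1) i) * X j) F`. Homogeneous: `MvPolynomial.IsHomogeneous.aeval`-type lemma
(or `IsHomogeneous` of a `bind₁` with forms of degree `1`). Nonsingular: chain rule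
`∂_j F'(v) = ∑_i T_ij ∂_i F(T v)`, `T` invertible over `ℂ` too. Components: `T` induces a homeomorphism of `RP2` which
maps `realPart F'` onto `realPart F`. -/
def S_TRA : Prop := ∀ (n : ℕ) (F : MvPolynomial (Fin 3) ℝ) (T : (Fin 3 → ℝ) ≃ₗ[ℝ] (Fin 3 → ℝ)),
  F.IsHomogeneous n → Nonsing F → ∃ F' : MvPolynomial (Fin 3) ℝ, F'.IsHomogeneous n ∧ Nonsing F' ∧
    (∀ v, MvPolynomial.eval v F' = MvPolynomial.eval (T v) F) ∧
    (comps (realPart F)).encard ≤ (comps (realPart F')).encard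

/-- DP (60 lines). `D` is a polynomial of degree `2 k` with positive leading coefficient.
Proof. `|c(R)| ^ 2 = c₁(R) ^ 2 + c₂(R) ^ 2` with the real polynomials of the real and imaginary parts of the
coefficients. -/
def S_DP : Prop := ∀ (g : ℝ[X]) (c : ℂ[X]) (m k : ℕ), Ok g c m k →
  ∃ D : ℝ[X], (∀ R : ℝ, D.eval R = Dv g c m R) ∧ D.natDegree = 2 * k ∧ 0 < D.coeff (2 * k) ∧
    0 < D.eval 0

/-- ENT (120 lines; uses DP). There are at most `k` entry radii.
Proof. `Ent` consists of roots of `D`, so it is finite; let `ρ₀ < ... < ρ_(e-1)` be its elements (`Finset.orderEmbOfFin`). There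
are `x₀ < ρ₀ < x₁ < ... < ρ_(e-1) < x_e` with `D(x_i) > 0`: `x_i` near to `ρ_i` on the left, `x_e` large. Let
`0 < ε < min D(x_i)`. The polynomial `D - ε` is positive at the `x_i` and negative at the `ρ_i`, so it has `2 e` roots, in the
disjoint intervals `(x_i, ρ_i)`, `(ρ_i, x_(i+1))`, and `2 e ≤ 2 k`. -/
def S_ENT : Prop := ∀ (g : ℝ[X]) (c : ℂ[X]) (m k : ℕ), Ok g c m k →
  (Ent g c m).Finite ∧ (Ent g c m).ncard ≤ k

/-- MIN (150 lines). Every component contains a point with `|z| ^ 2` an entry radius.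
Proof. (1) `Z = Zs g c m` is closed; for `z ∈ Z`: `|g(R)| = |Re(c(R) z ^ m)| ≤ |c(R)| R ^ (m / 2)`, `R = |z| ^ 2`, so `D(R) ≤ 0`, hence
`R ≤ B`: `Z` is compact, and `0 ∉ Z`. The component of `z` is compact; let `z₀` be a point of it with minimal `|z₀|`,
`R₀ = |z₀| ^ 2 > 0`. (2) Claim: if `c(R₀) ≠ 0` and `D ≤ 0` on `[R₀ - δ, R₀]` for some `δ > 0` then there is a point with a smaller
absolute value in the component. We may assume that `c ≠ 0` on `[R₀ - δ, R₀]`. Let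
`v(R) = (- g(R) + i ε √(- D(R))) / c(R)`, `ε = ± 1` such that `v(R₀) = z₀ ^ m` (possible: `c(R₀) z₀ ^ m` has the real part `- g(R₀)`
and the square of its imaginary part is `|c(R₀)| ^ 2 R₀ ^ m - g(R₀) ^ 2 = - D(R₀)`). `|v(R)| ^ 2 = R ^ m`. The point
`z(R) = z₀ (v(R) / v(R₀)) ^ (1 / m)` (principal branch; continuous for `R` near to `R₀`, where `v(R) / v(R₀)` is near to `1`) has
`z(R) ^ m = v(R)`, so `|z(R)| ^ 2 = R` and `z(R) ∈ Z`. The image of `[R₀ - δ', R₀]` is connected, contains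
`z₀` and `z(R₀ - δ')`. (3) `c(R₀) ≠ 0`: otherwise `D(R₀) ≤ 0` gives `g(R₀) = 0`. If `D(R₀) < 0` then `D < 0` near to `R₀`,
which contradicts (2). So `D(R₀) = 0`, and by (2) `D` has positive values on the left of `R₀` arbitrarily near. -/
def S_MIN : Prop := ∀ (g : ℝ[X]) (c : ℂ[X]) (m : ℕ), 1 ≤ m → g.eval 0 ≠ 0 →
  (∃ B : ℝ, ∀ R, B < R → 0 < Dv g c m R) → (∀ R : ℝ, 0 < R → g.eval R = 0 → c.eval (R : ℂ) ≠ 0) →
  ∀ z ∈ Zs g c m, ∃ z₀ ∈ connectedComponentIn (Zs g c m) z, ‖z₀‖ ^ 2 ∈ Ent g c m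

/-- CROSS (120 lines). At a crossing radius all the points of the curve are in the same component (`c` constant).
Proof. Replacing `g, c` by `- g, - c` (the same curve) we may assume `g(ρ) < 0 < g(ρ')`. Let `c = |c| exp(i φ)`,
`z = √ρ exp(i θ)`; `c z ^ m` has real part `- g(ρ) = |g(ρ)|` and absolute value `|g(ρ)|` (`D(ρ) = 0`), so it is
`|g(ρ)|` and `exp(i (φ + m θ)) = 1`. Let `ψ(R) = arccos(- g(R) / (|c| √(R ^ m)))`, continuous on `[ρ, ρ']`, `ψ(ρ) = 0`,
`ψ(ρ') = π`. The points `√R exp(i (θ + ψ(R) / m))` and `√R exp(i (θ + 2 π / m - ψ(R) / m))` are on the curve for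
`ρ ≤ R ≤ ρ'` (as `|g| ≤ |c| √(R ^ m)`), and for `R = ρ'` they are equal. So `z` and `exp(2 π i / m) z` are in the same component.
All points `z'` of the curve with `|z'| ^ 2 = ρ` satisfy `z' ^ m = z ^ m`, so `z' = exp(2 π i l / m) z`. -/
def S_CROSS : Prop := ∀ (g : ℝ[X]) (c : ℂ) (m : ℕ) (ρ : ℝ), 1 ≤ m → c ≠ 0 → 0 < ρ →
  Dv g (C c) m ρ = 0 → Crs g (C c) m ρ → ∀ z ∈ Zs g (C c) m, ∀ z' ∈ Zs g (C c) m, ‖z‖ ^ 2 = ρ →
  ‖z'‖ ^ 2 = ρ → z' ∈ connectedComponentIn (Zs g (C c) m) z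

/-- CNT (200 lines; uses DP, ENT for finiteness). The number of entry radii plus the number of entry radii
without crossing is at most `k + 1` (`m = 2 k - 1`, `c` constant).
Proof. `κ = |c| > 0`, `D(R) = g(R) ^ 2 - κ ^ 2 R ^ m`. Let `ρ₀ < ... < ρ_(e-1)` be the entry radii; `x_i < ρ_i` (`i < e`) with
`ρ_(i-1) < x_i` and `D > 0` on `[x_i, ρ_i)` (`D` has finitely many roots), `x_e > ρ_(e-1)` with `D(x_e) > 0`;
`x₀ > 0`. `s_i = ±1` the sign of `g(x_i)` (`i ≤ e`); it is the sign of `g(ρ_i)` too, as `g ≠ 0` where `D ≥ 0`.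
(1) If `s_i ≠ s_(i+1)` then `ρ_i` is a crossing. Say `s_i = -1` (else change the signs of `g`). `q(R) = g(R) - κ √(R ^ m)` is negative at
`ρ_i` and positive at `x_(i+1)`. Let `ρ'` be the first zero of `q` after `ρ_i`; `D(ρ') = 0`, `g(ρ') > 0`. `D ≤ 0` on `[ρ_i, ρ']`:
otherwise there is `R₂ ∈ (ρ_i, ρ')` with `D(R₂) > 0`, and the first zero of `D` after `R₂` is an entry radius in
`(ρ_i, x_(i+1))`, a contradiction.
(2) `H(x) = g(x ^ 2) / x ^ m`, `H'(x) = L(x ^ 2) / x ^ (m + 1)`, `L(R) = 2 R g'(R) - m g(R)`, a polynomial of degree `≤ k`, `L(0) ≠ 0`.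
`s_i H(√x_i) > κ = s_i H(√ρ_i)`, so there is `ξ_i ∈ (x_i, ρ_i)` with `s_i L(ξ_i) < 0` (mean value theorem);
`s_(i+1) H(√ρ_i) ≤ κ < s_(i+1) H(√x_(i+1))`, so there is `η_i ∈ (ρ_i, x_(i+1))` with `s_(i+1) L(η_i) > 0`.
So `L` has a root in `(η_i, ξ_(i+1))` for `i + 1 < e`, and in `(ξ_i, η_i)` if `s_i = s_(i+1)`. These intervals
are disjoint: `(e - 1) + #{i | s_i = s_(i+1)} ≤ k`. With (1): `e + #{entry radii, not crossing} ≤ k + 1`. -/
def S_CNT : Prop := ∀ (g : ℝ[X]) (c : ℂ) (k : ℕ), c ≠ 0 → Ok g (C c) (2 * k - 1) k →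
  (Ent g (C c) (2 * k - 1)).Finite ∧
  (Ent g (C c) (2 * k - 1)).ncard +
    {ρ | ρ ∈ Ent g (C c) (2 * k - 1) ∧ ¬ Crs g (C c) (2 * k - 1) ρ}.ncard ≤ k + 1

/-- The main theorem. -/
def S_MAIN : Prop := ∀ (k m : ℕ) (F : MvPolynomial (Fin 3) ℝ) (σ : Module.End ℝ (Fin 3 → ℝ)) (a : ℝ),
  3 ≤ k → F.IsHomogeneous (2 * k) → Nonsing F → Function.Injective σ →
  (∀ v, MvPolynomial.eval (σ v) F = a * MvPolynomial.eval v F) → Odd m → k < m →
  (∃ l : ℝ, ∀ v, (σ ^ m) v = l • v) → (∀ j, 0 < j → j < m → ¬ ∃ l : ℝ, ∀ v, (σ ^ j) v = l • v) →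
  (m ≤ 2 * k → (comps (realPart F)).encard ≤ (m * k : ℕ)) ∧
  (m = 2 * k - 1 → (comps (realPart F)).encard ≤ ((2 * k - 1) * ((k + 1) / 2) + (k + 1) % 2 : ℕ)) ∧
  (2 * k < m → (comps (realPart F)).encard ≤ k) ∧
  (comps (realPart F)).encard < (((2 * k - 1) * (2 * k - 2) / 2 + 1 : ℕ) : ℕ∞)

end Pool.Agent.H23S
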