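import Pool.Agent.H23S.Stm
set_option autoImplicit false

/-!
# Project SM (helper23), part 2: the bound 15 for order 7 and degree 8 is attained

`F8 = g(x ^ 2 + y ^ 2, t ^ 2) + 5600 Re((x + i y) ^ 7) t`, where `g(R) = 35 R ^ 4 + 131915 R ^ 3 - 7141680 R ^ 2 + 94493952 R - 373248000`
satisfies `L(R) := 2 R g'(R) - 7 g(R) = 35 (R - 9) (R - 16) (R - 144) (R - 3600)`. With `H(x) = g(x ^ 2) / x ^ 7` (critical
points `3, 4, 12, 60`) and `κ = 5600`: `-κ < H(3) < 0`, `H(4) < -κ`, `H(12) > κ`, `0 < H(60) < κ`.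
-/

open Polynomial

namespace Pool.Agent.H23S

/-- The curve with 15 ovals. -/
noncomputable def F8 : MvPolynomial (Fin 3) ℝ :=
  35 * (MvPolynomial.X 0 ^ 2 + MvPolynomial.X 1 ^ 2) ^ 4 +
  131915 * (MvPolynomial.X 0 ^ 2 + MvPolynomial.X 1 ^ 2) ^ 3 * MvPolynomial.X 2 ^ 2 -
  7141680 * (MvPolynomial.X 0 ^ 2 + MvPolynomial.X 1 ^ 2) ^ 2 * MvPolynomial.X 2 ^ 4 +
  94493952 * (MvPolynomial.X 0 ^ 2 + MvPolynomial.X 1 ^ 2) * MvPolynomial.X 2 ^ 6 -
  373248000 * MvPolynomial.X 2 ^ 8 +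
  5600 * (MvPolynomial.X 0 ^ 7 - 21 * MvPolynomial.X 0 ^ 5 * MvPolynomial.X 1 ^ 2 +
    35 * MvPolynomial.X 0 ^ 3 * MvPolynomial.X 1 ^ 4 -
    7 * MvPolynomial.X 0 * MvPolynomial.X 1 ^ 6) * MvPolynomial.X 2

/-- EXN (120 lines). `F8` is a nonsingular form of degree 8, invariant under the rotation by `2 π / 7`.
Proof. `Re(z ^ 7)` and `|z| ^ 2` are invariant. Nonsingular: let `(x, y, t) ∈ ℂ ^ 3` be a zero of `F` and of the partial
derivatives, `z = x + i y`, `w = x - i y` (independent complex numbers), `u = z w = x ^ 2 + y ^ 2`; then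
`x ^ 7 - 21 x ^ 5 y ^ 2 + ... = (z ^ 7 + w ^ 7) / 2`, and `(∂_x - i ∂_y) F / 2 = ∂_z F`, `(∂_x + i ∂_y) F / 2 = ∂_w F` are
`w G_u + 19600 z ^ 6 t` and `z G_u + 19600 w ^ 6 t` with `G = 35 u ^ 4 + 131915 u ^ 3 t ^ 2 - ...`, `G_u = 140 u ^ 3 + ...`.
If `t = 0`: `F = 35 u ^ 4`, so `u = 0`, and `∂_t F = 2800 (z ^ 7 + w ^ 7) = 0`; as `z w = 0`, `z = w = 0`. If `t ≠ 0` we may take
`t = 1` (or keep `t`): `z ∂_z F = w ∂_w F = 0` gives `u g'(u) = - 19600 z ^ 7 = - 19600 w ^ 7`, so `z ^ 7 = w ^ 7 =: q`, `u ^ 7 = q ^ 2`,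
`g(u) + 5600 q = 0`, hence `L(u) = 2 u g'(u) - 7 g(u) = - 39200 q + 39200 q = 0`, `u ∈ {9, 16, 144, 3600}`, and
`g(u) ^ 2 = 5600 ^ 2 u ^ 7`, which is false for these four numbers (`norm_num`). -/
def S_EXN : Prop := F8.IsHomogeneous 8 ∧ Nonsing F8 ∧
  ∀ v, MvPolynomial.eval (rot 7 v) F8 = MvPolynomial.eval v F8

/-- EXL (200 lines). The curve `F8 = 0` has at least 15 components.
Proof. (1) If `f : X → ℂ` is continuous on `S` and `f(S)` is finite then `f` is constant on every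
`connectedComponentIn S p` (its image is connected), so `S` has at least `|f(S)|` components.
(2) Chart: no point of the real part has `t = 0` (`F8(x, y, 0) = 35 (x ^ 2 + y ^ 2) ^ 4`). The map
`RP2 → ℂ`, `[x : y : t] ↦ (x + i y) / t` is continuous on `{t ≠ 0}` (quotient topology), and it maps `realPart F8` onto
`Z = {z | P(z) = 0}`, `P(z) = g(|z| ^ 2) + 5600 Re(z ^ 7)`.
(3) On the circles `|z| = 4`, `|z| = 12` we have `|g| > 5600 |z| ^ 7`, so `P ≠ 0` there, and `Z` is the disjoint union of its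
parts `Z₁` in `|z| < 4`, `Z₂` in `4 < |z| < 12`, `Z₃` in `|z| > 12`, relatively open in `Z`. `g(R) < 0` for `0 ≤ R ≤ 16`, so
`P < 0` at the points with `|z| < 4` and `z ^ 7 ≤ 0`: for `z ∈ Z₁` `z ^ 7` is in the slit plane, and
`f(z) = z / (z ^ 7) ^ (1 / 7)` (principal branch) is continuous on `Z₁`, with values in the 7-th roots of unity.
`g(R) > 0` for `R ≥ 144`, so for `z ∈ Z₃` `(- z) ^ 7` is in the slit plane; put `f(z) = 2 (- z) / ((- z) ^ 7) ^ (1 / 7)` on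
`Z₃`, and `f = 0` on `Z₂`. (4) `f` takes all the 15 values `ζ`, `0`, `2 ζ`, `ζ ^ 7 = 1`: the function `P` has a zero on the
ray through `ζ` between `|z| = 3` (`P(3 ζ) > 0`) and `|z| = 4` (`P(4 ζ) < 0`), another one between `|z| = 4` and
`|z| = 12` (`P(12 ζ) > 0`), and one on the ray through `- ζ` between `|z| = 12` (`P(-12 ζ) > 0`) and `|z| = 60`
(`P(-60 ζ) < 0`). -/
def S_EXL : Prop := 15 ≤ (comps (realPart F8)).encard

end Pool.Agent.H23S
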