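import Pool.Agent.H23S.Stm

/-!
# Project SM, piece TRA: linear changes of coordinates
-/

set_option autoImplicit false

namespace Pool.Agent.H23S

open MvPolynomial

namespace TRAP

variable (T : (Fin 3 → ℝ) ≃ₗ[ℝ] (Fin 3 → ℝ))

/-- the matrix -/
noncomputable def A : Matrix (Fin 3) (Fin 3) ℝ := LinearMap.toMatrix' (T : (Fin 3 → ℝ) →ₗ[ℝ] (Fin 3 → ℝ))

theorem A_apply (v : Fin 3 → ℝ) (i : Fin 3) : T v i = ∑ j, A T i j * v j := by
  have h : T v = (A T).mulVec v := by
    rw [A, LinearMap.toMatrix'_mulVec]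
    rfl
  rw [h]
  rfl

/-- the linear forms -/
noncomputable def Lf (i : Fin 3) : MvPolynomial (Fin 3) ℝ := ∑ j, C (A T i j) * X j

theorem Lf_hom (i : Fin 3) : (Lf T i).IsHomogeneous 1 := by
  apply IsHomogeneous.sum
  intro j _
  have := (isHomogeneous_C (Fin 3) (A T i j)).mul (isHomogeneous_X ℝ j)
  rwa [zero_add] at this

/-- the new polynomial -/
noncomputable def Fn (F : MvPolynomial (Fin 3) ℝ) : MvPolynomial (Fin 3) ℝ := aeval (Lf T) F

theorem Fn_eval (F : MvPolynomial (Fin 3) ℝ) (v : Fin 3 → ℝ) : eval v (Fn T F) = eval (T v) F := by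
  have h : ((eval v : MvPolynomial (Fin 3) ℝ →+* ℝ).comp
      (aeval (Lf T) : MvPolynomial (Fin 3) ℝ →ₐ[ℝ] _).toRingHom) = eval (T v) := by
    apply MvPolynomial.ringHom_ext
    · intro r
      simp
    · intro i
      simp [Lf, A_apply]
  exact RingHom.congr_fun h F

/-- the map over `ℂ` -/
noncomputable def TC (v : Fin 3 → ℂ) : Fin 3 → ℂ := fun i => ∑ j, (A T i j : ℂ) * v j

theorem Fn_aeval (F : MvPolynomial (Fin 3) ℝ) (v : Fin 3 → ℂ) :
    aeval v (Fn T F) = aeval (TC T v) F := by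
  have h : ((aeval v : MvPolynomial (Fin 3) ℝ →ₐ[ℝ] ℂ).comp
      (aeval (Lf T) : MvPolynomial (Fin 3) ℝ →ₐ[ℝ] _)) = aeval (TC T v) := by
    apply MvPolynomial.algHom_ext
    intro i
    simp [Lf, TC]
  exact DFunLike.congr_fun h F

theorem Fn_pderiv (F : MvPolynomial (Fin 3) ℝ) (j : Fin 3) :
    pderiv j (Fn T F) = ∑ i, Fn T (pderiv i F) * C (A T i j) := by
  induction F using MvPolynomial.induction_on with
  | C a => simp [Fn]
  | add p q hp hq =>
    simp only [Fn, map_add] at hp hq ⊢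
    rw [hp, hq, ← Finset.sum_add_distrib]
    refine Finset.sum_congr rfl fun i _ => ?_
    ring
  | mul_X p n hp =>
    have h1 : Fn T (p * X n) = Fn T p * Lf T n := by simp [Fn]
    have h2 : pderiv j (Lf T n) = C (A T n j) := by
      unfold Lf
      rw [map_sum]
      simp only [pderiv_C_mul, pderiv_X]
      rw [Finset.sum_eq_single j]
      · simp
      · intro b _ hb
        simp [hb.symm]
      · intro h; exact absurd (Finset.mem_univ _) h
    have h3 : ∀ i, Fn T (pderiv i (p * X n)) * C (A T i j) =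
        Fn T (pderiv i p) * C (A T i j) * Lf T n +
          (if n = i then Fn T p * C (A T i j) else 0) := by
      intro i
      rw [pderiv_mul, pderiv_X]
      by_cases hi : n = i
      · subst hi
        simp only [Pi.single_eq_same, mul_one, if_true, Fn, map_add, map_mul, aeval_X]
        ring
      · rw [if_neg hi]
        have h5 : (Pi.single i (1 : MvPolynomial (Fin 3) ℝ) : Fin 3 → MvPolynomial (Fin 3) ℝ) n = 0 := by
          rw [Pi.single_apply, if_neg hi]
        simp only [h5, mul_zero, add_zero, Fn, map_mul, aeval_X]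
        ring
    rw [h1, pderiv_mul, hp, h2, Finset.sum_congr rfl (fun i _ => h3 i), Finset.sum_add_distrib,
      Finset.sum_mul]
    simp

theorem TC_ne {v : Fin 3 → ℂ} (hv : v ≠ 0) : TC T v ≠ 0 := by
  intro h
  apply hv
  have hinv : A T.symm * A T = 1 := by
    rw [A, A, ← LinearMap.toMatrix'_comp]
    have : ((T.symm : (Fin 3 → ℝ) →ₗ[ℝ] (Fin 3 → ℝ)).comp (T : (Fin 3 → ℝ) →ₗ[ℝ] (Fin 3 → ℝ))) =
        LinearMap.id := by
      ext1
      simp
    rw [this, LinearMap.toMatrix'_id]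
  have h1 : ((A T).map (algebraMap ℝ ℂ)).mulVec v = 0 := h
  have h2 := congrArg (((A T.symm).map (algebraMap ℝ ℂ)).mulVec) h1
  rw [Matrix.mulVec_mulVec, ← Matrix.map_mul, hinv, Matrix.mulVec_zero] at h2
  rw [Matrix.map_one _ (map_zero _) (map_one _), Matrix.one_mulVec] at h2
  exact h2

theorem AT_inj {G : Fin 3 → ℂ} (h : ∀ j, ∑ i, G i * (A T i j : ℂ) = 0) : G = 0 := by
  have hinv : A T * A T.symm = 1 := by
    rw [A, A, ← LinearMap.toMatrix'_comp]
    have : ((T : (Fin 3 → ℝ) →ₗ[ℝ] (Fin 3 → ℝ)).comp (T.symm : (Fin 3 → ℝ) →ₗ[ℝ] (Fin 3 → ℝ))) =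
        LinearMap.id := by
      ext1
      simp
    rw [this, LinearMap.toMatrix'_id]
  have h1 : Matrix.vecMul G ((A T).map (algebraMap ℝ ℂ)) = 0 := funext h
  have h2 := congrArg (fun w => Matrix.vecMul w ((A T.symm).map (algebraMap ℝ ℂ))) h1
  simp only [Matrix.vecMul_vecMul, ← Matrix.map_mul, hinv, Matrix.zero_vecMul] at h2
  rw [Matrix.map_one _ (map_zero _) (map_one _), Matrix.vecMul_one] at h2
  exact h2

theorem Fn_nonsing {F : MvPolynomial (Fin 3) ℝ} (hF : Nonsing F) : Nonsing (Fn T F) := by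
  intro v hv h
  by_contra hcon
  push Not at hcon
  rw [Fn_aeval] at h
  obtain ⟨i, hi⟩ := hF (TC T v) (TC_ne T hv) h
  apply hi
  have h1 : (fun i => aeval (TC T v) (pderiv i F) : Fin 3 → ℂ) = 0 := by
    apply AT_inj T
    intro j
    have h2 := hcon j
    rw [Fn_pderiv, map_sum] at h2
    rw [← h2]
    refine Finset.sum_congr rfl fun i _ => ?_
    rw [map_mul, Fn_aeval]
    simp
  exact congrFun h1 i

/-- the map on the projective plane -/
noncomputable def pm : RP2 → RP2 :=
  Projectivization.map (T : (Fin 3 → ℝ) →ₗ[ℝ] (Fin 3 → ℝ)) T.injective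

theorem pm_mk (v : Fin 3 → ℝ) (hv : v ≠ 0) :
    pm T (Projectivization.mk ℝ v hv) =
      (Projectivization.mk ℝ (T v) (by rwa [Ne, LinearEquiv.map_eq_zero_iff]) : RP2) := rfl

theorem pm_cont : Continuous (pm T) := by
  unfold pm Projectivization.map
  refine Continuous.quotient_map' ?_ _
  refine Continuous.subtype_mk ?_ _
  exact (T : (Fin 3 → ℝ) →ₗ[ℝ] (Fin 3 → ℝ)).continuous_of_finiteDimensional.comp
    continuous_subtype_val

theorem pm_symm (x : RP2) : pm T.symm (pm T x) = x := by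
  revert x
  refine Projectivization.ind (K := ℝ) (V := Fin 3 → ℝ) fun v hv => ?_
  rw [pm_mk, pm_mk]
  congr 1
  simp

/-- the homeomorphism -/
noncomputable def ph : RP2 ≃ₜ RP2 where
  toFun := pm T
  invFun := pm T.symm
  left_inv := pm_symm T
  right_inv := pm_symm T.symm
  continuous_toFun := pm_cont T
  continuous_invFun := pm_cont T.symm

theorem ph_image (F : MvPolynomial (Fin 3) ℝ) : ph T '' realPart (Fn T F) = realPart F := by
  ext p
  constructor
  · rintro ⟨q, ⟨v, hv, h0, rfl⟩, rfl⟩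
    exact ⟨T v, by rwa [Ne, LinearEquiv.map_eq_zero_iff], by rw [← Fn_eval]; exact h0, rfl⟩
  · rintro ⟨v, hv, h0, rfl⟩
    refine ⟨(Projectivization.mk ℝ (T.symm v) (by rwa [Ne, LinearEquiv.map_eq_zero_iff]) : RP2),
      ⟨T.symm v, by rwa [Ne, LinearEquiv.map_eq_zero_iff], ?_, rfl⟩, ?_⟩
    · rw [Fn_eval, LinearEquiv.apply_symm_apply]
      exact h0
    · exact pm_symm T.symm (Projectivization.mk ℝ v hv)

theorem comps_le (F : MvPolynomial (Fin 3) ℝ) :
    (comps (realPart F)).encard ≤ (comps (realPart (Fn T F))).encard := by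
  have h1 : comps (realPart F) ⊆ (fun S : Set RP2 => ph T '' S) '' comps (realPart (Fn T F)) := by
    rintro C ⟨p, hp, rfl⟩
    rw [← ph_image T F] at hp
    obtain ⟨q, hq, rfl⟩ := hp
    refine ⟨connectedComponentIn (realPart (Fn T F)) q, ⟨q, hq, rfl⟩, ?_⟩
    show ph T '' _ = _
    rw [(ph T).image_connectedComponentIn hq, ph_image]
  exact (Set.encard_le_encard h1).trans (Set.encard_image_le _ _)

end TRAP

open TRAP

/-- **Piece TRA.** -/
theorem t_TRA : S_TRA := by
  intro n F T hF hN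
  refine ⟨Fn T F, ?_, Fn_nonsing T hN, fun v => Fn_eval T F v, comps_le T F⟩
  have h := hF.aeval (Lf T) (Lf_hom T)
  rwa [one_mul] at h

end Pool.Agent.H23S
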